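import Mathlib

/-!
Definitions for the corona theorem on the ball with slice asymptotics at the boundary.
-/

set_option autoImplicit false

open Metric Set Filter Topology

namespace Pool.Agent.H790R4

/-- open Euclidean unit ball of `ℂⁿ` -/
def Ball (n : ℕ) : Set (Fin n → ℂ) := {z | ∑ i, ‖z i‖ ^ 2 < 1}

/-- bounded holomorphic function on the ball -/
def IsBH (n : ℕ) (f : (Fin n → ℂ) → ℂ) : Prop :=
  DifferentiableOn ℂ f (Ball n) ∧ ∃ C : ℝ, ∀ z ∈ Ball n, ‖f z‖ ≤ C

/-- `⟨z, p⟩` -/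
noncomputable def ip {n : ℕ} (z p : Fin n → ℂ) : ℂ := ∑ i, z i * (starRingEnd ℂ) (p i)

/-- the coordinate `⟨φ_a(z), φ_a(p)⟩` of the holomorphic retraction onto the complex line through
`a` and `p` (for `a = 0` it is `⟨z, p⟩`) -/
noncomputable def lam {n : ℕ} (a p z : Fin n → ℂ) : ℂ :=
  1 - (1 - ip a a) * (1 - ip z p) / ((1 - ip z a) * (1 - ip a p))

end Pool.Agent.H790R4
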