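import Mathlib
import Pool.Agent.H790R4.Defs
set_option autoImplicit false

open Metric Set Filter Topology

namespace Pool.Agent.H790R4

theorem A1_open (n : ℕ) : IsOpen (Ball n) := by
  unfold Ball
  exact isOpen_lt (by fun_prop) continuous_const

/-- Cauchy estimate -/
theorem A1_cauchy {n : ℕ} {g : (Fin n → ℂ) → ℂ} {U : Set (Fin n → ℂ)} (hU : IsOpen U)
    (hg : DifferentiableOn ℂ g U) {x : Fin n → ℂ} {r C : ℝ} (hr : 0 < r)
    (hx : closedBall x r ⊆ U) (hC : ∀ z ∈ U, ‖g z‖ ≤ C) : ‖fderiv ℂ g x‖ ≤ C / r := by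
  have hxU : x ∈ U := hx (mem_closedBall_self hr.le)
  have hC0 : 0 ≤ C := (norm_nonneg _).trans (hC x hxU)
  refine ContinuousLinearMap.opNorm_le_bound _ (div_nonneg hC0 hr.le) fun v => ?_
  rcases eq_or_ne v 0 with hv | hv
  · simp [hv]
  have hvn : 0 < ‖v‖ := norm_pos_iff.2 hv
  have hnc : ((‖v‖ : ℝ) : ℂ) ≠ 0 := by exact_mod_cast hvn.ne'
  obtain ⟨w, hw⟩ : ∃ w : Fin n → ℂ, w = (((‖v‖ : ℝ) : ℂ))⁻¹ • v := ⟨_, rfl⟩
  have hwn : ‖w‖ = 1 := by
    rw [hw, norm_smul, norm_inv, Complex.norm_real, norm_norm, inv_mul_cancel₀ hvn.ne']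
  have hvw : v = ((‖v‖ : ℝ) : ℂ) • w := by
    rw [hw, smul_smul, mul_inv_cancel₀ hnc, one_smul]
  have hmap : ∀ t : ℂ, t ∈ closedBall (0 : ℂ) r → x + t • w ∈ U := by
    intro t ht
    refine hx ?_
    rw [mem_closedBall, dist_eq_norm, add_sub_cancel_left, norm_smul, hwn, mul_one]
    simpa using ht
  have hline : ∀ t : ℂ, HasDerivAt (fun t : ℂ => x + t • w) w t := by
    intro t
    have h1 := (hasDerivAt_id t).smul_const w
    simpa using h1.const_add x
  have hd : ∀ t ∈ closedBall (0 : ℂ) r, HasDerivAt (fun t : ℂ => g (x + t • w))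
      (fderiv ℂ g (x + t • w) w) t := by
    intro t ht
    have h1 : HasFDerivAt g (fderiv ℂ g (x + t • w)) (x + t • w) :=
      (hg.differentiableAt (hU.mem_nhds (hmap t ht))).hasFDerivAt
    exact h1.comp_hasDerivAt t (hline t)
  have hdc : DiffContOnCl ℂ (fun t : ℂ => g (x + t • w)) (ball 0 r) := by
    refine DifferentiableOn.diffContOnCl fun t ht => ?_
    rw [closure_ball (0 : ℂ) hr.ne'] at ht
    exact (hd t ht).differentiableAt.differentiableWithinAt
  have h1 := Complex.norm_deriv_le_of_forall_mem_sphere_norm_le hr hdc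
    (fun z hz => hC _ (hmap z (sphere_subset_closedBall hz)))
  rw [(hd 0 (mem_closedBall_self hr.le)).deriv] at h1
  simp only [zero_smul, add_zero] at h1
  have h2 : fderiv ℂ g x v = ((‖v‖ : ℝ) : ℂ) * fderiv ℂ g x w := by
    conv_lhs => rw [hvw]
    rw [map_smul, smul_eq_mul]
  rw [h2, norm_mul, Complex.norm_real, norm_norm, mul_comm]
  exact mul_le_mul_of_nonneg_right h1 hvn.le

/-- A1: Weierstrass theorem in several variables -/
theorem A1 (n : ℕ) (F : ℕ → (Fin n → ℂ) → ℂ) (f : (Fin n → ℂ) → ℂ)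
    (hF : ∀ k, DifferentiableOn ℂ (F k) (Ball n))
    (h : TendstoUniformlyOn F f atTop (Ball n)) : DifferentiableOn ℂ f (Ball n) := by
  intro x₀ hx₀
  have hO := A1_open n
  obtain ⟨ε, hε, hεB⟩ := Metric.isOpen_iff.1 hO x₀ hx₀
  set r := ε / 4 with hr
  have hr0 : 0 < r := by positivity
  have hsub : ∀ x ∈ ball x₀ r, closedBall x r ⊆ Ball n := by
    intro x hx y hy
    refine hεB ?_
    rw [mem_ball] at hx ⊢
    rw [mem_closedBall] at hy
    calc dist y x₀ ≤ dist y x + dist x x₀ := dist_triangle _ _ _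
      _ < ε := by linarith
  have hsU : ∀ x ∈ ball x₀ r, x ∈ Ball n := fun x hx => hsub x hx (mem_closedBall_self hr0.le)
  have hda : ∀ k, ∀ x ∈ Ball n, DifferentiableAt ℂ (F k) x := fun k x hx =>
    (hF k).differentiableAt (hO.mem_nhds hx)
  have hUC : UniformCauchySeqOn (fun k => fderiv ℂ (F k)) atTop (ball x₀ r) := by
    rw [Metric.uniformCauchySeqOn_iff]
    intro δ hδ
    have h1 := Metric.uniformCauchySeqOn_iff.1 h.uniformCauchySeqOn (δ * r / 2) (by positivity)
    obtain ⟨N, hN⟩ := h1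
    refine ⟨N, fun a ha b hb x hx => ?_⟩
    have h2 : ‖fderiv ℂ (fun z => F a z - F b z) x‖ ≤ (δ * r / 2) / r :=
      A1_cauchy hO ((hF a).sub (hF b)) hr0 (hsub x hx) fun z hz => by
        have := hN a ha b hb z hz
        rw [dist_eq_norm] at this
        exact this.le
    have h3 : fderiv ℂ (fun z => F a z - F b z) x = fderiv ℂ (F a) x - fderiv ℂ (F b) x :=
      fderiv_fun_sub (hda a x (hsU x hx)) (hda b x (hsU x hx))
    rw [h3] at h2
    rw [dist_eq_norm]
    refine lt_of_le_of_lt h2 ?_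
    have h4 : δ * r / 2 / r = δ / 2 := by field_simp
    rw [h4]
    linarith
  have hex : ∀ x, ∃ L : (Fin n → ℂ) →L[ℂ] ℂ, x ∈ ball x₀ r →
      Tendsto (fun k => fderiv ℂ (F k) x) atTop (𝓝 L) := by
    intro x
    by_cases hx : x ∈ ball x₀ r
    · obtain ⟨L, hL⟩ := cauchySeq_tendsto_of_complete (hUC.cauchy_map hx)
      exact ⟨L, fun _ => hL⟩
    · exact ⟨0, fun h => absurd h hx⟩
  choose g' hg' using hex
  have hTU : TendstoUniformlyOn (fun k => fderiv ℂ (F k)) g' atTop (ball x₀ r) :=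
    hUC.tendstoUniformlyOn_of_tendsto fun x hx => hg' x hx
  have hfin := hasFDerivAt_of_tendstoUniformlyOn isOpen_ball hTU
    (fun k x hx => (hda k x (hsU x hx)).hasFDerivAt)
    (fun x hx => h.tendsto_at (hsU x hx)) (mem_ball_self hr0 : x₀ ∈ ball x₀ r)
  exact hfin.differentiableAt.differentiableWithinAt

end Pool.Agent.H790R4
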