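import Mathlib
import Pool.Agent.H790R4.Defs
set_option autoImplicit false

open Metric Set Filter Topology

namespace Pool.Agent.H790R4

theorem A2_zero_mem (n : ℕ) : (0 : Fin n → ℂ) ∈ Ball n := by
  simp [Ball]

/-- the algebra of bounded holomorphic functions -/
def A2_alg (n : ℕ) : Subalgebra ℂ (BoundedContinuousFunction (Ball n) ℂ) where
  carrier := {u | ∃ f : (Fin n → ℂ) → ℂ, DifferentiableOn ℂ f (Ball n) ∧ ∀ z : Ball n, u z = f z}
  mul_mem' := by
    rintro u v ⟨f, hf, hu⟩ ⟨g, hg, hv⟩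
    exact ⟨fun z => f z * g z, hf.mul hg, fun z => by
      rw [BoundedContinuousFunction.mul_apply, hu, hv]⟩
  add_mem' := by
    rintro u v ⟨f, hf, hu⟩ ⟨g, hg, hv⟩
    exact ⟨fun z => f z + g z, hf.add hg, fun z => by
      rw [BoundedContinuousFunction.add_apply, hu, hv]⟩
  algebraMap_mem' := by
    intro c
    exact ⟨fun _ => c, differentiableOn_const c, fun z => by
      simp [Algebra.algebraMap_eq_smul_one]⟩

/-- a bounded holomorphic function as a bounded continuous function -/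
noncomputable def A2_mk {n : ℕ} (f : (Fin n → ℂ) → ℂ) (h : IsBH n f) :
    BoundedContinuousFunction (Ball n) ℂ :=
  BoundedContinuousFunction.ofNormedAddCommGroup (fun z : Ball n => f z)
    (continuousOn_iff_continuous_restrict.mp h.1.continuousOn) h.2.choose
    (fun z => h.2.choose_spec z z.2)

theorem A2_mk_apply {n : ℕ} (f : (Fin n → ℂ) → ℂ) (h : IsBH n f) (z : Ball n) :
    A2_mk f h z = f z := rfl

theorem A2_mk_mem {n : ℕ} (f : (Fin n → ℂ) → ℂ) (h : IsBH n f) : A2_mk f h ∈ A2_alg n :=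
  ⟨f, h.1, fun _ => rfl⟩

theorem A2_closed
    (hA1 : ∀ (n : ℕ) (F : ℕ → (Fin n → ℂ) → ℂ) (f : (Fin n → ℂ) → ℂ),
      (∀ k, DifferentiableOn ℂ (F k) (Ball n)) →
      TendstoUniformlyOn F f atTop (Ball n) → DifferentiableOn ℂ f (Ball n)) (n : ℕ) :
    IsClosed (A2_alg n : Set (BoundedContinuousFunction (Ball n) ℂ)) := by
  classical
  apply IsSeqClosed.isClosed
  intro u v hu hv
  choose F hF hFu using fun k => (hu k : ∃ f : (Fin n → ℂ) → ℂ,
    DifferentiableOn ℂ f (Ball n) ∧ ∀ z : Ball n, u k z = f z)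
  refine ⟨fun z => if h : z ∈ Ball n then v ⟨z, h⟩ else 0, ?_, fun z => by
    simp⟩
  refine hA1 n F _ hF ?_
  rw [Metric.tendstoUniformlyOn_iff]
  intro ε hε
  have h1 := (Metric.tendsto_nhds.mp hv) ε hε
  filter_upwards [h1] with k hk z hz
  simp only [dif_pos hz]
  rw [← hFu k ⟨z, hz⟩, dist_comm]
  exact (BoundedContinuousFunction.dist_coe_le_dist _).trans_lt hk

/-- A2: Gelfand theory for `H^∞(B)`: if the Bezout equation has no solution there is a character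
killing the data. (assume A1 as hypothesis `hA1`) -/
theorem A2
    (hA1 : ∀ (n : ℕ) (F : ℕ → (Fin n → ℂ) → ℂ) (f : (Fin n → ℂ) → ℂ),
      (∀ k, DifferentiableOn ℂ (F k) (Ball n)) →
      TendstoUniformlyOn F f atTop (Ball n) → DifferentiableOn ℂ f (Ball n))
    (n : ℕ) (K : ℕ) (F : Fin K → (Fin n → ℂ) → ℂ) (hF : ∀ k, IsBH n (F k))
    (hno : ¬ ∃ h : Fin K → (Fin n → ℂ) → ℂ, (∀ k, IsBH n (h k)) ∧
      ∀ z ∈ Ball n, ∑ k, F k z * h k z = 1) :
    ∃ m : ((Fin n → ℂ) → ℂ) → ℂ,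
      (∀ f g, IsBH n f → IsBH n g → m (fun z => f z + g z) = m f + m g) ∧
      (∀ f g, IsBH n f → IsBH n g → m (fun z => f z * g z) = m f * m g) ∧
      (∀ c : ℂ, m (fun _ => c) = c) ∧
      (∀ f g, IsBH n f → IsBH n g → (∀ z ∈ Ball n, f z = g z) → m f = m g) ∧
      (∀ f, IsBH n f → ∀ C : ℝ, (∀ z ∈ Ball n, ‖f z‖ ≤ C) → ‖m f‖ ≤ C) ∧
      ∀ k, m (F k) = 0 := by
  classical
  have hcl : CompleteSpace (A2_alg n) := (A2_closed hA1 n).completeSpace_coe
  let a : Fin K → A2_alg n := fun k => ⟨A2_mk (F k) (hF k), A2_mk_mem _ _⟩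
  have hI : Ideal.span (Set.range a) ≠ ⊤ := by
    intro htop
    apply hno
    have h1 : (1 : A2_alg n) ∈ Ideal.span (Set.range a) := htop ▸ Submodule.mem_top
    obtain ⟨c, hc⟩ := Ideal.mem_span_range_iff_exists_fun.mp h1
    choose f hf hfc using fun k => ((c k).2 : ∃ f : (Fin n → ℂ) → ℂ,
      DifferentiableOn ℂ f (Ball n) ∧ ∀ z : Ball n, (c k).1 z = f z)
    refine ⟨f, fun k => ⟨hf k, ‖(c k).1‖, fun z hz => ?_⟩, fun z hz => ?_⟩
    · rw [← hfc k ⟨z, hz⟩]
      exact BoundedContinuousFunction.norm_coe_le_norm _ _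
    · have h2 : ((∑ i, c i * a i : A2_alg n)).1 ⟨z, hz⟩ = (1 : A2_alg n).1 ⟨z, hz⟩ :=
        congrArg (fun u : A2_alg n => u.1 ⟨z, hz⟩) hc
      have h3 : ((∑ i, c i * a i : A2_alg n)).1 ⟨z, hz⟩ = ∑ i, (c i).1 ⟨z, hz⟩ * (a i).1 ⟨z, hz⟩ := by
        have h4 : ((∑ i, c i * a i : A2_alg n)).1 = ∑ i, (c i).1 * (a i).1 := by
          simp
        rw [h4]
        simp
      rw [h3] at h2
      have h5 : (1 : A2_alg n).1 ⟨z, hz⟩ = 1 := rfl
      rw [h5] at h2
      rw [← h2]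
      refine Finset.sum_congr rfl fun i _ => ?_
      rw [mul_comm, hfc i ⟨z, hz⟩]
      rfl
  obtain ⟨M, hM, hIM⟩ := Ideal.exists_le_maximal _ hI
  have := hM
  let φ : WeakDual.characterSpace ℂ (A2_alg n) := M.toCharacterSpace
  have hφ : ∀ x ∈ M, φ x = 0 := fun x hx =>
    M.toCharacterSpace_apply_eq_zero_of_mem hx
  let el : ∀ f, IsBH n f → A2_alg n := fun f h => ⟨A2_mk f h, A2_mk_mem f h⟩
  let m : ((Fin n → ℂ) → ℂ) → ℂ := fun f => if h : IsBH n f then φ (el f h) else 0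
  have hm : ∀ f (h : IsBH n f), m f = φ (el f h) := fun f h => dif_pos h
  have hadd : ∀ f g, IsBH n f → IsBH n g → IsBH n (fun z => f z + g z) := by
    rintro f g ⟨hf, Cf, hCf⟩ ⟨hg, Cg, hCg⟩
    exact ⟨hf.add hg, Cf + Cg, fun z hz => (norm_add_le _ _).trans
      (add_le_add (hCf z hz) (hCg z hz))⟩
  have hmul : ∀ f g, IsBH n f → IsBH n g → IsBH n (fun z => f z * g z) := by
    rintro f g ⟨hf, Cf, hCf⟩ ⟨hg, Cg, hCg⟩
    refine ⟨hf.mul hg, Cf * Cg, fun z hz => ?_⟩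
    rw [norm_mul]
    exact mul_le_mul (hCf z hz) (hCg z hz) (norm_nonneg _) ((norm_nonneg _).trans (hCf z hz))
  have hconst : ∀ c : ℂ, IsBH n (fun _ => c) := fun c =>
    ⟨differentiableOn_const c, ‖c‖, fun _ _ => le_rfl⟩
  refine ⟨m, ?_, ?_, ?_, ?_, ?_, ?_⟩
  · intro f g hf hg
    rw [hm _ (hadd f g hf hg), hm f hf, hm g hg, ← map_add]
    congr 1
  · intro f g hf hg
    rw [hm _ (hmul f g hf hg), hm f hf, hm g hg, ← map_mul]
    congr 1
  · intro c
    rw [hm _ (hconst c)]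
    have h1 : el (fun _ => c) (hconst c) = algebraMap ℂ (A2_alg n) c := by
      apply Subtype.ext
      ext z
      show c = _
      simp [Algebra.algebraMap_eq_smul_one]
    rw [h1]
    exact AlgHomClass.commutes φ c
  · intro f g hf hg hfg
    rw [hm f hf, hm g hg]
    congr 1
    apply Subtype.ext
    ext z
    exact hfg z z.2
  · intro f hf C hC
    rw [hm f hf]
    have h0 : 0 ≤ C := (norm_nonneg _).trans (hC 0 (A2_zero_mem n))
    have h1 := spectrum.norm_le_norm_mul_of_mem (AlgHom.apply_mem_spectrum φ (el f hf))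
    have h2 : ‖el f hf‖ ≤ C := by
      show ‖A2_mk f hf‖ ≤ C
      rw [BoundedContinuousFunction.norm_le h0]
      exact fun z => hC z z.2
    have h3 : ‖(1 : A2_alg n)‖ ≤ 1 := by
      show ‖(1 : BoundedContinuousFunction (Ball n) ℂ)‖ ≤ 1
      rw [BoundedContinuousFunction.norm_le zero_le_one]
      intro z
      simp
    calc ‖φ (el f hf)‖ ≤ ‖el f hf‖ * ‖(1 : A2_alg n)‖ := h1
      _ ≤ C * 1 := mul_le_mul h2 h3 (norm_nonneg _) h0
      _ = C := mul_one C
  · intro k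
    rw [hm (F k) (hF k)]
    exact hφ _ (hIM (Ideal.subset_span ⟨k, rfl⟩))

end Pool.Agent.H790R4
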