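import Mathlib
import Pool.Agent.H790R4.Defs
set_option autoImplicit false

open Metric Set Filter Topology

namespace Pool.Agent.H790R4

theorem B1_open (n : ℕ) : IsOpen (Ball n) := by
  unfold Ball
  apply isOpen_lt _ continuous_const
  fun_prop

theorem B1_sum (n : ℕ) (w v : Fin n → ℂ) (ζ : ℂ) (hvw : ip v w = 0) :
    ∑ i, ‖(w + ζ • v) i‖ ^ 2 = ∑ i, ‖w i‖ ^ 2 + ‖ζ‖ ^ 2 * ∑ i, ‖v i‖ ^ 2 := by
  have h1 : ∀ i, ‖(w + ζ • v) i‖ ^ 2 = ‖w i‖ ^ 2 + ‖ζ‖ ^ 2 * ‖v i‖ ^ 2 +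
      2 * (ζ * (v i * (starRingEnd ℂ) (w i))).re := by
    intro i
    have e : (w + ζ • v) i = ζ * v i + w i := by
      simp only [Pi.add_apply, Pi.smul_apply, smul_eq_mul]
      ring
    rw [e, ← Complex.normSq_eq_norm_sq, Complex.normSq_add, Complex.normSq_mul,
      Complex.normSq_eq_norm_sq, Complex.normSq_eq_norm_sq, Complex.normSq_eq_norm_sq, mul_assoc]
    ring
  rw [Finset.sum_congr rfl (fun i _ => h1 i), Finset.sum_add_distrib, Finset.sum_add_distrib,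
    ← Finset.mul_sum, ← Finset.mul_sum, ← Complex.re_sum, ← Finset.mul_sum]
  unfold ip at hvw
  rw [hvw, mul_zero, Complex.zero_re, mul_zero, add_zero]

/-- B1: derivative bound: at a point `w` of the ball, in a direction `v` orthogonal to `w`. -/
theorem B1 (n : ℕ) (f : (Fin n → ℂ) → ℂ) (hf : DifferentiableOn ℂ f (Ball n)) (M : ℝ)
    (hM : ∀ z ∈ Ball n, ‖f z‖ ≤ M) (w : Fin n → ℂ) (hw : w ∈ Ball n) (v : Fin n → ℂ)
    (hv : ∑ i, ‖v i‖ ^ 2 ≤ 1) (hvw : ip v w = 0) :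
    ‖fderiv ℂ f w v‖ ≤ M / Real.sqrt (1 - ∑ i, ‖w i‖ ^ 2) := by
  have hw' : ∑ i, ‖w i‖ ^ 2 < 1 := hw
  set ρ : ℝ := Real.sqrt (1 - ∑ i, ‖w i‖ ^ 2) with hρ
  have hρ0 : 0 < ρ := Real.sqrt_pos.2 (by linarith)
  have hρ2 : ρ ^ 2 = 1 - ∑ i, ‖w i‖ ^ 2 := Real.sq_sqrt (by linarith)
  have hmem : ∀ ζ ∈ ball (0 : ℂ) ρ, w + ζ • v ∈ Ball n := by
    intro ζ hζ
    rw [mem_ball_zero_iff] at hζ
    show ∑ i, ‖(w + ζ • v) i‖ ^ 2 < 1
    rw [B1_sum n w v ζ hvw]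
    have h1 : ‖ζ‖ ^ 2 < ρ ^ 2 := pow_lt_pow_left₀ hζ (norm_nonneg ζ) two_ne_zero
    have h2 : ‖ζ‖ ^ 2 * ∑ i, ‖v i‖ ^ 2 ≤ ‖ζ‖ ^ 2 * 1 :=
      mul_le_mul_of_nonneg_left hv (sq_nonneg _)
    linarith
  have hlin : Differentiable ℂ (fun ζ : ℂ => w + ζ • v) := by fun_prop
  have hg : DifferentiableOn ℂ (fun ζ : ℂ => f (w + ζ • v)) (ball 0 ρ) :=
    hf.comp hlin.differentiableOn hmem
  have hd : deriv (fun ζ : ℂ => f (w + ζ • v)) 0 = fderiv ℂ f w v := by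
    have h1 : HasFDerivAt f (fderiv ℂ f w) (w + (0 : ℂ) • v) := by
      rw [zero_smul, add_zero]
      exact (hf.differentiableAt ((B1_open n).mem_nhds hw)).hasFDerivAt
    have h2 : HasDerivAt (fun ζ : ℂ => w + ζ • v) v 0 := by
      have h3 := ((hasDerivAt_id (0 : ℂ)).smul_const v).const_add w
      simpa using h3
    have h4 := h1.comp_hasDerivAt (0 : ℂ) h2
    exact h4.deriv
  rw [← hd, le_div_iff₀ hρ0]
  have ht : Tendsto (fun r : ℝ => ‖deriv (fun ζ : ℂ => f (w + ζ • v)) 0‖ * r) (𝓝[<] ρ)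
      (𝓝 (‖deriv (fun ζ : ℂ => f (w + ζ • v)) 0‖ * ρ)) :=
    ((continuous_const.mul continuous_id).tendsto ρ).mono_left nhdsWithin_le_nhds
  refine le_of_tendsto ht ?_
  filter_upwards [Ioo_mem_nhdsLT hρ0] with r hr
  have hsub : closedBall (0 : ℂ) r ⊆ ball 0 ρ := closedBall_subset_ball hr.2
  have h5 := Complex.norm_deriv_le_of_forall_mem_sphere_norm_le hr.1
    (hg.diffContOnCl_ball hsub)
    (fun z hz => hM _ (hmem z (hsub (sphere_subset_closedBall hz))))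
  rwa [le_div_iff₀ hr.1] at h5

end Pool.Agent.H790R4
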