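import Mathlib
import Pool.Agent.H790R4.Defs
set_option autoImplicit false

open Metric Set Filter Topology

namespace Pool.Agent.H790R4

theorem B2_open (n : ℕ) : IsOpen (Ball n) := by
  unfold Ball
  exact isOpen_lt (by fun_prop) continuous_const

theorem B2_smul (n : ℕ) (c : ℂ) (z : Fin n → ℂ) :
    ∑ i, ‖(c • z) i‖ ^ 2 = ‖c‖ ^ 2 * ∑ i, ‖z i‖ ^ 2 := by
  rw [Finset.mul_sum]
  refine Finset.sum_congr rfl fun i _ => ?_
  rw [Pi.smul_apply, smul_eq_mul, norm_mul, mul_pow]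

theorem B2_single (n : ℕ) (i : Fin n) (c : ℂ) :
    ∑ j, ‖(c • (Pi.single i 1 : Fin n → ℂ)) j‖ ^ 2 = ‖c‖ ^ 2 := by
  rw [B2_smul, Finset.sum_eq_single i]
  · simp
  · intro j _ hj
    simp [Pi.single_eq_of_ne hj]
  · intro h
    exact absurd (Finset.mem_univ i) h

theorem B2_par (n : ℕ) (z w : Fin n → ℂ) :
    ∑ i, ‖(z + w) i‖ ^ 2 ≤ 2 * ∑ i, ‖z i‖ ^ 2 + 2 * ∑ i, ‖w i‖ ^ 2 := by
  rw [Finset.mul_sum, Finset.mul_sum, ← Finset.sum_add_distrib]
  refine Finset.sum_le_sum fun i _ => ?_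
  rw [Pi.add_apply]
  have h1 := norm_add_le (z i) (w i)
  have h2 : ‖z i + w i‖ ^ 2 ≤ (‖z i‖ + ‖w i‖) ^ 2 := pow_le_pow_left₀ (norm_nonneg _) h1 2
  nlinarith [sq_nonneg (‖z i‖ - ‖w i‖)]

/-- the Cauchy estimate near the origin -/
theorem B2_cauchy (n : ℕ) (f : (Fin n → ℂ) → ℂ) (hf : DifferentiableOn ℂ f (Ball n)) (M : ℝ)
    (hM : ∀ z ∈ Ball n, ‖f z‖ ≤ M) (w : Fin n → ℂ) (hw : ∑ i, ‖w i‖ ^ 2 ≤ 1 / 4) (i : Fin n) :
    ‖fderiv ℂ f w (Pi.single i 1)‖ ≤ 4 * M := by
  have hmem : ∀ ζ ∈ closedBall (0 : ℂ) (1 / 4), w + ζ • (Pi.single i 1 : Fin n → ℂ) ∈ Ball n := by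
    intro ζ hζ
    have h1 := B2_par n w (ζ • (Pi.single i 1 : Fin n → ℂ))
    rw [B2_single] at h1
    have h2 : ‖ζ‖ ≤ 1 / 4 := by simpa using hζ
    have h3 : ‖ζ‖ ^ 2 ≤ (1 / 4) ^ 2 := pow_le_pow_left₀ (norm_nonneg _) h2 2
    show ∑ j, ‖(w + ζ • (Pi.single i 1 : Fin n → ℂ)) j‖ ^ 2 < 1
    norm_num at h3
    linarith
  have hd : ∀ ζ ∈ closedBall (0 : ℂ) (1 / 4),
      HasDerivAt (fun ζ : ℂ => f (w + ζ • (Pi.single i 1 : Fin n → ℂ)))
        (fderiv ℂ f (w + ζ • (Pi.single i 1 : Fin n → ℂ)) (Pi.single i 1)) ζ := by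
    intro ζ hζ
    have h1 := (hf.differentiableAt ((B2_open n).mem_nhds (hmem ζ hζ))).hasFDerivAt
    have h2 : HasDerivAt (fun ζ : ℂ => w + ζ • (Pi.single i 1 : Fin n → ℂ))
        (Pi.single i 1 : Fin n → ℂ) ζ := by
      have := ((hasDerivAt_id ζ).smul_const (Pi.single i 1 : Fin n → ℂ)).const_add w
      simpa using this
    exact h1.comp_hasDerivAt ζ h2
  have hdc : DiffContOnCl ℂ (fun ζ : ℂ => f (w + ζ • (Pi.single i 1 : Fin n → ℂ)))
      (ball 0 (1 / 4)) := by
    apply DifferentiableOn.diffContOnCl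
    rw [closure_ball _ (by norm_num)]
    intro ζ hζ
    exact (hd ζ hζ).differentiableAt.differentiableWithinAt
  have h3 := Complex.norm_deriv_le_of_forall_mem_sphere_norm_le (R := 1 / 4) (by norm_num) hdc
    (C := M) (fun ζ hζ => hM _ (hmem ζ (sphere_subset_closedBall hζ)))
  rw [(hd 0 (by simp)).deriv] at h3
  simp only [zero_smul, add_zero] at h3
  refine h3.trans (le_of_eq ?_)
  ring

/-- the radial part -/
theorem B2_rad (n : ℕ) (f : (Fin n → ℂ) → ℂ) (hf : DifferentiableOn ℂ f (Ball n))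
    (z : Fin n → ℂ) (hz : z ∈ Ball n) :
    IntervalIntegrable (fun t : ℝ => fderiv ℂ f ((t : ℂ) • z) z) MeasureTheory.volume 0 1 ∧
    ∫ t in (0:ℝ)..1, fderiv ℂ f ((t : ℂ) • z) z = f z - f 0 := by
  have hz' : ∑ i, ‖z i‖ ^ 2 < 1 := hz
  obtain ⟨D, hD⟩ : ∃ D : Set ℂ, D = {ζ | ζ • z ∈ Ball n} := ⟨_, rfl⟩
  have hDo : IsOpen D := by
    rw [hD]
    exact (B2_open n).preimage (by fun_prop)
  have hI : ∀ t : ℝ, t ∈ Icc (0 : ℝ) 1 → (t : ℂ) ∈ D := by
    intro t ht
    rw [hD]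
    show ∑ i, ‖((t : ℂ) • z) i‖ ^ 2 < 1
    rw [B2_smul, Complex.norm_real, Real.norm_eq_abs, sq_abs]
    have h1 : t ^ 2 ≤ 1 := by nlinarith [ht.1, ht.2]
    have h2 : 0 ≤ ∑ i, ‖z i‖ ^ 2 := Finset.sum_nonneg fun i _ => by positivity
    nlinarith
  have hd : ∀ ζ ∈ D, HasDerivAt (fun ζ : ℂ => f (ζ • z)) (fderiv ℂ f (ζ • z) z) ζ := by
    intro ζ hζ
    rw [hD] at hζ
    have h1 := (hf.differentiableAt ((B2_open n).mem_nhds hζ)).hasFDerivAt
    have h2 : HasDerivAt (fun ζ : ℂ => ζ • z) z ζ := by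
      have := (hasDerivAt_id ζ).smul_const z
      simpa using this
    exact h1.comp_hasDerivAt ζ h2
  have hdo : DifferentiableOn ℂ (fun ζ : ℂ => f (ζ • z)) D := fun ζ hζ =>
    (hd ζ hζ).differentiableAt.differentiableWithinAt
  have hc : ContinuousOn (deriv (fun ζ : ℂ => f (ζ • z))) D := (hdo.deriv hDo).continuousOn
  have hc2 : ContinuousOn (fun t : ℝ => fderiv ℂ f ((t : ℂ) • z) z) (Icc 0 1) := by
    have h1 : ContinuousOn (fun t : ℝ => deriv (fun ζ : ℂ => f (ζ • z)) (t : ℂ)) (Icc 0 1) :=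
      hc.comp Complex.continuous_ofReal.continuousOn hI
    refine h1.congr fun t ht => ?_
    exact ((hd _ (hI t ht)).deriv).symm
  have hint : IntervalIntegrable (fun t : ℝ => fderiv ℂ f ((t : ℂ) • z) z)
      MeasureTheory.volume 0 1 := by
    apply ContinuousOn.intervalIntegrable
    rwa [uIcc_of_le (zero_le_one)]
  refine ⟨hint, ?_⟩
  have h3 := intervalIntegral.integral_eq_sub_of_hasDerivAt
    (f := fun t : ℝ => f ((t : ℂ) • z)) (f' := fun t : ℝ => fderiv ℂ f ((t : ℂ) • z) z)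
    (a := 0) (b := 1) (fun t ht => by
      rw [uIcc_of_le (zero_le_one)] at ht
      exact (hd _ (hI t ht)).comp_ofReal) hint
  rw [h3]
  simp

/-- the singular integral -/
theorem B2_sing (N M : ℝ) (hN0 : 1 / 4 ≤ N) (hN1 : N < 1) (hM : 0 ≤ M) :
    IntervalIntegrable (fun t : ℝ => M / Real.sqrt (1 - t * N)) MeasureTheory.volume 0 1 ∧
    ∫ t in (0:ℝ)..1, M / Real.sqrt (1 - t * N) ≤ 8 * M := by
  have hpos : ∀ t ∈ Icc (0 : ℝ) 1, 0 < 1 - t * N := by
    intro t ht
    nlinarith [ht.1, ht.2]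
  have hint : IntervalIntegrable (fun t : ℝ => M / Real.sqrt (1 - t * N))
      MeasureTheory.volume 0 1 := by
    apply ContinuousOn.intervalIntegrable
    rw [uIcc_of_le (zero_le_one)]
    refine continuousOn_const.div (by fun_prop) fun t ht => ?_
    exact (Real.sqrt_pos.2 (hpos t ht)).ne'
  refine ⟨hint, ?_⟩
  have hNpos : 0 < N := by linarith
  have h3 := intervalIntegral.integral_eq_sub_of_hasDerivAt
    (f := fun t : ℝ => -(2 * M / N) * Real.sqrt (1 - t * N))
    (f' := fun t : ℝ => M / Real.sqrt (1 - t * N))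
    (a := 0) (b := 1) (fun t ht => by
      rw [uIcc_of_le (zero_le_one)] at ht
      have h1 : HasDerivAt (fun t : ℝ => 1 - t * N) (-N) t := by
        have := ((hasDerivAt_id t).mul_const N).const_sub 1
        simpa using this
      have h2 := (h1.sqrt (hpos t ht).ne').const_mul (-(2 * M / N))
      have h4 : 0 < Real.sqrt (1 - t * N) := Real.sqrt_pos.2 (hpos t ht)
      have e : -(2 * M / N) * (-N / (2 * Real.sqrt (1 - t * N))) = M / Real.sqrt (1 - t * N) := by
        field_simp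
      rw [e] at h2
      exact h2) hint
  rw [h3]
  have h5 : 0 ≤ Real.sqrt (1 - 1 * N) := Real.sqrt_nonneg _
  have h6 : Real.sqrt (1 - 0 * N) = 1 := by simp
  rw [h6]
  have h7 : 2 * M / N ≤ 8 * M := by
    rw [div_le_iff₀ hNpos]
    nlinarith
  have h8 : 0 ≤ 2 * M / N := by positivity
  nlinarith

/-- B2: Leibenzon's solution is bounded. (use B1) -/
theorem B2
    (hB1 : ∀ (n : ℕ) (f : (Fin n → ℂ) → ℂ) (_ : DifferentiableOn ℂ f (Ball n)) (M : ℝ)
      (_ : ∀ z ∈ Ball n, ‖f z‖ ≤ M) (w : Fin n → ℂ) (_ : w ∈ Ball n) (v : Fin n → ℂ)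
      (_ : ∑ i, ‖v i‖ ^ 2 ≤ 1) (_ : ip v w = 0),
      ‖fderiv ℂ f w v‖ ≤ M / Real.sqrt (1 - ∑ i, ‖w i‖ ^ 2))
    (n : ℕ) (f : (Fin n → ℂ) → ℂ) (hf : DifferentiableOn ℂ f (Ball n)) (M : ℝ)
    (hM : ∀ z ∈ Ball n, ‖f z‖ ≤ M) :
    ∃ C : ℝ, ∀ i : Fin n, ∀ z ∈ Ball n,
      ‖∫ t in (0:ℝ)..1, fderiv ℂ f ((t : ℂ) • z) (Pi.single i 1)‖ ≤ C := by
  have h0 : (0 : Fin n → ℂ) ∈ Ball n := by
    show ∑ i, ‖(0 : Fin n → ℂ) i‖ ^ 2 < 1
    simp
  have hM0 : 0 ≤ M := (norm_nonneg _).trans (hM 0 h0)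
  refine ⟨12 * M, fun i z hz => ?_⟩
  obtain ⟨N, hN⟩ : ∃ N, N = ∑ i, ‖z i‖ ^ 2 := ⟨_, rfl⟩
  have hN1 : N < 1 := by rw [hN]; exact hz
  have hN0 : 0 ≤ N := by
    rw [hN]
    exact Finset.sum_nonneg fun i _ => by positivity
  by_cases hcase : N < 1 / 4
  · have h1 := intervalIntegral.norm_integral_le_of_norm_le_const (a := 0) (b := 1) (C := 4 * M)
      (f := fun t : ℝ => fderiv ℂ f ((t : ℂ) • z) (Pi.single i 1)) (fun t ht => by
        rw [uIoc_of_le (zero_le_one)] at ht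
        refine B2_cauchy n f hf M hM _ ?_ i
        rw [B2_smul, Complex.norm_real, Real.norm_eq_abs, sq_abs, ← hN]
        have h1 : t ^ 2 ≤ 1 := by nlinarith [ht.1, ht.2]
        nlinarith)
    refine h1.trans ?_
    norm_num
    linarith
  · rw [not_lt] at hcase
    have hNpos : 0 < N := by linarith
    have hNc : (N : ℂ) ≠ 0 := by exact_mod_cast hNpos.ne'
    obtain ⟨a, ha⟩ : ∃ a : ℂ, a = (starRingEnd ℂ) (z i) / (N : ℂ) := ⟨_, rfl⟩
    obtain ⟨v, hv⟩ : ∃ v : Fin n → ℂ, v = Pi.single i 1 - a • z := ⟨_, rfl⟩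
    have hzi : ‖z i‖ ^ 2 ≤ N := by
      rw [hN]
      exact Finset.single_le_sum (f := fun i => ‖z i‖ ^ 2) (fun j _ => by positivity)
        (Finset.mem_univ i)
    have hsum : ∑ j, z j * (starRingEnd ℂ) (z j) = (N : ℂ) := by
      rw [hN]
      push_cast
      refine Finset.sum_congr rfl fun j _ => ?_
      rw [Complex.mul_conj, Complex.normSq_eq_norm_sq]
      push_cast
      rfl
    have hip : ip v z = 0 := by
      unfold ip
      rw [hv]
      simp only [Pi.sub_apply, Pi.smul_apply, smul_eq_mul, sub_mul, Finset.sum_sub_distrib]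
      have e1 : ∑ j, (Pi.single i 1 : Fin n → ℂ) j * (starRingEnd ℂ) (z j) =
          (starRingEnd ℂ) (z i) := by
        rw [Finset.sum_eq_single i]
        · simp
        · intro j _ hj
          simp [Pi.single_eq_of_ne hj]
        · intro h
          exact absurd (Finset.mem_univ i) h
      have e2 : ∑ j, a * z j * (starRingEnd ℂ) (z j) = a * (N : ℂ) := by
        rw [← hsum, Finset.mul_sum]
        refine Finset.sum_congr rfl fun j _ => ?_
        ring
      rw [e1, e2, ha]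
      field_simp
      ring
    have hvN : ∑ j, ‖v j‖ ^ 2 ≤ 1 := by
      have e1 : ((∑ j, ‖v j‖ ^ 2 : ℝ) : ℂ) = ip v v := by
        unfold ip
        push_cast
        refine Finset.sum_congr rfl fun j _ => ?_
        rw [Complex.mul_conj, Complex.normSq_eq_norm_sq]
        push_cast
        rfl
      have e2 : ip v v = (starRingEnd ℂ) (v i) := by
        have e3 : ip v v = ip (Pi.single i 1) v - a * (starRingEnd ℂ) (ip v z) := by
          unfold ip
          rw [map_sum, Finset.mul_sum, ← Finset.sum_sub_distrib]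
          refine Finset.sum_congr rfl fun j _ => ?_
          rw [map_mul, Complex.conj_conj]
          nth_rewrite 1 [hv]
          simp only [Pi.sub_apply, Pi.smul_apply, smul_eq_mul]
          ring
        rw [e3, hip, map_zero, mul_zero, sub_zero]
        unfold ip
        rw [Finset.sum_eq_single i]
        · simp
        · intro j _ hj
          simp [Pi.single_eq_of_ne hj]
        · intro h
          exact absurd (Finset.mem_univ i) h
      have e4 : (starRingEnd ℂ) (v i) = ((1 - ‖z i‖ ^ 2 / N : ℝ) : ℂ) := by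
        rw [hv]
        simp only [Pi.sub_apply, Pi.smul_apply, smul_eq_mul, Pi.single_eq_same, map_sub, map_one,
          map_mul]
        rw [ha, map_div₀, Complex.conj_conj, Complex.conj_ofReal]
        push_cast
        have e5 : (‖z i‖ : ℂ) ^ 2 = z i * (starRingEnd ℂ) (z i) := by
          rw [Complex.mul_conj, Complex.normSq_eq_norm_sq]
          push_cast
          rfl
        rw [e5]
        ring
      rw [e2, e4] at e1
      have e6 : ∑ j, ‖v j‖ ^ 2 = 1 - ‖z i‖ ^ 2 / N := by exact_mod_cast e1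
      rw [e6]
      have : 0 ≤ ‖z i‖ ^ 2 / N := by positivity
      linarith
    have haN : ‖a‖ ≤ 2 := by
      have e1 : ‖a‖ = ‖z i‖ / N := by
        rw [ha, norm_div, Complex.norm_real, Real.norm_of_nonneg hNpos.le]
        simp
      rw [e1, div_le_iff₀ hNpos]
      have e2 : ‖z i‖ ^ 2 ≤ (2 * N) ^ 2 := by nlinarith
      exact le_of_sq_le_sq e2 (by positivity)
    by_cases hint : IntervalIntegrable
        (fun t : ℝ => fderiv ℂ f ((t : ℂ) • z) (Pi.single i 1)) MeasureTheory.volume 0 1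
    · obtain ⟨hr1, hr2⟩ := B2_rad n f hf z hz
      obtain ⟨hs1, hs2⟩ := B2_sing N M hcase hN1 hM0
      have hsplit : ∀ t : ℝ, fderiv ℂ f ((t : ℂ) • z) (Pi.single i 1) -
          a * fderiv ℂ f ((t : ℂ) • z) z = fderiv ℂ f ((t : ℂ) • z) v := by
        intro t
        rw [hv, map_sub, map_smul, smul_eq_mul]
      have hI : ∫ t in (0:ℝ)..1, fderiv ℂ f ((t : ℂ) • z) v =
          (∫ t in (0:ℝ)..1, fderiv ℂ f ((t : ℂ) • z) (Pi.single i 1)) - a * (f z - f 0) := by
        rw [← hr2, ← intervalIntegral.integral_const_mul,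
          ← intervalIntegral.integral_sub hint (hr1.const_mul a)]
        refine intervalIntegral.integral_congr fun t _ => ?_
        exact (hsplit t).symm
      have hb : ‖∫ t in (0:ℝ)..1, fderiv ℂ f ((t : ℂ) • z) v‖ ≤ 8 * M := by
        refine (intervalIntegral.norm_integral_le_of_norm_le (zero_le_one)
          (Filter.Eventually.of_forall fun t ht => ?_) hs1).trans hs2
        have ht2 : t ^ 2 ≤ t := by nlinarith [ht.1, ht.2]
        have hNt : ∑ j, ‖((t : ℂ) • z) j‖ ^ 2 = t ^ 2 * N := by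
          rw [B2_smul, Complex.norm_real, Real.norm_eq_abs, sq_abs, ← hN]
        have hlt : t ^ 2 * N ≤ t * N := mul_le_mul_of_nonneg_right ht2 hN0
        have htN : t * N < 1 := by nlinarith [ht.1, ht.2]
        have hw : (t : ℂ) • z ∈ Ball n := by
          show ∑ j, ‖((t : ℂ) • z) j‖ ^ 2 < 1
          rw [hNt]
          linarith
        have hipw : ip v ((t : ℂ) • z) = 0 := by
          have e : ip v ((t : ℂ) • z) = (t : ℂ) * ip v z := by
            unfold ip
            rw [Finset.mul_sum]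
            refine Finset.sum_congr rfl fun j _ => ?_
            rw [Pi.smul_apply, smul_eq_mul, map_mul, Complex.conj_ofReal]
            ring
          rw [e, hip, mul_zero]
        have h1 := hB1 n f hf M hM _ hw v hvN hipw
        rw [hNt] at h1
        refine h1.trans ?_
        refine div_le_div_of_nonneg_left hM0 (Real.sqrt_pos.2 (by linarith)) ?_
        exact Real.sqrt_le_sqrt (by linarith)
      have hrad : ‖a * (f z - f 0)‖ ≤ 4 * M := by
        rw [norm_mul]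
        have h1 : ‖f z - f 0‖ ≤ 2 * M := by
          have := norm_sub_le (f z) (f 0)
          linarith [hM z hz, hM 0 h0]
        calc ‖a‖ * ‖f z - f 0‖ ≤ 2 * (2 * M) :=
              mul_le_mul haN h1 (norm_nonneg _) (by norm_num)
          _ = 4 * M := by ring
      have hfin : ∫ t in (0:ℝ)..1, fderiv ℂ f ((t : ℂ) • z) (Pi.single i 1) =
          (∫ t in (0:ℝ)..1, fderiv ℂ f ((t : ℂ) • z) v) + a * (f z - f 0) := by
        rw [hI]
        ring
      rw [hfin]
      refine (norm_add_le _ _).trans ?_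
      linarith
    · rw [intervalIntegral.integral_undef hint, norm_zero]
      positivity

end Pool.Agent.H790R4
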