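import Mathlib
import Pool.Agent.H790R4.Defs
import Pool.Agent.Helper853.Bk.Scv

set_option autoImplicit false

/-! Task B3 (helper338) of h790v_tasks: holomorphy of the Leibenzon integral. -/

open Metric Set Filter Topology

namespace Pool.Agent.H790R4

theorem B3_open (n : ℕ) : IsOpen (Ball n) := by
  unfold Ball
  exact isOpen_lt (by fun_prop) continuous_const

theorem B3_star (n : ℕ) (z : Fin n → ℂ) (hz : z ∈ Ball n) (t : ℝ) (h0 : 0 ≤ t) (h1 : t ≤ 1) :
    (t : ℂ) • z ∈ Ball n := by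
  unfold Ball at hz ⊢
  rw [Set.mem_ofPred_eq] at hz ⊢
  refine lt_of_le_of_lt (Finset.sum_le_sum fun i _ => ?_) hz
  rw [Pi.smul_apply, smul_eq_mul, norm_mul, Complex.norm_real, Real.norm_of_nonneg h0]
  have : t * ‖z i‖ ≤ 1 * ‖z i‖ := mul_le_mul_of_nonneg_right h1 (norm_nonneg _)
  rw [one_mul] at this
  exact pow_le_pow_left₀ (mul_nonneg h0 (norm_nonneg _)) this 2

/-- B3: Leibenzon's solution is holomorphic. -/
theorem B3 (n : ℕ) (f : (Fin n → ℂ) → ℂ) (hf : DifferentiableOn ℂ f (Ball n)) (i : Fin n) :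
    DifferentiableOn ℂ (fun z => ∫ t in (0:ℝ)..1, fderiv ℂ f ((t : ℂ) • z) (Pi.single i 1))
      (Ball n) := by
  have hO := B3_open n
  obtain ⟨g, hg⟩ : ∃ g : (Fin n → ℂ) → ℂ, g = fun z => fderiv ℂ f z (Pi.single i 1) := ⟨_, rfl⟩
  have hgd : DifferentiableOn ℂ g (Ball n) := by
    rw [hg]
    exact Pool.Agent.Helper853.Bk.differentiableOn_fderiv_apply hO hf _
  have hgc := Pool.Agent.Helper853.Bk.contDiffOn_of_differentiableOn hO hgd
  have hg' : ContinuousOn (fderiv ℂ g) (Ball n) :=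
    hgc.continuousOn_fderiv_of_isOpen hO (by norm_cast)
  intro z0 hz0
  apply DifferentiableAt.differentiableWithinAt
  obtain ⟨ε, hε, hεb⟩ := Metric.isOpen_iff.1 hO z0 hz0
  have hcb : closedBall z0 (ε / 2) ⊆ Ball n :=
    (closedBall_subset_ball (by linarith)).trans hεb
  obtain ⟨K, hK⟩ : ∃ K : Set (Fin n → ℂ), K = (fun p : ℝ × (Fin n → ℂ) => (p.1 : ℂ) • p.2) ''
      (Set.Icc 0 1 ×ˢ closedBall z0 (ε / 2)) := ⟨_, rfl⟩
  have hKc : IsCompact K := by
    rw [hK]
    refine (isCompact_Icc.prod (isCompact_closedBall z0 (ε / 2))).image ?_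
    exact (Complex.continuous_ofReal.comp continuous_fst).smul continuous_snd
  have hKs : K ⊆ Ball n := by
    rw [hK]
    rintro _ ⟨⟨t, z⟩, ⟨ht, hz⟩, rfl⟩
    exact B3_star n z (hcb hz) t ht.1 ht.2
  obtain ⟨M, hM⟩ := hKc.exists_bound_of_continuousOn (hg'.mono hKs)
  have hmem : ∀ t ∈ Set.uIoc (0 : ℝ) 1, 0 ≤ t ∧ t ≤ 1 := by
    intro t ht
    rw [Set.uIoc_of_le zero_le_one] at ht
    exact ⟨ht.1.le, ht.2⟩
  have hcont : ∀ z ∈ Ball n, ContinuousOn (fun t : ℝ => g ((t : ℂ) • z)) (Set.Icc 0 1) := by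
    intro z hz
    refine hgd.continuousOn.comp ?_ ?_
    · exact (Complex.continuous_ofReal.smul continuous_const).continuousOn
    · intro t ht
      exact B3_star n z hz t ht.1 ht.2
  have hIoc : Set.uIoc (0 : ℝ) 1 ⊆ Set.Icc 0 1 := fun t ht => hmem t ht
  have key := intervalIntegral.hasFDerivAt_integral_of_dominated_of_fderiv_le (𝕜 := ℂ)
    (μ := MeasureTheory.volume) (a := (0 : ℝ)) (b := 1)
    (s := ball z0 (ε / 2)) (bound := fun _ => M)
    (F := fun z (t : ℝ) => g ((t : ℂ) • z)) (F' := fun z (t : ℝ) => (t : ℂ) • fderiv ℂ g ((t : ℂ) • z))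
    (x₀ := z0) (ball_mem_nhds z0 (by linarith)) ?_ ?_ ?_ ?_ ?_ ?_
  · have h2 := key.differentiableAt
    rw [hg] at h2
    exact h2
  · filter_upwards [hO.mem_nhds hz0] with z hz
    exact ((hcont z hz).mono hIoc).aestronglyMeasurable measurableSet_uIoc
  · apply ContinuousOn.intervalIntegrable
    rw [Set.uIcc_of_le zero_le_one]
    exact hcont z0 hz0
  · have h3 : ContinuousOn (fun t : ℝ => (t : ℂ) • fderiv ℂ g ((t : ℂ) • z0)) (Set.Icc 0 1) := by
      refine ContinuousOn.smul Complex.continuous_ofReal.continuousOn ?_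
      refine hg'.comp ?_ ?_
      · exact (Complex.continuous_ofReal.smul continuous_const).continuousOn
      · intro t ht
        exact B3_star n z0 hz0 t ht.1 ht.2
    exact (h3.mono hIoc).aestronglyMeasurable measurableSet_uIoc
  · refine Filter.Eventually.of_forall fun t ht z hz => ?_
    obtain ⟨h0, h1⟩ := hmem t ht
    have h4 : (t : ℂ) • z ∈ K := by
      rw [hK]
      exact ⟨(t, z), ⟨⟨h0, h1⟩, ball_subset_closedBall hz⟩, rfl⟩
    have h5 := hM _ h4
    have hM0 : 0 ≤ M := (norm_nonneg _).trans h5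
    rw [norm_smul, Complex.norm_real, Real.norm_of_nonneg h0]
    calc t * ‖fderiv ℂ g ((t : ℂ) • z)‖ ≤ 1 * M :=
          mul_le_mul h1 h5 (norm_nonneg _) zero_le_one
      _ = M := one_mul M
  · exact intervalIntegrable_const
  · refine Filter.Eventually.of_forall fun t ht z hz => ?_
    obtain ⟨h0, h1⟩ := hmem t ht
    have h4 : (t : ℂ) • z ∈ Ball n := B3_star n z (hcb (ball_subset_closedBall hz)) t h0 h1
    have h5 : HasFDerivAt g (fderiv ℂ g ((t : ℂ) • z)) ((t : ℂ) • z) :=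
      (hgd.differentiableAt (hO.mem_nhds h4)).hasFDerivAt
    have h6 : HasFDerivAt (fun z : Fin n → ℂ => (t : ℂ) • z)
        ((t : ℂ) • ContinuousLinearMap.id ℂ (Fin n → ℂ)) z := (hasFDerivAt_id z).const_smul (t : ℂ)
    have h7 := h5.comp z h6
    have h8 : (fderiv ℂ g ((t : ℂ) • z)).comp ((t : ℂ) • ContinuousLinearMap.id ℂ (Fin n → ℂ)) =
        (t : ℂ) • fderiv ℂ g ((t : ℂ) • z) := by
      ext v
      simp
    rw [h8] at h7
    exact h7

end Pool.Agent.H790R4
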