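import Mathlib
import Pool.Agent.H790R4.Defs
set_option autoImplicit false

open Metric Set Filter Topology

namespace Pool.Agent.H790R4

theorem B4_open (n : ℕ) : IsOpen (Ball n) := by
  have : Ball n = (fun z : Fin n → ℂ => ∑ i, ‖z i‖ ^ 2) ⁻¹' Iio 1 := rfl
  rw [this]
  apply IsOpen.preimage _ isOpen_Iio
  fun_prop

theorem B4_mem {n : ℕ} {z : Fin n → ℂ} (hz : z ∈ Ball n) {t : ℝ} (ht : t ∈ Icc (0 : ℝ) 1) :
    (t : ℂ) • z ∈ Ball n := by
  change ∑ i, ‖((t : ℂ) • z) i‖ ^ 2 < 1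
  have hz' : ∑ i, ‖z i‖ ^ 2 < 1 := hz
  refine lt_of_le_of_lt (Finset.sum_le_sum fun i _ => ?_) hz'
  rw [Pi.smul_apply, smul_eq_mul, norm_mul, Complex.norm_real, Real.norm_eq_abs,
    abs_of_nonneg ht.1]
  have h1 : t * ‖z i‖ ≤ ‖z i‖ := by
    have := mul_le_mul_of_nonneg_right ht.2 (norm_nonneg (z i))
    rwa [one_mul] at this
  exact pow_le_pow_left₀ (mul_nonneg ht.1 (norm_nonneg _)) h1 2

theorem B4_line {n : ℕ} {f : (Fin n → ℂ) → ℂ} {w e : Fin n → ℂ} {ζ : ℂ}
    (h : DifferentiableAt ℂ f (w + ζ • e)) :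
    HasDerivAt (fun x : ℂ => f (w + x • e)) (fderiv ℂ f (w + ζ • e) e) ζ := by
  have h1 : HasDerivAt (fun x : ℂ => w + x • e) e ζ := by
    have := ((hasDerivAt_id ζ).smul_const e).const_add w
    simpa using this
  exact h.hasFDerivAt.comp_hasDerivAt ζ h1

theorem B4_cont (n : ℕ) (f : (Fin n → ℂ) → ℂ) (hf : DifferentiableOn ℂ f (Ball n))
    (z : Fin n → ℂ) (hz : z ∈ Ball n) (i : Fin n) :
    ContinuousOn (fun t : ℝ => fderiv ℂ f ((t : ℂ) • z) (Pi.single i 1)) (Icc 0 1) := by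
  have hdiff : ∀ w ∈ Ball n, DifferentiableAt ℂ f w := fun w hw =>
    (hf w hw).differentiableAt ((B4_open n).mem_nhds hw)
  set e : Fin n → ℂ := Pi.single i 1 with he
  have hen : ‖e‖ ≤ 1 := by
    rw [pi_norm_le_iff_of_nonneg zero_le_one]
    intro k
    rw [he]
    by_cases hk : k = i
    · subst hk; simp
    · rw [Pi.single_eq_of_ne hk]; simp
  set K : Set (Fin n → ℂ) := (fun t : ℝ => (t : ℂ) • z) '' Icc (0 : ℝ) 1 with hK
  have hKc : IsCompact K := isCompact_Icc.image (by fun_prop)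
  have hKB : K ⊆ Ball n := by
    rintro _ ⟨t, ht, rfl⟩
    exact B4_mem hz ht
  obtain ⟨δ, hδ, hδK⟩ := hKc.exists_cthickening_subset_open (B4_open n) hKB
  have hK'c : IsCompact (cthickening δ K) := hKc.cthickening
  have huc : UniformContinuousOn f (cthickening δ K) :=
    hK'c.uniformContinuousOn_of_continuous (hf.continuousOn.mono hδK)
  have hmem : ∀ t ∈ Icc (0 : ℝ) 1, ∀ ζ ∈ closedBall (0 : ℂ) δ, (t : ℂ) • z + ζ • e ∈ cthickening δ K := by
    intro t ht ζ hζ
    apply closedBall_subset_cthickening (show (t : ℂ) • z ∈ K from ⟨t, ht, rfl⟩) δ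
    rw [mem_closedBall, dist_eq_norm, add_sub_cancel_left, norm_smul]
    rw [mem_closedBall, dist_zero_right] at hζ
    calc ‖ζ‖ * ‖e‖ ≤ δ * 1 := mul_le_mul hζ hen (norm_nonneg _) hδ.le
      _ = δ := mul_one δ
  rw [Metric.continuousOn_iff]
  intro s hs ε hε
  rw [Metric.uniformContinuousOn_iff] at huc
  obtain ⟨η, hη, hu⟩ := huc (ε * δ / 2) (by positivity)
  refine ⟨η / (‖z‖ + 1), by positivity, ?_⟩
  intro t ht hts
  have hdist : ∀ ζ : ℂ, dist ((t : ℂ) • z + ζ • e) ((s : ℂ) • z + ζ • e) < η := by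
    intro ζ
    rw [dist_add_right, dist_eq_norm, ← sub_smul, norm_smul, ← Complex.ofReal_sub,
      Complex.norm_real]
    rw [Real.dist_eq, lt_div_iff₀ (by positivity)] at hts
    refine lt_of_le_of_lt ?_ hts
    rw [Real.norm_eq_abs]
    exact mul_le_mul_of_nonneg_left (by linarith) (abs_nonneg _)
  have h1 : ∀ ζ ∈ closedBall (0 : ℂ) δ, ∀ r ∈ Icc (0 : ℝ) 1,
      HasDerivAt (fun x : ℂ => f ((r : ℂ) • z + x • e)) (fderiv ℂ f ((r : ℂ) • z + ζ • e) e) ζ := by
    intro ζ hζ r hr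
    exact B4_line (hdiff _ (hδK (hmem r hr ζ hζ)))
  have hg : DiffContOnCl ℂ (fun x : ℂ => f ((t : ℂ) • z + x • e) - f ((s : ℂ) • z + x • e))
      (ball 0 δ) := by
    apply DifferentiableOn.diffContOnCl
    intro ζ hζ
    have hζ' : ζ ∈ closedBall (0 : ℂ) δ := closure_ball_subset_closedBall hζ
    exact ((h1 ζ hζ' t ht).sub (h1 ζ hζ' s hs)).differentiableAt.differentiableWithinAt
  have h2 := Complex.norm_deriv_le_of_forall_mem_sphere_norm_le hδ hg (C := ε * δ / 2) (by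
    intro ζ hζ
    have hζ' := sphere_subset_closedBall hζ
    have := hu _ (hmem t ht ζ hζ') _ (hmem s hs ζ hζ') (hdist ζ)
    rw [dist_eq_norm] at this
    exact this.le)
  have h0 : (0 : ℂ) ∈ closedBall (0 : ℂ) δ := mem_closedBall_self hδ.le
  have h3 := ((h1 0 h0 t ht).sub (h1 0 h0 s hs)).deriv
  have h4 : deriv (fun x : ℂ => f ((t : ℂ) • z + x • e) - f ((s : ℂ) • z + x • e)) 0 =
      fderiv ℂ f ((t : ℂ) • z) e - fderiv ℂ f ((s : ℂ) • z) e := by
    have h5 := h3
    rw [zero_smul, add_zero, add_zero] at h5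
    exact h5
  rw [h4] at h2
  rw [dist_eq_norm]
  refine lt_of_le_of_lt h2 ?_
  rw [div_lt_iff₀ hδ]
  nlinarith [mul_pos hε hδ]

/-- B4: Leibenzon's solution solves the Gleason problem at the origin. -/
theorem B4 (n : ℕ) (f : (Fin n → ℂ) → ℂ) (hf : DifferentiableOn ℂ f (Ball n))
    (z : Fin n → ℂ) (hz : z ∈ Ball n) :
    f z - f 0 = ∑ i, z i * ∫ t in (0:ℝ)..1, fderiv ℂ f ((t : ℂ) • z) (Pi.single i 1) := by
  have hint : ∀ i, IntervalIntegrable
      (fun t : ℝ => fderiv ℂ f ((t : ℂ) • z) (Pi.single i 1)) MeasureTheory.volume 0 1 := by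
    intro i
    apply ContinuousOn.intervalIntegrable
    rw [uIcc_of_le zero_le_one]
    exact B4_cont n f hf z hz i
  have hder : ∀ t ∈ uIcc (0 : ℝ) 1, HasDerivAt (fun t : ℝ => f ((t : ℂ) • z))
      (∑ i, z i * fderiv ℂ f ((t : ℂ) • z) (Pi.single i 1)) t := by
    intro t ht
    rw [uIcc_of_le zero_le_one] at ht
    have h1 : DifferentiableAt ℂ f ((t : ℂ) • z) :=
      (hf _ (B4_mem hz ht)).differentiableAt ((B4_open n).mem_nhds (B4_mem hz ht))
    have h2 : HasDerivAt (fun t : ℝ => (t : ℂ) • z) z t := by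
      have h3 : HasDerivAt (fun t : ℝ => (t : ℂ)) 1 t := Complex.ofRealCLM.hasDerivAt
      have := h3.smul_const z
      simpa using this
    have h4 := (h1.hasFDerivAt.restrictScalars ℝ).comp_hasDerivAt t h2
    have h5 : ((fderiv ℂ f ((t : ℂ) • z)).restrictScalars ℝ) z =
        ∑ i, z i * fderiv ℂ f ((t : ℂ) • z) (Pi.single i 1) := by
      rw [ContinuousLinearMap.coe_restrictScalars']
      have h6 : z = ∑ i, z i • (Pi.single i 1 : Fin n → ℂ) := by
        funext k
        rw [Finset.sum_apply, Finset.sum_eq_single k]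
        · simp
        · intro b _ hb
          rw [Pi.smul_apply, Pi.single_eq_of_ne (Ne.symm hb), smul_zero]
        · intro h
          exact absurd (Finset.mem_univ k) h
      conv_lhs => rw [h6]
      rw [map_sum]
      refine Finset.sum_congr rfl fun i _ => ?_
      rw [map_smul, smul_eq_mul, ← h6]
    rw [h5] at h4
    exact h4
  have hI := intervalIntegral.integral_eq_sub_of_hasDerivAt hder (by
    have := IntervalIntegrable.sum Finset.univ (fun i _ => (hint i).const_mul (z i))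
    refine this.congr ?_
    intro t _
    simp)
  simp only [Complex.ofReal_one, one_smul, Complex.ofReal_zero, zero_smul] at hI
  rw [← hI, intervalIntegral.integral_finset_sum (fun i _ => (hint i).const_mul (z i))]
  refine Finset.sum_congr rfl fun i _ => ?_
  rw [intervalIntegral.integral_const_mul]

end Pool.Agent.H790R4
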