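import Mathlib
import Pool.Agent.H790R4.Defs
import Pool.Agent.H720R2.HP.Final

/-!
Corona theorem for functions of one retraction coordinate `lam a p` and one arbitrary function.
-/

set_option autoImplicit false

open Metric Set Filter Topology

namespace Pool.Agent.H790R4

theorem D_div {n : ℕ} {g : (Fin n → ℂ) → ℂ} {s : Set (Fin n → ℂ)}
    (h : DifferentiableOn ℂ g s) (c : ℂ) : DifferentiableOn ℂ (fun z => g z / c) s := by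
  simp only [div_eq_mul_inv]
  exact h.mul_const _

theorem D_cov (N : ℕ) (δ : ℝ) (hδ : 0 < δ) : ∃ C : ℝ, 0 ≤ C ∧ ∀ (n : ℕ)
      (ψ : (Fin (n + 1) → ℂ) → (Fin (n + 1) → ℂ)),
      (DifferentiableOn ℂ ψ (Ball (n + 1)) ∧ MapsTo ψ (Ball (n + 1)) (Ball (n + 1)) ∧
        ∃ φ : (Fin (n + 1) → ℂ) → (Fin (n + 1) → ℂ), DifferentiableOn ℂ φ (Ball (n + 1)) ∧
          MapsTo φ (Ball (n + 1)) (Ball (n + 1)) ∧
        (∀ z ∈ Ball (n + 1), φ (ψ z) = z) ∧ ∀ z ∈ Ball (n + 1), ψ (φ z) = z) →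
      ∀ (f : Fin N → ℂ → ℂ), (∀ i, DifferentiableOn ℂ (f i) (ball 0 1)) →
      (∀ i, ∀ x ∈ ball (0 : ℂ) 1, ‖f i x‖ ≤ 1) →
      ∀ (G : (Fin (n + 1) → ℂ) → ℂ), DifferentiableOn ℂ G (Ball (n + 1)) →
        (∀ z ∈ Ball (n + 1), ‖G z‖ ≤ 1) →
        (∀ z ∈ Ball (n + 1), (∀ i, ‖f i (ψ z 0)‖ < δ) → δ ≤ ‖G z‖) →
        ∃ (g : Fin N → (Fin (n + 1) → ℂ) → ℂ) (g₀ : (Fin (n + 1) → ℂ) → ℂ),
          (∀ i, DifferentiableOn ℂ (g i) (Ball (n + 1))) ∧ DifferentiableOn ℂ g₀ (Ball (n + 1)) ∧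
          (∀ i, ∀ z ∈ Ball (n + 1), ‖g i z‖ ≤ C) ∧ (∀ z ∈ Ball (n + 1), ‖g₀ z‖ ≤ C) ∧
          ∀ z ∈ Ball (n + 1), ∑ i, f i (ψ z 0) * g i z + G z * g₀ z = 1 :=
  Pool.Agent.H720R2.HP.oneCoord N hδ

theorem D_core (n K : ℕ) (ψ : (Fin (n + 1) → ℂ) → (Fin (n + 1) → ℂ))
    (hψ : DifferentiableOn ℂ ψ (Ball (n + 1)) ∧ MapsTo ψ (Ball (n + 1)) (Ball (n + 1)) ∧
        ∃ φ : (Fin (n + 1) → ℂ) → (Fin (n + 1) → ℂ), DifferentiableOn ℂ φ (Ball (n + 1)) ∧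
          MapsTo φ (Ball (n + 1)) (Ball (n + 1)) ∧
        (∀ z ∈ Ball (n + 1), φ (ψ z) = z) ∧ ∀ z ∈ Ball (n + 1), ψ (φ z) = z)
    (Φ : Fin K → ℂ → ℂ)
    (hΦ : ∀ k, DifferentiableOn ℂ (Φ k) (ball 0 1))
    (hM : ∃ M : ℝ, ∀ k, ∀ x ∈ ball (0 : ℂ) 1, ‖Φ k x‖ ≤ M)
    (G : (Fin (n + 1) → ℂ) → ℂ) (hG : IsBH (n + 1) G) (δ : ℝ) (hδ : 0 < δ)
    (hcor : ∀ z ∈ Ball (n + 1), δ ≤ (∑ k, ‖Φ k (ψ z 0)‖) + ‖G z‖) :
    ∃ (g : Fin K → (Fin (n + 1) → ℂ) → ℂ) (g₀ : (Fin (n + 1) → ℂ) → ℂ),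
        (∀ k, IsBH (n + 1) (g k)) ∧ IsBH (n + 1) g₀ ∧
        ∀ z ∈ Ball (n + 1), ∑ k, Φ k (ψ z 0) * g k z + G z * g₀ z = 1 := by
  obtain ⟨M, hM⟩ := hM
  obtain ⟨hGd, CG, hCG⟩ := hG
  set L : ℝ := max (max M CG) 1 with hL
  have hL1 : 1 ≤ L := le_max_right _ _
  have hL0 : 0 < L := by linarith
  have hLM : M ≤ L := (le_max_left _ _).trans (le_max_left _ _)
  have hLG : CG ≤ L := (le_max_right _ _).trans (le_max_left _ _)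
  have hLc : (L : ℂ) ≠ 0 := by exact_mod_cast hL0.ne'
  have hnL : ‖(L : ℂ)‖ = L := by rw [Complex.norm_real, Real.norm_eq_abs, abs_of_pos hL0]
  obtain ⟨C, hC0, hC⟩ := D_cov K (δ / (L * (K + 1))) (by positivity)
  obtain ⟨g, g₀, h1, h2, h3, h4, h5⟩ := hC n ψ hψ
    (fun i x => Φ i x / L) (fun i => (hΦ i).div_const _)
    (fun i x hx => by
      rw [norm_div, hnL, div_le_one hL0]
      exact (hM i x hx).trans hLM)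
    (fun z => G z / L) (D_div hGd _)
    (fun z hz => by
      rw [norm_div, hnL, div_le_one hL0]
      exact (hCG z hz).trans hLG)
    (fun z hz hsm => by
      have h6 := hcor z hz
      have h7 : ∀ i, ‖Φ i (ψ z 0)‖ ≤ δ / (K + 1) := by
        intro i
        have h8 := (hsm i).le
        rw [norm_div, hnL, div_le_div_iff₀ hL0 (by positivity)] at h8
        rw [le_div_iff₀ (by positivity)]
        have h9 : (‖Φ i (ψ z 0)‖ * (K + 1)) * L ≤ δ * L := by nlinarith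
        exact le_of_mul_le_mul_right h9 hL0
      have h8 : ∑ k, ‖Φ k (ψ z 0)‖ ≤ K * (δ / (K + 1)) := by
        refine (Finset.sum_le_sum fun i _ => h7 i).trans ?_
        simp
      have h9 : δ / (K + 1) ≤ ‖G z‖ := by
        have h10 : δ = K * (δ / (K + 1)) + δ / (K + 1) := by field_simp
        linarith
      rw [norm_div, hnL, div_le_div_iff₀ (by positivity) hL0]
      rw [div_le_iff₀ (by positivity)] at h9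
      nlinarith)
  refine ⟨fun k z => g k z / L, fun z => g₀ z / L, fun k => ⟨D_div (h1 k) _, C, fun z hz => ?_⟩,
    ⟨D_div h2 _, C, fun z hz => ?_⟩, fun z hz => ?_⟩
  · rw [norm_div, hnL, div_le_iff₀ hL0]
    nlinarith [h3 k z hz]
  · rw [norm_div, hnL, div_le_iff₀ hL0]
    nlinarith [h4 z hz]
  · rw [← h5 z hz]
    congr 1
    · refine Finset.sum_congr rfl fun k _ => ?_
      ring
    · ring

/-- the statement of the automorphism lemma D3 -/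
def StD3 : Prop := ∀ (n : ℕ) (a p : Fin (n + 1) → ℂ), a ∈ Ball (n + 1) → ∑ i, ‖p i‖ ^ 2 = 1 →
    ∃ ψ : (Fin (n + 1) → ℂ) → (Fin (n + 1) → ℂ),
      (DifferentiableOn ℂ ψ (Ball (n + 1)) ∧ MapsTo ψ (Ball (n + 1)) (Ball (n + 1)) ∧
        ∃ φ : (Fin (n + 1) → ℂ) → (Fin (n + 1) → ℂ), DifferentiableOn ℂ φ (Ball (n + 1)) ∧
          MapsTo φ (Ball (n + 1)) (Ball (n + 1)) ∧
        (∀ z ∈ Ball (n + 1), φ (ψ z) = z) ∧ ∀ z ∈ Ball (n + 1), ψ (φ z) = z) ∧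
      ∀ z ∈ Ball (n + 1), ψ z 0 = lam a p z

theorem D_norm (h3 : StD3) (n : ℕ) (a p : Fin (n + 1) → ℂ) (ha : a ∈ Ball (n + 1))
    (hp : ∑ i, ‖p i‖ ^ 2 = 1) (z : Fin (n + 1) → ℂ) (hz : z ∈ Ball (n + 1)) :
    ‖lam a p z‖ < 1 := by
  obtain ⟨ψ, ⟨_, h1, _⟩, h2⟩ := h3 n a p ha hp
  rw [← h2 z hz]
  have h4 : ∑ i, ‖ψ z i‖ ^ 2 < 1 := h1 hz
  have h5 : ‖ψ z 0‖ ^ 2 ≤ ∑ i, ‖ψ z i‖ ^ 2 :=
    Finset.single_le_sum (f := fun i => ‖ψ z i‖ ^ 2) (fun i _ => by positivity) (Finset.mem_univ 0)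
  nlinarith [norm_nonneg (ψ z 0)]

theorem D_main (h3 : StD3) (n K : ℕ) (a p : Fin (n + 1) → ℂ) (ha : a ∈ Ball (n + 1))
    (hp : ∑ i, ‖p i‖ ^ 2 = 1)
    (Φ : Fin K → ℂ → ℂ) (hΦ : ∀ k, DifferentiableOn ℂ (Φ k) (ball 0 1))
    (hM : ∃ M : ℝ, ∀ k, ∀ x ∈ ball (0 : ℂ) 1, ‖Φ k x‖ ≤ M)
    (G : (Fin (n + 1) → ℂ) → ℂ) (hG : IsBH (n + 1) G) (δ : ℝ) (hδ : 0 < δ)
    (hcor : ∀ z ∈ Ball (n + 1), δ ≤ (∑ k, ‖Φ k (lam a p z)‖) + ‖G z‖) :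
    ∃ (g : Fin K → (Fin (n + 1) → ℂ) → ℂ) (g₀ : (Fin (n + 1) → ℂ) → ℂ),
        (∀ k, IsBH (n + 1) (g k)) ∧ IsBH (n + 1) g₀ ∧
        ∀ z ∈ Ball (n + 1), ∑ k, Φ k (lam a p z) * g k z + G z * g₀ z = 1 := by
  obtain ⟨ψ, h1, h2⟩ := h3 n a p ha hp
  obtain ⟨g, g₀, h4, h5, h6⟩ := D_core n K ψ h1 Φ hΦ hM G hG δ hδ (fun z hz => by
    rw [h2 z hz]; exact hcor z hz)
  refine ⟨g, g₀, h4, h5, fun z hz => ?_⟩
  have h7 := h6 z hz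
  rw [h2 z hz] at h7
  exact h7

end Pool.Agent.H790R4
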