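import Mathlib
import Pool.Agent.H790R4.Defs
set_option autoImplicit false

open Metric Set Filter Topology

namespace Pool.Agent.H790R4

theorem D3_unitary (n : ℕ) (p : Fin (n + 1) → ℂ) (hp : ∑ i, ‖p i‖ ^ 2 = 1) :
    ∃ T : (Fin (n + 1) → ℂ) ≃L[ℂ] (Fin (n + 1) → ℂ),
      (∀ z, ∑ i, ‖T z i‖ ^ 2 = ∑ i, ‖z i‖ ^ 2) ∧ ∀ z, T z 0 = ip z p := by
  classical
  set E := EuclideanSpace ℂ (Fin (n + 1)) with hE
  set e : E ≃L[ℂ] (Fin (n + 1) → ℂ) := EuclideanSpace.equiv (Fin (n + 1)) ℂ with he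
  have henorm : ∀ x : E, ∑ i, ‖e x i‖ ^ 2 = ‖x‖ ^ 2 := by
    intro x
    rw [EuclideanSpace.norm_sq_eq]
    rfl
  set v : Fin (n + 1) → E := fun _ => e.symm p with hv
  have hvn : ‖e.symm p‖ = 1 := by
    have h1 := henorm (e.symm p)
    rw [e.apply_symm_apply, hp] at h1
    have h2 : ‖e.symm p‖ ^ 2 = 1 := h1.symm
    nlinarith [norm_nonneg (e.symm p)]
  have hort : Orthonormal ℂ (Set.domRestrict ({0} : Set (Fin (n + 1))) v) := by
    constructor
    · intro i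
      exact hvn
    · intro i j hij
      exact absurd (Subsingleton.elim i j) hij
  obtain ⟨b, hb⟩ := hort.exists_orthonormalBasis_extension_of_card_eq
    (finrank_euclideanSpace (𝕜 := ℂ) (ι := Fin (n + 1)))
  have hb0 : b 0 = e.symm p := hb 0 (Set.mem_singleton 0)
  set T : (Fin (n + 1) → ℂ) ≃L[ℂ] (Fin (n + 1) → ℂ) :=
    e.symm.trans (b.repr.toContinuousLinearEquiv.trans e) with hT
  refine ⟨T, fun z => ?_, fun z => ?_⟩
  · have h1 : T z = e (b.repr (e.symm z)) := rfl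
    rw [h1, henorm, LinearIsometryEquiv.norm_map, ← henorm, e.apply_symm_apply]
  · have h1 : T z 0 = b.repr (e.symm z) 0 := rfl
    rw [h1, b.repr_apply_apply, hb0, PiLp.inner_apply]
    unfold ip
    refine Finset.sum_congr rfl fun i _ => ?_
    have h2 : (e.symm p) i = p i := rfl
    have h3 : (e.symm z) i = z i := rfl
    rw [h2, h3, RCLike.inner_apply]

/-- the automorphism of the ball interchanging `0` and `a` -/
noncomputable def D3_phi {n : ℕ} (s β : ℝ) (a z : Fin n → ℂ) : Fin n → ℂ :=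
  fun i => ((1 - β * ip z a) * a i - s * z i) / (1 - ip z a)

theorem D3_conj {n : ℕ} (z a : Fin n → ℂ) : (starRingEnd ℂ) (ip z a) = ip a z := by
  unfold ip
  rw [map_sum]
  refine Finset.sum_congr rfl fun i _ => ?_
  rw [map_mul, Complex.conj_conj, mul_comm]

theorem D3_ip1 {n : ℕ} (c d k : ℂ) (x y w : Fin n → ℂ) :
    ip (fun i => (c * x i - d * y i) / k) w = (c * ip x w - d * ip y w) / k := by
  unfold ip
  rw [Finset.mul_sum, Finset.mul_sum, ← Finset.sum_sub_distrib, Finset.sum_div]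
  refine Finset.sum_congr rfl fun i _ => ?_
  ring

theorem D3_self {n : ℕ} (x : Fin n → ℂ) : ip x x = ((∑ i, ‖x i‖ ^ 2 : ℝ) : ℂ) := by
  unfold ip
  push_cast
  refine Finset.sum_congr rfl fun i _ => ?_
  rw [Complex.mul_conj']

theorem D3_ipphi {n : ℕ} (s β : ℝ) (a z w : Fin n → ℂ) :
    ip (D3_phi s β a z) w = ((1 - β * ip z a) * ip a w - s * ip z w) / (1 - ip z a) :=
  D3_ip1 _ _ _ _ _ _

theorem D3_ipphi' {n : ℕ} (s β : ℝ) (a z w : Fin n → ℂ) :
    ip z (D3_phi s β a w) = ((1 - β * ip a w) * ip z a - s * ip z w) / (1 - ip a w) := by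
  rw [← D3_conj, D3_ipphi]
  simp only [map_div₀, map_sub, map_mul, map_one, D3_conj, Complex.conj_ofReal]

theorem D3_key {n : ℕ} {A s β : ℝ} (h1 : s ^ 2 = 1 - A) (h2 : β * (1 + s) = 1)
    (a z w : Fin n → ℂ) (hA : ip a a = (A : ℂ)) (hz : 1 - ip z a ≠ 0) (hw : 1 - ip a w ≠ 0) :
    1 - ip (D3_phi s β a z) (D3_phi s β a w) =
      (1 - ip a a) * (1 - ip z w) / ((1 - ip z a) * (1 - ip a w)) := by
  have h1' : (s : ℂ) ^ 2 = 1 - A := by exact_mod_cast h1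
  have h2' : (β : ℂ) * (1 + s) = 1 := by exact_mod_cast h2
  rw [D3_ipphi, D3_ipphi' s β a a w, D3_ipphi' s β a z w, hA]
  generalize hu : ip z a = u at hz ⊢
  generalize hv : ip a w = v at hw ⊢
  generalize hq : ip z w = q
  have e : ((1 - β * u) * (((1 - β * v) * A - s * v) / (1 - v)) -
      s * (((1 - β * v) * u - s * q) / (1 - v))) / (1 - u) =
      ((1 - β * u) * ((1 - β * v) * A - s * v) - s * ((1 - β * v) * u - s * q)) /
        ((1 - u) * (1 - v)) := by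
    field_simp
  rw [e, eq_div_iff (mul_ne_zero hz hw), sub_mul, div_mul_cancel₀ _ (mul_ne_zero hz hw)]
  linear_combination ((u + v) * β - u * v * β ^ 2 - q) * h1' +
    ((u + v) * (1 - s) - u * v * (1 + β * (1 - s))) * h2'

theorem D3_invol {n : ℕ} {A s β : ℝ} (h1 : s ^ 2 = 1 - A) (h2 : β * (1 + s) = 1) (hs : s ≠ 0)
    (a z : Fin n → ℂ) (hA : ip a a = (A : ℂ)) (hz : 1 - ip z a ≠ 0) :
    D3_phi s β a (D3_phi s β a z) = z := by
  have h1' : (s : ℂ) ^ 2 = 1 - A := by exact_mod_cast h1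
  have h2' : (β : ℂ) * (1 + s) = 1 := by exact_mod_cast h2
  have hs' : (s : ℂ) ≠ 0 := by exact_mod_cast hs
  have h3 : (β : ℂ) * A = 1 - s := by
    linear_combination (β : ℂ) * h1' + (1 - s) * h2'
  have e1 : 1 - ip (D3_phi s β a z) a = (s : ℂ) ^ 2 / (1 - ip z a) := by
    rw [D3_ipphi, hA, eq_div_iff hz, sub_mul, div_mul_cancel₀ _ hz]
    linear_combination -h1' + ip z a * h3
  have e2 : 1 - β * ip (D3_phi s β a z) a = s * (1 - β * ip z a) / (1 - ip z a) := by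
    rw [D3_ipphi, hA, eq_div_iff hz, sub_mul, mul_assoc, div_mul_cancel₀ _ hz]
    linear_combination (-1 + (β : ℂ) * ip z a) * h3 + ip z a * h2'
  funext i
  have e3 : D3_phi s β a (D3_phi s β a z) i =
      ((1 - β * ip (D3_phi s β a z) a) * a i - s * D3_phi s β a z i) /
        (1 - ip (D3_phi s β a z) a) := rfl
  have e4 : D3_phi s β a z i = ((1 - β * ip z a) * a i - s * z i) / (1 - ip z a) := rfl
  rw [e3, e1, e2, e4]
  field_simp
  ring

theorem D3_cs {n : ℕ} (z a : Fin n → ℂ) (hz : ∑ i, ‖z i‖ ^ 2 ≤ 1) (ha : ∑ i, ‖a i‖ ^ 2 < 1) :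
    1 - ip z a ≠ 0 := by
  intro h
  have h1 : ip z a = 1 := (sub_eq_zero.1 h).symm
  have h2 : ‖ip z a‖ ≤ ∑ i, ‖z i‖ * ‖a i‖ := by
    unfold ip
    refine (norm_sum_le _ _).trans (le_of_eq ?_)
    refine Finset.sum_congr rfl fun i _ => ?_
    rw [norm_mul, RCLike.norm_conj]
  have h3 := Finset.sum_mul_sq_le_sq_mul_sq Finset.univ (fun i => ‖z i‖) (fun i => ‖a i‖)
  rw [h1, norm_one] at h2
  have h4 : (1 : ℝ) ≤ (∑ i, ‖z i‖ * ‖a i‖) ^ 2 := by nlinarith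
  have h5 : 0 ≤ ∑ i, ‖z i‖ ^ 2 := Finset.sum_nonneg fun i _ => by positivity
  have h6 : 0 ≤ ∑ i, ‖a i‖ ^ 2 := Finset.sum_nonneg fun i _ => by positivity
  nlinarith

theorem D3_maps {n : ℕ} {A s β : ℝ} (h1 : s ^ 2 = 1 - A) (h2 : β * (1 + s) = 1)
    (a : Fin n → ℂ) (hA : ip a a = (A : ℂ)) (hA1 : A < 1) (ha : ∑ i, ‖a i‖ ^ 2 < 1) :
    MapsTo (D3_phi s β a) (Ball n) (Ball n) := by
  intro z hz
  have hz' : ∑ i, ‖z i‖ ^ 2 < 1 := hz
  have hne := D3_cs z a hz'.le ha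
  have hne2 : 1 - ip a z ≠ 0 := by
    rw [← D3_conj, ← map_one (starRingEnd ℂ), ← map_sub]
    exact (map_ne_zero _).2 hne
  have hk := D3_key h1 h2 a z z hA hne hne2
  have h3 : (1 - ip z a) * (1 - ip a z) = ((‖1 - ip z a‖ ^ 2 : ℝ) : ℂ) := by
    have h4 : 1 - ip a z = (starRingEnd ℂ) (1 - ip z a) := by
      rw [map_sub, map_one, D3_conj]
    rw [h4, Complex.mul_conj']
    push_cast
    rfl
  rw [D3_self, D3_self z, hA, h3] at hk
  have h5 : 1 - ∑ i, ‖D3_phi s β a z i‖ ^ 2 =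
      (1 - A) * (1 - ∑ i, ‖z i‖ ^ 2) / ‖1 - ip z a‖ ^ 2 := by exact_mod_cast hk
  have h6 : 0 < (1 - A) * (1 - ∑ i, ‖z i‖ ^ 2) / ‖1 - ip z a‖ ^ 2 := by
    have h7 : 0 < ‖1 - ip z a‖ := norm_pos_iff.2 hne
    have h8 : 0 < 1 - A := by linarith
    have h9 : 0 < 1 - ∑ i, ‖z i‖ ^ 2 := by linarith
    positivity
  show ∑ i, ‖D3_phi s β a z i‖ ^ 2 < 1
  linarith

theorem D3_diff {n : ℕ} (s β : ℝ) (a : Fin n → ℂ) (ha : ∑ i, ‖a i‖ ^ 2 < 1) :
    DifferentiableOn ℂ (D3_phi s β a) (Ball n) := by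
  have hip : Differentiable ℂ (fun z : Fin n → ℂ => ip z a) := by
    unfold ip
    fun_prop
  rw [differentiableOn_pi]
  intro i z hz
  have hz' : ∑ i, ‖z i‖ ^ 2 < 1 := hz
  have hne := D3_cs z a hz'.le ha
  have h1 : DifferentiableAt ℂ (fun z : Fin n → ℂ => (1 - β * ip z a) * a i - s * z i) z := by
    have := hip z
    fun_prop
  have h2 : DifferentiableAt ℂ (fun z : Fin n → ℂ => 1 - ip z a) z :=
    (differentiableAt_const _).sub (hip z)
  have h3 : DifferentiableAt ℂ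
      (fun z : Fin n → ℂ => ((1 - β * ip z a) * a i - s * z i) / (1 - ip z a)) z := by
    have h2' : DifferentiableAt ℂ (fun z : Fin n → ℂ => (1 - ip z a)⁻¹) z := by
      refine DifferentiableAt.fun_inv h2 ?_
      exact hne
    simp only [div_eq_mul_inv]
    exact DifferentiableAt.fun_mul h1 h2'
  exact h3.differentiableWithinAt

/-- D3: `lam a p` is the first coordinate of an automorphism of the ball. -/
theorem D3 (n : ℕ) (a p : Fin (n + 1) → ℂ) (ha : a ∈ Ball (n + 1)) (hp : ∑ i, ‖p i‖ ^ 2 = 1) :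
    ∃ ψ : (Fin (n + 1) → ℂ) → (Fin (n + 1) → ℂ),
      (DifferentiableOn ℂ ψ (Ball (n + 1)) ∧ MapsTo ψ (Ball (n + 1)) (Ball (n + 1)) ∧
        ∃ φ : (Fin (n + 1) → ℂ) → (Fin (n + 1) → ℂ), DifferentiableOn ℂ φ (Ball (n + 1)) ∧
          MapsTo φ (Ball (n + 1)) (Ball (n + 1)) ∧
        (∀ z ∈ Ball (n + 1), φ (ψ z) = z) ∧ ∀ z ∈ Ball (n + 1), ψ (φ z) = z) ∧
      ∀ z ∈ Ball (n + 1), ψ z 0 = lam a p z := by
  have ha' : ∑ i, ‖a i‖ ^ 2 < 1 := ha
  set A : ℝ := ∑ i, ‖a i‖ ^ 2 with hAdef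
  have hA : ip a a = (A : ℂ) := D3_self a
  set s : ℝ := Real.sqrt (1 - A) with hs
  have hs0 : 0 < s := Real.sqrt_pos.2 (by linarith)
  have h1 : s ^ 2 = 1 - A := Real.sq_sqrt (by linarith)
  set β : ℝ := 1 / (1 + s) with hβ
  have h2 : β * (1 + s) = 1 := by
    rw [hβ]
    field_simp
  have hap : 1 - ip a p ≠ 0 := by
    have h3 := D3_cs p a hp.le ha'
    rw [← D3_conj, ← map_one (starRingEnd ℂ), ← map_sub]
    exact (map_ne_zero _).2 h3
  have hb : ∑ i, ‖D3_phi s β a p i‖ ^ 2 = 1 := by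
    have hk := D3_key h1 h2 a p p hA (D3_cs p a hp.le ha') hap
    have hpp : ip p p = 1 := by
      rw [D3_self, hp]
      simp
    rw [hpp, sub_self, mul_zero, zero_div, D3_self] at hk
    have : ((∑ i, ‖D3_phi s β a p i‖ ^ 2 : ℝ) : ℂ) = 1 := (sub_eq_zero.1 hk).symm
    exact_mod_cast this
  obtain ⟨T, hT1, hT2⟩ := D3_unitary n (D3_phi s β a p) hb
  have hTm : ∀ z ∈ Ball (n + 1), T z ∈ Ball (n + 1) := fun z hz => by
    show ∑ i, ‖T z i‖ ^ 2 < 1
    rw [hT1]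
    exact hz
  have hTm' : ∀ z ∈ Ball (n + 1), T.symm z ∈ Ball (n + 1) := fun z hz => by
    have h3 := hT1 (T.symm z)
    rw [T.apply_symm_apply] at h3
    show ∑ i, ‖T.symm z i‖ ^ 2 < 1
    rw [← h3]
    exact hz
  have hmaps := D3_maps h1 h2 a hA ha' ha'
  have hdiff := D3_diff s β a ha'
  have hinv : ∀ z ∈ Ball (n + 1), D3_phi s β a (D3_phi s β a z) = z := fun z hz =>
    D3_invol h1 h2 hs0.ne' a z hA (D3_cs z a (le_of_lt hz) ha')
  refine ⟨fun z => T (D3_phi s β a z), ⟨?_, ?_, fun z => D3_phi s β a (T.symm z), ?_, ?_, ?_, ?_⟩,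
    ?_⟩
  · exact T.differentiable.comp_differentiableOn hdiff
  · exact fun z hz => hTm _ (hmaps hz)
  · exact hdiff.comp T.symm.differentiable.differentiableOn fun z hz => hTm' z hz
  · exact fun z hz => hmaps (hTm' z hz)
  · intro z hz
    show D3_phi s β a (T.symm (T (D3_phi s β a z))) = z
    rw [T.symm_apply_apply, hinv z hz]
  · intro z hz
    show T (D3_phi s β a (D3_phi s β a (T.symm z))) = z
    rw [hinv _ (hTm' z hz), T.apply_symm_apply]
  · intro z hz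
    show T (D3_phi s β a z) 0 = lam a p z
    rw [hT2]
    have hk := D3_key h1 h2 a z p hA (D3_cs z a (le_of_lt hz) ha') hap
    unfold lam
    rw [← hk]
    ring

end Pool.Agent.H790R4
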