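import Mathlib
import Pool.Agent.H790R4.PA1
import Pool.Agent.H790R4.PA2
import Pool.Agent.H790R4.PB1
import Pool.Agent.H790R4.PB2
import Pool.Agent.H790R4.PB3
import Pool.Agent.H790R4.PB4
import Pool.Agent.H790R4.PC1b
import Pool.Agent.H790R4.PD
import Pool.Agent.H790R4.PD3
import Pool.Agent.H790R4.PE2

/-!
Assembly of the corona theorem on the ball with one variable asymptotics at the boundary.
-/

set_option autoImplicit false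

open Metric Set Filter Topology

namespace Pool.Agent.H790R4

theorem stD3 : StD3 := fun n a p ha hp => D3 n a p ha hp

theorem gleason0 (n : ℕ) (f : (Fin n → ℂ) → ℂ) (hf : IsBH n f) :
    ∃ g : Fin n → (Fin n → ℂ) → ℂ,
      (∀ i, IsBH n (g i)) ∧ ∀ z ∈ Ball n, f z - f 0 = ∑ i, z i * g i z := by
  obtain ⟨hd, M, hM⟩ := hf
  obtain ⟨C, hC⟩ := B2 (fun n f hf M hM w hw v hv hvw => B1 n f hf M hM w hw v hv hvw) n f hd M hM
  exact ⟨fun i z => ∫ t in (0:ℝ)..1, fderiv ℂ f ((t : ℂ) • z) (Pi.single i 1),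
    fun i => ⟨B3 n f hd i, C, fun z hz => hC i z hz⟩, fun z hz => B4 n f hd z hz⟩

theorem gleason (n : ℕ) (p : Fin n → ℂ) (hp : p ∈ Ball n) (f : (Fin n → ℂ) → ℂ) (hf : IsBH n f) :
    ∃ g : Fin n → (Fin n → ℂ) → ℂ,
      (∀ i, IsBH n (g i)) ∧ ∀ z ∈ Ball n, f z - f p = ∑ i, (z i - p i) * g i z :=
  C1 gleason0 n p hp f hf

theorem main (n K : ℕ) (f : Fin K → (Fin (n + 1) → ℂ) → ℂ) (hf : ∀ k, IsBH (n + 1) (f k))
    (hasym : ∀ p : Fin (n + 1) → ℂ, ∑ i, ‖p i‖ ^ 2 = 1 →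
      ∃ (j : Fin K) (a : Fin (n + 1) → ℂ) (F : Fin K → ℂ → ℂ), a ∈ Ball (n + 1) ∧
        (∀ k, DifferentiableOn ℂ (F k) (ball 0 1)) ∧
        (∃ M : ℝ, ∀ k, ∀ x ∈ ball (0 : ℂ) 1, ‖F k x‖ ≤ M) ∧
        ∀ k, k ≠ j → Tendsto (fun z => f k z - F k (lam a p z)) (𝓝[Ball (n + 1)] p) (𝓝 0))
    (δ : ℝ) (hδ : 0 < δ) (hcor : ∀ z ∈ Ball (n + 1), δ ≤ ∑ k, ‖f k z‖) :
    ∃ h : Fin K → (Fin (n + 1) → ℂ) → ℂ,
      (∀ k, IsBH (n + 1) (h k)) ∧ ∀ z ∈ Ball (n + 1), ∑ k, f k z * h k z = 1 :=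
  E2 (fun n K F hF hno => A2 (fun n F f hF h => A1 n F f hF h) n K F hF hno)
    (fun n p hp f hf => gleason n p hp f hf)
    (fun n a p ha hp z hz => D_norm stD3 n a p ha hp z hz)
    (fun n K a p ha hp Φ hΦ hM G hG δ hδ hcor =>
      D_main stD3 n K a p ha hp Φ hΦ hM G hG δ hδ hcor)
    n K f hf hasym δ hδ hcor

end Pool.Agent.H790R4
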