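import Mathlib
import Pool.Agent.H790R4.PD

/-!
Corona theorem for functions of one retraction coordinate `lam a p` and one arbitrary function,
with uniform constants.
-/

set_option autoImplicit false

open Metric Set Filter Topology

namespace Pool.Agent.H790R4

theorem D_unif (h3 : StD3) (K : ℕ) (δ M : ℝ) (hδ : 0 < δ) : ∃ C : ℝ, 0 ≤ C ∧
      ∀ (n : ℕ) (a p : Fin (n + 1) → ℂ), a ∈ Ball (n + 1) → ∑ i, ‖p i‖ ^ 2 = 1 →
      ∀ (Φ : Fin K → ℂ → ℂ), (∀ k, DifferentiableOn ℂ (Φ k) (ball 0 1)) →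
      (∀ k, ∀ x ∈ ball (0 : ℂ) 1, ‖Φ k x‖ ≤ M) →
      ∀ (G : (Fin (n + 1) → ℂ) → ℂ), DifferentiableOn ℂ G (Ball (n + 1)) →
      (∀ z ∈ Ball (n + 1), ‖G z‖ ≤ M) →
      (∀ z ∈ Ball (n + 1), δ ≤ (∑ k, ‖Φ k (lam a p z)‖) + ‖G z‖) →
      ∃ (g : Fin K → (Fin (n + 1) → ℂ) → ℂ) (g₀ : (Fin (n + 1) → ℂ) → ℂ),
        (∀ k, DifferentiableOn ℂ (g k) (Ball (n + 1))) ∧ DifferentiableOn ℂ g₀ (Ball (n + 1)) ∧
        (∀ k, ∀ z ∈ Ball (n + 1), ‖g k z‖ ≤ C) ∧ (∀ z ∈ Ball (n + 1), ‖g₀ z‖ ≤ C) ∧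
        ∀ z ∈ Ball (n + 1), ∑ k, Φ k (lam a p z) * g k z + G z * g₀ z = 1 := by
  set L : ℝ := max M 1 with hL
  have hL1 : 1 ≤ L := le_max_right _ _
  have hL0 : 0 < L := by linarith
  have hLM : M ≤ L := le_max_left _ _
  have hLc : (L : ℂ) ≠ 0 := by exact_mod_cast hL0.ne'
  have hnL : ‖(L : ℂ)‖ = L := by rw [Complex.norm_real, Real.norm_eq_abs, abs_of_pos hL0]
  obtain ⟨C, hC0, hC⟩ := D_cov K (δ / (L * (K + 1))) (by positivity)
  refine ⟨C, hC0, ?_⟩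
  intro n a p ha hp Φ hΦ hM G hGd hCG hcor
  obtain ⟨ψ, hψ, hl⟩ := h3 n a p ha hp
  obtain ⟨g, g₀, h1, h2, h3, h4, h5⟩ := hC n ψ hψ
    (fun i x => Φ i x / L) (fun i => (hΦ i).div_const _)
    (fun i x hx => by
      rw [norm_div, hnL, div_le_one hL0]
      exact (hM i x hx).trans hLM)
    (fun z => G z / L) (D_div hGd _)
    (fun z hz => by
      rw [norm_div, hnL, div_le_one hL0]
      exact (hCG z hz).trans hLM)
    (fun z hz hsm => by
      have h6 := hcor z hz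
      have h7 : ∀ i, ‖Φ i (lam a p z)‖ ≤ δ / (K + 1) := by
        intro i
        have h8 := (hsm i).le
        rw [hl z hz, norm_div, hnL, div_le_div_iff₀ hL0 (by positivity)] at h8
        rw [le_div_iff₀ (by positivity)]
        have h9 : (‖Φ i (lam a p z)‖ * (K + 1)) * L ≤ δ * L := by nlinarith
        exact le_of_mul_le_mul_right h9 hL0
      have h8 : ∑ k, ‖Φ k (lam a p z)‖ ≤ K * (δ / (K + 1)) := by
        refine (Finset.sum_le_sum fun i _ => h7 i).trans ?_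
        simp
      have h9 : δ / (K + 1) ≤ ‖G z‖ := by
        have h10 : δ = K * (δ / (K + 1)) + δ / (K + 1) := by field_simp
        linarith
      rw [norm_div, hnL, div_le_div_iff₀ (by positivity) hL0]
      rw [div_le_iff₀ (by positivity)] at h9
      nlinarith)
  refine ⟨fun k z => g k z / L, fun z => g₀ z / L, fun k => D_div (h1 k) _, D_div h2 _,
    fun k z hz => ?_, fun z hz => ?_, fun z hz => ?_⟩
  · rw [norm_div, hnL, div_le_iff₀ hL0]
    nlinarith [h3 k z hz]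
  · rw [norm_div, hnL, div_le_iff₀ hL0]
    nlinarith [h4 z hz]
  · rw [← h5 z hz]
    congr 1
    · refine Finset.sum_congr rfl fun k _ => ?_
      rw [hl z hz]; ring
    · ring

end Pool.Agent.H790R4
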