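import Mathlib
import Pool.Agent.H790R4.Defs
set_option autoImplicit false

open Metric Set Filter Topology

namespace Pool.Agent.H790R4

theorem E4_cs {n : ℕ} (z p : Fin n → ℂ) :
    ‖ip z p‖ ^ 2 ≤ (∑ i, ‖z i‖ ^ 2) * ∑ i, ‖p i‖ ^ 2 := by
  have h1 : ‖ip z p‖ ≤ ∑ i, ‖z i‖ * ‖p i‖ := by
    unfold ip
    refine (norm_sum_le _ _).trans (le_of_eq ?_)
    refine Finset.sum_congr rfl fun i _ => ?_
    rw [norm_mul, RCLike.norm_conj]
  calc ‖ip z p‖ ^ 2 ≤ (∑ i, ‖z i‖ * ‖p i‖) ^ 2 := pow_le_pow_left₀ (norm_nonneg _) h1 2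
    _ ≤ _ := Finset.sum_mul_sq_le_sq_mul_sq _ _ _

theorem E4_bh_const (n : ℕ) (c : ℂ) : IsBH n (fun _ => c) :=
  ⟨differentiableOn_const c, ‖c‖, fun _ _ => le_rfl⟩

theorem E4_bh_add {n : ℕ} {f g : (Fin n → ℂ) → ℂ} (hf : IsBH n f) (hg : IsBH n g) :
    IsBH n (fun z => f z + g z) := by
  obtain ⟨h1, C1, h2⟩ := hf
  obtain ⟨h3, C2, h4⟩ := hg
  exact ⟨h1.add h3, C1 + C2, fun z hz => (norm_add_le _ _).trans (add_le_add (h2 z hz) (h4 z hz))⟩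

theorem E4_bh_mul {n : ℕ} {f g : (Fin n → ℂ) → ℂ} (hf : IsBH n f) (hg : IsBH n g) :
    IsBH n (fun z => f z * g z) := by
  obtain ⟨h1, C1, h2⟩ := hf
  obtain ⟨h3, C2, h4⟩ := hg
  refine ⟨h1.mul h3, C1 * C2, fun z hz => ?_⟩
  rw [norm_mul]
  exact mul_le_mul (h2 z hz) (h4 z hz) (norm_nonneg _) ((norm_nonneg _).trans (h2 z hz))

theorem E4_bh_coord (n : ℕ) (i : Fin n) : IsBH n (fun z => z i) := by
  refine ⟨(differentiable_apply i).differentiableOn, 1, fun z hz => ?_⟩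
  have h1 : ‖z i‖ ^ 2 ≤ ∑ i, ‖z i‖ ^ 2 :=
    Finset.single_le_sum (f := fun i => ‖z i‖ ^ 2) (fun i _ => by positivity) (Finset.mem_univ i)
  have h2 : ∑ i, ‖z i‖ ^ 2 < 1 := hz
  have h3 : ‖z i‖ ^ 2 ≤ 1 ^ 2 := by linarith
  exact le_of_sq_le_sq h3 zero_le_one

theorem E4_bh_sum {n : ℕ} {ι : Type} (s : Finset ι) (f : ι → (Fin n → ℂ) → ℂ)
    (hf : ∀ i, IsBH n (f i)) : IsBH n (fun z => ∑ i ∈ s, f i z) := by
  classical
  induction s using Finset.induction_on with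
  | empty =>
    simp only [Finset.sum_empty]
    exact E4_bh_const n 0
  | insert a s ha ih =>
    simp only [Finset.sum_insert ha]
    exact E4_bh_add (hf a) ih

theorem E4_bh_pow {n : ℕ} {f : (Fin n → ℂ) → ℂ} (hf : IsBH n f) (j : ℕ) :
    IsBH n (fun z => f z ^ j) := by
  induction j with
  | zero =>
    simp only [pow_zero]
    exact E4_bh_const n 1
  | succ j ih =>
    simp only [pow_succ]
    exact E4_bh_mul ih hf

theorem E4_bh_ip (n : ℕ) (p : Fin n → ℂ) : IsBH n (fun z => ip z p) := by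
  unfold ip
  exact E4_bh_sum _ _ fun i => E4_bh_mul (E4_bh_coord n i) (E4_bh_const n _)

theorem E4_ip_lt {n : ℕ} (p : Fin n → ℂ) (hp : ∑ i, ‖p i‖ ^ 2 = 1) (z : Fin n → ℂ)
    (hz : z ∈ Ball n) : ‖ip z p‖ < 1 := by
  have h1 := E4_cs z p
  rw [hp, mul_one] at h1
  have h2 : ∑ i, ‖z i‖ ^ 2 < 1 := hz
  have h3 : ‖ip z p‖ ^ 2 < 1 ^ 2 := by linarith
  exact lt_of_pow_lt_pow_left₀ 2 zero_le_one h3

theorem E4_smul_mem {n : ℕ} (p : Fin n → ℂ) (hp : ∑ i, ‖p i‖ ^ 2 = 1) (ζ : ℂ) (hζ : ‖ζ‖ < 1) :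
    ζ • p ∈ Ball n := by
  show ∑ i, ‖(ζ • p) i‖ ^ 2 < 1
  simp only [Pi.smul_apply, smul_eq_mul, norm_mul, mul_pow]
  rw [← Finset.mul_sum, hp, mul_one]
  exact pow_lt_one₀ (norm_nonneg _) hζ (by norm_num)

theorem E4_slice {n : ℕ} (p : Fin n → ℂ) (hp : ∑ i, ‖p i‖ ^ 2 = 1) (f : (Fin n → ℂ) → ℂ)
    (hf : IsBH n f) : DifferentiableOn ℂ (fun ζ : ℂ => f (ζ • p)) (ball 0 1) := by
  refine hf.1.comp (f := fun ζ : ℂ => ζ • p) (by fun_prop) ?_
  intro ζ hζ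
  rw [mem_ball_zero_iff] at hζ
  exact E4_smul_mem p hp ζ hζ

theorem E4_bh_slice {n : ℕ} (p : Fin n → ℂ) (hp : ∑ i, ‖p i‖ ^ 2 = 1) (f : (Fin n → ℂ) → ℂ)
    (hf : IsBH n f) : IsBH n (fun z => f (ip z p • p)) := by
  have hmem : ∀ z ∈ Ball n, ip z p • p ∈ Ball n := fun z hz =>
    E4_smul_mem p hp _ (E4_ip_lt p hp z hz)
  obtain ⟨h1, C, hC⟩ := hf
  refine ⟨?_, C, fun z hz => hC _ (hmem z hz)⟩
  refine h1.comp (f := fun z => ip z p • p) ?_ hmem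
  exact (E4_bh_ip n p).1.smul_const p

/-- properties of the character -/
structure E4_M (n : ℕ) (m : ((Fin n → ℂ) → ℂ) → ℂ) : Prop where
  add : ∀ f g, IsBH n f → IsBH n g → m (fun z => f z + g z) = m f + m g
  mul : ∀ f g, IsBH n f → IsBH n g → m (fun z => f z * g z) = m f * m g
  const : ∀ c : ℂ, m (fun _ => c) = c
  congr : ∀ f g, IsBH n f → IsBH n g → (∀ z ∈ Ball n, f z = g z) → m f = m g
  norm : ∀ f, IsBH n f → ∀ C : ℝ, (∀ z ∈ Ball n, ‖f z‖ ≤ C) → ‖m f‖ ≤ C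

theorem E4_m_sum {n : ℕ} {m : ((Fin n → ℂ) → ℂ) → ℂ} (hm : E4_M n m) {ι : Type} (s : Finset ι)
    (f : ι → (Fin n → ℂ) → ℂ) (hf : ∀ i, IsBH n (f i)) :
    m (fun z => ∑ i ∈ s, f i z) = ∑ i ∈ s, m (f i) := by
  classical
  induction s using Finset.induction_on with
  | empty =>
    simp only [Finset.sum_empty]
    exact hm.const 0
  | insert a s ha ih =>
    simp only [Finset.sum_insert ha]
    rw [hm.add _ _ (hf a) (E4_bh_sum s f hf), ih]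

theorem E4_m_pow {n : ℕ} {m : ((Fin n → ℂ) → ℂ) → ℂ} (hm : E4_M n m) (f : (Fin n → ℂ) → ℂ)
    (hf : IsBH n f) (j : ℕ) : m (fun z => f z ^ j) = m f ^ j := by
  induction j with
  | zero =>
    simp only [pow_zero]
    exact hm.const 1
  | succ j ih =>
    simp only [pow_succ]
    rw [hm.mul _ _ (E4_bh_pow hf j) hf, ih]

theorem E4_m_ip {n : ℕ} {m : ((Fin n → ℂ) → ℂ) → ℂ} (hm : E4_M n m) (p : Fin n → ℂ) :
    m (fun z => ip z p) = ∑ i, m (fun z => z i) * (starRingEnd ℂ) (p i) := by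
  unfold ip
  rw [E4_m_sum hm _ (fun i z => z i * (starRingEnd ℂ) (p i))
    (fun i => E4_bh_mul (E4_bh_coord n i) (E4_bh_const n _))]
  refine Finset.sum_congr rfl fun i _ => ?_
  rw [hm.mul (fun z => z i) (fun _ => (starRingEnd ℂ) (p i)) (E4_bh_coord n i)
    (E4_bh_const n _), hm.const]

theorem E4_m_ip_self {n : ℕ} {m : ((Fin n → ℂ) → ℂ) → ℂ} (hm : E4_M n m) (p : Fin n → ℂ)
    (hp : ∀ i, p i = m (fun z => z i)) :
    m (fun z => ip z p) = ((∑ i, ‖p i‖ ^ 2 : ℝ) : ℂ) := by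
  rw [E4_m_ip hm p]
  push_cast
  refine Finset.sum_congr rfl fun i _ => ?_
  rw [← hp i, Complex.mul_conj, Complex.normSq_eq_norm_sq]
  push_cast
  rfl

theorem E4_le_one {n : ℕ} {m : ((Fin n → ℂ) → ℂ) → ℂ} (hm : E4_M n m) (p : Fin n → ℂ)
    (hp : ∀ i, p i = m (fun z => z i)) : ∑ i, ‖p i‖ ^ 2 ≤ 1 := by
  set S := ∑ i, ‖p i‖ ^ 2 with hS
  have hS0 : 0 ≤ S := Finset.sum_nonneg fun i _ => by positivity
  have h1 := hm.norm _ (E4_bh_ip n p) (Real.sqrt S) (by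
    intro z hz
    apply Real.le_sqrt_of_sq_le
    refine (E4_cs z p).trans ?_
    have h2 : ∑ i, ‖z i‖ ^ 2 < 1 := hz
    exact mul_le_of_le_one_left hS0 h2.le)
  rw [E4_m_ip_self hm p hp, Complex.norm_real, Real.norm_of_nonneg hS0] at h1
  have h3 := Real.sq_sqrt hS0
  have h4 := Real.sqrt_nonneg S
  by_contra h5
  push Not at h5
  nlinarith

theorem E4_near {n : ℕ} (p : Fin n → ℂ) (hp : ∑ i, ‖p i‖ ^ 2 = 1) (P : (Fin n → ℂ) → Prop)
    (h : ∀ᶠ z in 𝓝[Ball n] p, P z) :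
    ∃ θ : ℝ, 0 < θ ∧ ∀ z ∈ Ball n, ‖1 - ip z p‖ < θ → P z := by
  rw [eventually_nhdsWithin_iff, Metric.eventually_nhds_iff] at h
  obtain ⟨ε, hε, h⟩ := h
  refine ⟨ε ^ 2 / 2, by positivity, fun z hz hu => ?_⟩
  have hz' : ∑ i, ‖z i‖ ^ 2 < 1 := hz
  have h1 : ∑ i, ‖z i - p i‖ ^ 2 = ∑ i, ‖z i‖ ^ 2 + 1 - 2 * (ip z p).re := by
    rw [← hp, ← Finset.sum_add_distrib]
    unfold ip
    rw [Complex.re_sum, Finset.mul_sum, ← Finset.sum_sub_distrib]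
    refine Finset.sum_congr rfl fun i _ => ?_
    rw [← Complex.normSq_eq_norm_sq, ← Complex.normSq_eq_norm_sq, ← Complex.normSq_eq_norm_sq,
      Complex.normSq_sub]
  have h2 : 1 - (ip z p).re ≤ ‖1 - ip z p‖ := by
    have h3 := Complex.re_le_norm (1 - ip z p)
    rw [Complex.sub_re, Complex.one_re] at h3
    exact h3
  have h4 : ∑ i, ‖z i - p i‖ ^ 2 < ε ^ 2 := by
    rw [h1]
    linarith
  apply h _ hz
  rw [dist_eq_norm, pi_norm_lt_iff hε]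
  intro i
  have h5 : ‖z i - p i‖ ^ 2 ≤ ∑ i, ‖z i - p i‖ ^ 2 :=
    Finset.single_le_sum (f := fun i => ‖z i - p i‖ ^ 2) (fun i _ => by positivity)
      (Finset.mem_univ i)
  exact lt_of_pow_lt_pow_left₀ 2 hε.le (h5.trans_lt h4)

theorem E4_para (u : ℂ) : ‖1 + u‖ ^ 2 + ‖1 - u‖ ^ 2 = 2 + 2 * ‖u‖ ^ 2 := by
  rw [← Complex.normSq_eq_norm_sq, ← Complex.normSq_eq_norm_sq, ← Complex.normSq_eq_norm_sq,
    Complex.normSq_apply, Complex.normSq_apply, Complex.normSq_apply]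
  simp only [Complex.add_re, Complex.add_im, Complex.sub_re, Complex.sub_im, Complex.one_re,
    Complex.one_im]
  ring

/-- the interior case -/
theorem E4_interior
    (hC : ∀ (n : ℕ) (p : Fin n → ℂ), p ∈ Ball n → ∀ (f : (Fin n → ℂ) → ℂ), IsBH n f →
      ∃ g : Fin n → (Fin n → ℂ) → ℂ,
      (∀ i, IsBH n (g i)) ∧ ∀ z ∈ Ball n, f z - f p = ∑ i, (z i - p i) * g i z)
    {n : ℕ} {m : ((Fin n → ℂ) → ℂ) → ℂ} (hm : E4_M n m) (p : Fin n → ℂ)
    (hp : ∀ i, p i = m (fun z => z i)) (hpB : p ∈ Ball n) (F : (Fin n → ℂ) → ℂ)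
    (hF : IsBH n F) : m F = F p := by
  obtain ⟨g, hg, hg2⟩ := hC n p hpB F hF
  have hterm : ∀ i, IsBH n (fun z => (z i + (-p i)) * g i z) := fun i =>
    E4_bh_mul (E4_bh_add (E4_bh_coord n i) (E4_bh_const n _)) (hg i)
  have h1 : m F = m (fun z => F p + ∑ i, (z i + (-p i)) * g i z) := by
    apply hm.congr _ _ hF (E4_bh_add (E4_bh_const n _) (E4_bh_sum _ _ hterm))
    intro z hz
    have h2 := hg2 z hz
    have h3 : ∑ i, (z i + (-p i)) * g i z = ∑ i, (z i - p i) * g i z :=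
      Finset.sum_congr rfl fun i _ => by ring
    rw [h3, ← h2]
    ring
  rw [h1, hm.add (fun _ => F p) _ (E4_bh_const n _) (E4_bh_sum _ _ hterm), hm.const,
    E4_m_sum hm _ _ hterm]
  have h4 : ∀ i, m (fun z => (z i + (-p i)) * g i z) = 0 := by
    intro i
    rw [hm.mul (fun z => z i + (-p i)) (g i) (E4_bh_add (E4_bh_coord n i) (E4_bh_const n _))
      (hg i), hm.add (fun z => z i) (fun _ => -p i) (E4_bh_coord n i) (E4_bh_const n _),
      hm.const, ← hp i]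
    ring
  rw [Finset.sum_congr rfl (fun i _ => h4 i), Finset.sum_const_zero, add_zero]

/-- functions tending to zero at the peak point are killed by the character -/
theorem E4_kill {n : ℕ} {m : ((Fin n → ℂ) → ℂ) → ℂ} (hm : E4_M n m) (p : Fin n → ℂ)
    (hp : ∀ i, p i = m (fun z => z i)) (hS : ∑ i, ‖p i‖ ^ 2 = 1) (κ : (Fin n → ℂ) → ℂ)
    (hκ : IsBH n κ) (θ : ℝ) (hθ : 0 < θ) (hs : ∀ z ∈ Ball n, ‖1 - ip z p‖ < θ → ‖κ z‖ ≤ 1 / 2) :
    ‖m κ‖ ≤ 1 / 2 := by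
  obtain ⟨C, hCκ⟩ := hκ.2
  set θ' := min θ 1 with hθ'
  have hθ'0 : 0 < θ' := lt_min hθ one_pos
  have hθ'1 : θ' ≤ 1 := min_le_right _ _
  set ρ := 1 - θ' ^ 2 / 4 with hρ
  have hρ1 : ρ < 1 := by
    rw [hρ]
    have : 0 < θ' ^ 2 / 4 := by positivity
    linarith
  have hρ0 : 0 ≤ ρ := by
    rw [hρ]
    nlinarith
  obtain ⟨j, hj⟩ := exists_pow_lt_of_lt_one (show (0 : ℝ) < 1 / (2 * (|C| + 1)) by positivity) hρ1
  have he : IsBH n (fun z => (1 + ip z p) * (1 / 2)) :=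
    E4_bh_mul (E4_bh_add (E4_bh_const n 1) (E4_bh_ip n p)) (E4_bh_const n _)
  have hme : m (fun z => (1 + ip z p) * (1 / 2)) = 1 := by
    rw [hm.mul (fun z => 1 + ip z p) (fun _ => 1 / 2)
      (E4_bh_add (E4_bh_const n 1) (E4_bh_ip n p)) (E4_bh_const n _),
      hm.add (fun _ => 1) (fun z => ip z p) (E4_bh_const n 1) (E4_bh_ip n p), hm.const, hm.const,
      E4_m_ip_self hm p hp, hS]
    norm_num
  have hmk : m (fun z => κ z * ((1 + ip z p) * (1 / 2)) ^ (2 * j)) = m κ := by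
    rw [hm.mul κ _ hκ (E4_bh_pow he (2 * j)), E4_m_pow hm _ he, hme, one_pow, mul_one]
  rw [← hmk]
  apply hm.norm _ (E4_bh_mul hκ (E4_bh_pow he (2 * j)))
  intro z hz
  have hu := E4_ip_lt p hS z hz
  have hpar := E4_para (ip z p)
  have hesq : ‖(1 + ip z p) * (1 / 2)‖ ^ 2 = ‖1 + ip z p‖ ^ 2 / 4 := by
    rw [norm_mul, mul_pow]
    norm_num
    ring
  have hu2 : ‖ip z p‖ ^ 2 ≤ 1 := pow_le_one₀ (norm_nonneg _) hu.le
  rw [norm_mul, norm_pow, pow_mul, hesq]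
  have hnn : 0 ≤ ‖1 + ip z p‖ ^ 2 / 4 := by positivity
  by_cases hc : ‖1 - ip z p‖ < θ
  · have h1 : ‖1 + ip z p‖ ^ 2 / 4 ≤ 1 := by
      have := sq_nonneg ‖1 - ip z p‖
      linarith
    have h2 : (‖1 + ip z p‖ ^ 2 / 4) ^ j ≤ 1 := pow_le_one₀ hnn h1
    calc ‖κ z‖ * (‖1 + ip z p‖ ^ 2 / 4) ^ j ≤ ‖κ z‖ * 1 :=
          mul_le_mul_of_nonneg_left h2 (norm_nonneg _)
      _ ≤ 1 / 2 := by rw [mul_one]; exact hs z hz hc
  · push Not at hc
    have hc' : θ' ≤ ‖1 - ip z p‖ := (min_le_left _ _).trans hc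
    have h3 : θ' ^ 2 ≤ ‖1 - ip z p‖ ^ 2 := pow_le_pow_left₀ hθ'0.le hc' 2
    have h1 : ‖1 + ip z p‖ ^ 2 / 4 ≤ ρ := by
      rw [hρ]
      linarith
    have h2 : (‖1 + ip z p‖ ^ 2 / 4) ^ j ≤ ρ ^ j := pow_le_pow_left₀ hnn h1 j
    have h4 : ‖κ z‖ ≤ |C| := (hCκ z hz).trans (le_abs_self C)
    calc ‖κ z‖ * (‖1 + ip z p‖ ^ 2 / 4) ^ j ≤ |C| * (1 / (2 * (|C| + 1))) :=
          mul_le_mul h4 (h2.trans hj.le) (pow_nonneg hnn j) (abs_nonneg C)
      _ ≤ 1 / 2 := by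
          rw [mul_one_div, div_le_div_iff₀ (by positivity) (by norm_num)]
          linarith


theorem E4_norm_a {n : ℕ} (a : Fin n → ℂ) (ha : a ∈ Ball n) :
    ∃ r : ℝ, 0 ≤ r ∧ r < 1 ∧ r ^ 2 = ∑ i, ‖a i‖ ^ 2 := by
  have h0 : 0 ≤ ∑ i, ‖a i‖ ^ 2 := Finset.sum_nonneg fun i _ => by positivity
  have h1 : ∑ i, ‖a i‖ ^ 2 < 1 := ha
  refine ⟨Real.sqrt (∑ i, ‖a i‖ ^ 2), Real.sqrt_nonneg _, ?_, Real.sq_sqrt h0⟩
  rw [Real.sqrt_lt' one_pos]
  simpa using h1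

theorem E4_ipza {n : ℕ} (a z : Fin n → ℂ) (r : ℝ) (hr : 0 ≤ r) (h : r ^ 2 = ∑ i, ‖a i‖ ^ 2)
    (hz : ∑ i, ‖z i‖ ^ 2 ≤ 1) : ‖ip z a‖ ≤ r := by
  have h1 := E4_cs z a
  rw [← h] at h1
  have h2 : ‖ip z a‖ ^ 2 ≤ r ^ 2 := h1.trans (mul_le_of_le_one_left (sq_nonneg r) hz)
  exact le_of_sq_le_sq h2 hr

theorem E4_ip_symm {n : ℕ} (a p : Fin n → ℂ) : ‖ip a p‖ = ‖ip p a‖ := by
  have : ip p a = (starRingEnd ℂ) (ip a p) := by
    unfold ip
    rw [map_sum]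
    refine Finset.sum_congr rfl fun i _ => ?_
    rw [map_mul, Complex.conj_conj, mul_comm]
  rw [this, RCLike.norm_conj]

theorem E4_ip_self {n : ℕ} (a : Fin n → ℂ) : ip a a = ((∑ i, ‖a i‖ ^ 2 : ℝ) : ℂ) := by
  unfold ip
  push_cast
  refine Finset.sum_congr rfl fun i _ => ?_
  rw [Complex.mul_conj, Complex.normSq_eq_norm_sq]
  push_cast
  rfl

/-- bounds for `1 - lam a p z` -/
theorem E4_lam {n : ℕ} (a p : Fin n → ℂ) (ha : a ∈ Ball n) (hp : ∑ i, ‖p i‖ ^ 2 = 1) :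
    ∃ c C : ℝ, 0 < c ∧ 0 < C ∧ (∀ z ∈ Ball n, 1 - ip z a ≠ 0) ∧ 1 - ip a p ≠ 0 ∧
      (∀ z ∈ Ball n, c * ‖1 - ip z p‖ ≤ ‖1 - lam a p z‖) ∧
      ∀ z ∈ Ball n, ‖1 - lam a p z‖ ≤ C * ‖1 - ip z p‖ := by
  obtain ⟨r, hr0, hr1, hr⟩ := E4_norm_a a ha
  have h1 : ∀ z ∈ Ball n, ‖ip z a‖ ≤ r := fun z hz =>
    E4_ipza a z r hr0 hr (le_of_lt hz)
  have h2 : ‖ip a p‖ ≤ r := by
    rw [E4_ip_symm]
    exact E4_ipza a p r hr0 hr hp.le
  have lo : ∀ w : ℂ, ‖w‖ ≤ r → 1 - r ≤ ‖1 - w‖ := by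
    intro w hw
    have h3 := norm_sub_norm_le (1 : ℂ) w
    rw [norm_one] at h3
    linarith
  have up : ∀ w : ℂ, ‖w‖ ≤ r → ‖1 - w‖ ≤ 2 := by
    intro w hw
    have h3 := norm_sub_le (1 : ℂ) w
    rw [norm_one] at h3
    linarith
  have hr' : 0 < 1 - r := by linarith
  have hr2 : 0 < 1 - r ^ 2 := by nlinarith
  have e0 : ‖1 - ip a a‖ = 1 - r ^ 2 := by
    rw [E4_ip_self, ← hr]
    have : (1 : ℂ) - ((r ^ 2 : ℝ) : ℂ) = ((1 - r ^ 2 : ℝ) : ℂ) := by push_cast; ring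
    rw [this, Complex.norm_real, Real.norm_of_nonneg hr2.le]
  have e1 : ∀ z, ‖1 - lam a p z‖ = (1 - r ^ 2) * ‖1 - ip z p‖ / (‖1 - ip z a‖ * ‖1 - ip a p‖) := by
    intro z
    unfold lam
    rw [sub_sub_cancel, norm_div, norm_mul, norm_mul, e0]
  refine ⟨(1 - r ^ 2) / 4, (1 - r ^ 2) / ((1 - r) * (1 - r)), by positivity, by positivity,
    ?_, ?_, ?_, ?_⟩
  · intro z hz h
    have h3 := lo _ (h1 z hz)
    rw [h, norm_zero] at h3
    linarith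
  · intro h
    have h3 := lo _ h2
    rw [h, norm_zero] at h3
    linarith
  · intro z hz
    rw [e1]
    have a1 := lo _ (h1 z hz)
    have a2 := lo _ h2
    have b1 := up _ (h1 z hz)
    have b2 := up _ h2
    have d0 : 0 < ‖1 - ip z a‖ * ‖1 - ip a p‖ := mul_pos (by linarith) (by linarith)
    rw [le_div_iff₀ d0]
    have d1 : ‖1 - ip z a‖ * ‖1 - ip a p‖ ≤ 2 * 2 :=
      mul_le_mul b1 b2 (norm_nonneg _) (by norm_num)
    have d2 : 0 ≤ (1 - r ^ 2) / 4 * ‖1 - ip z p‖ := by positivity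
    calc (1 - r ^ 2) / 4 * ‖1 - ip z p‖ * (‖1 - ip z a‖ * ‖1 - ip a p‖)
        ≤ (1 - r ^ 2) / 4 * ‖1 - ip z p‖ * (2 * 2) := mul_le_mul_of_nonneg_left d1 d2
      _ = (1 - r ^ 2) * ‖1 - ip z p‖ := by ring
  · intro z hz
    rw [e1]
    have a1 := lo _ (h1 z hz)
    have a2 := lo _ h2
    have d1 : (1 - r) * (1 - r) ≤ ‖1 - ip z a‖ * ‖1 - ip a p‖ :=
      mul_le_mul a1 a2 hr'.le (norm_nonneg _)
    have d3 : 0 < (1 - r) * (1 - r) := by positivity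
    rw [div_mul_eq_mul_div]
    exact div_le_div_of_nonneg_left (by positivity) d3 d1

theorem E4_bh_lam {n : ℕ} (a p : Fin n → ℂ) (hza : ∀ z ∈ Ball n, 1 - ip z a ≠ 0)
    (hap : 1 - ip a p ≠ 0) (hL : ∀ z ∈ Ball n, ‖lam a p z‖ < 1) :
    IsBH n (fun z => lam a p z) := by
  refine ⟨?_, 1, fun z hz => (hL z hz).le⟩
  unfold lam
  have d1 : DifferentiableOn ℂ (fun z => ip z p) (Ball n) := (E4_bh_ip n p).1
  have d2 : DifferentiableOn ℂ (fun z => ip z a) (Ball n) := (E4_bh_ip n a).1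
  have d3 : DifferentiableOn ℂ (fun _ : Fin n → ℂ => (1 : ℂ)) (Ball n) := differentiableOn_const 1
  have d4 : DifferentiableOn ℂ (fun z => (1 - ip a a) * (1 - ip z p)) (Ball n) :=
    (d3.sub d1).const_mul _
  have d5 : DifferentiableOn ℂ (fun z => (1 - ip z a) * (1 - ip a p)) (Ball n) :=
    (d3.sub d2).mul_const _
  have d6 := d4.mul (d5.inv fun z hz => mul_ne_zero (hza z hz) hap)
  refine (d3.sub d6).congr fun z _ => ?_
  show _ = 1 - (1 - ip a a) * (1 - ip z p) * ((1 - ip z a) * (1 - ip a p))⁻¹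
  rw [div_eq_mul_inv]

theorem E4_bh_comp {n : ℕ} (a p : Fin n → ℂ) (hb : IsBH n (fun z => lam a p z))
    (hL : ∀ z ∈ Ball n, ‖lam a p z‖ < 1) (F : ℂ → ℂ) (hF : DifferentiableOn ℂ F (ball 0 1))
    (M : ℝ) (hM : ∀ x ∈ ball (0 : ℂ) 1, ‖F x‖ ≤ M) : IsBH n (fun z => F (lam a p z)) := by
  have hm : MapsTo (fun z => lam a p z) (Ball n) (ball (0 : ℂ) 1) := fun z hz => by
    rw [mem_ball_zero_iff]
    exact hL z hz
  exact ⟨hF.comp hb.1 hm, M, fun z hz => hM _ (hm hz)⟩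


theorem E4_et (t : ℝ) (ht : 0 < t) (u : ℂ) (hu : ‖u‖ < 1) :
    t ≤ ‖1 - u + (t : ℂ)‖ ∧ ‖1 - u‖ ≤ ‖1 - u + (t : ℂ)‖ := by
  have hre : 0 ≤ (1 - u).re := by
    have h1 := Complex.re_le_norm u
    rw [Complex.sub_re, Complex.one_re]
    linarith
  constructor
  · have h2 := Complex.re_le_norm (1 - u + (t : ℂ))
    rw [Complex.add_re, Complex.ofReal_re] at h2
    linarith
  · apply le_of_sq_le_sq _ (norm_nonneg _)
    rw [← Complex.normSq_eq_norm_sq, ← Complex.normSq_eq_norm_sq, Complex.normSq_apply,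
      Complex.normSq_apply, Complex.add_re, Complex.add_im, Complex.ofReal_re, Complex.ofReal_im]
    nlinarith

/-- E4: still stronger final assembly (dimension free `ε`, no limit needed). -/
theorem E4
    (hA : ∀ (n : ℕ) (K : ℕ) (F : Fin K → (Fin n → ℂ) → ℂ), (∀ k, IsBH n (F k)) →
      (¬ ∃ h : Fin K → (Fin n → ℂ) → ℂ, (∀ k, IsBH n (h k)) ∧
      ∀ z ∈ Ball n, ∑ k, F k z * h k z = 1) →
    ∃ m : ((Fin n → ℂ) → ℂ) → ℂ,
      (∀ f g, IsBH n f → IsBH n g → m (fun z => f z + g z) = m f + m g) ∧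
      (∀ f g, IsBH n f → IsBH n g → m (fun z => f z * g z) = m f * m g) ∧
      (∀ c : ℂ, m (fun _ => c) = c) ∧
      (∀ f g, IsBH n f → IsBH n g → (∀ z ∈ Ball n, f z = g z) → m f = m g) ∧
      (∀ f, IsBH n f → ∀ C : ℝ, (∀ z ∈ Ball n, ‖f z‖ ≤ C) → ‖m f‖ ≤ C) ∧
      ∀ k, m (F k) = 0)
    (hC : ∀ (n : ℕ) (p : Fin n → ℂ), p ∈ Ball n → ∀ (f : (Fin n → ℂ) → ℂ), IsBH n f →
      ∃ g : Fin n → (Fin n → ℂ) → ℂ,
      (∀ i, IsBH n (g i)) ∧ ∀ z ∈ Ball n, f z - f p = ∑ i, (z i - p i) * g i z)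
    (hL : ∀ (n : ℕ) (a p : Fin (n + 1) → ℂ), a ∈ Ball (n + 1) → ∑ i, ‖p i‖ ^ 2 = 1 →
      ∀ z ∈ Ball (n + 1), ‖lam a p z‖ < 1)
    (hD : ∀ (K : ℕ) (δ M : ℝ), 0 < δ → ∃ C : ℝ, 0 ≤ C ∧
      ∀ (n : ℕ) (a p : Fin (n + 1) → ℂ), a ∈ Ball (n + 1) → ∑ i, ‖p i‖ ^ 2 = 1 →
      ∀ (Φ : Fin K → ℂ → ℂ), (∀ k, DifferentiableOn ℂ (Φ k) (ball 0 1)) →
      (∀ k, ∀ x ∈ ball (0 : ℂ) 1, ‖Φ k x‖ ≤ M) →
      ∀ (G : (Fin (n + 1) → ℂ) → ℂ), DifferentiableOn ℂ G (Ball (n + 1)) →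
      (∀ z ∈ Ball (n + 1), ‖G z‖ ≤ M) →
      (∀ z ∈ Ball (n + 1), δ ≤ (∑ k, ‖Φ k (lam a p z)‖) + ‖G z‖) →
      ∃ (g : Fin K → (Fin (n + 1) → ℂ) → ℂ) (g₀ : (Fin (n + 1) → ℂ) → ℂ),
        (∀ k, DifferentiableOn ℂ (g k) (Ball (n + 1))) ∧ DifferentiableOn ℂ g₀ (Ball (n + 1)) ∧
        (∀ k, ∀ z ∈ Ball (n + 1), ‖g k z‖ ≤ C) ∧ (∀ z ∈ Ball (n + 1), ‖g₀ z‖ ≤ C) ∧
        ∀ z ∈ Ball (n + 1), ∑ k, Φ k (lam a p z) * g k z + G z * g₀ z = 1)
    (K : ℕ) (δ : ℝ) (hδ : 0 < δ) :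
    ∃ ε : ℝ → ℝ, (∀ M, 0 < ε M) ∧ ∀ (n : ℕ) (f : Fin K → (Fin (n + 1) → ℂ) → ℂ),
      (∀ k, DifferentiableOn ℂ (f k) (Ball (n + 1))) →
      (∀ k, ∀ z ∈ Ball (n + 1), ‖f k z‖ ≤ 1) →
      (∀ z ∈ Ball (n + 1), δ ≤ ∑ k, ‖f k z‖) →
      (∀ p : Fin (n + 1) → ℂ, ∑ i, ‖p i‖ ^ 2 = 1 →
        ∃ (j : Fin K) (a : Fin (n + 1) → ℂ) (M : ℝ) (F : Fin K → ℂ → ℂ), a ∈ Ball (n + 1) ∧
          (∀ k, DifferentiableOn ℂ (F k) (ball 0 1)) ∧
          (∀ k, ∀ x ∈ ball (0 : ℂ) 1, ‖F k x‖ ≤ M) ∧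
          ∀ k, k ≠ j → ∀ᶠ z in 𝓝[Ball (n + 1)] p, ‖f k z - F k (lam a p z)‖ ≤ ε M) →
      ∃ h : Fin K → (Fin (n + 1) → ℂ) → ℂ,
        (∀ k, IsBH (n + 1) (h k)) ∧ ∀ z ∈ Ball (n + 1), ∑ k, f k z * h k z = 1 := by
  classical
  have hδ1 : 0 < min (δ / 2) (1 / 2) := lt_min (by positivity) (by norm_num)
  choose Cf hCf0 hCf using fun M : ℝ => hD (K + 1) (min (δ / 2) (1 / 2)) (max M 1) hδ1
  have hK1 : (0 : ℝ) < K + 1 := by positivity
  have hCp : ∀ M, 0 < Cf M + 1 := fun M => by linarith [hCf0 M]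
  refine ⟨fun M => min (δ / (2 * (K + 1))) (1 / (4 * (K + 1) * (Cf M + 1))), fun M => ?_, ?_⟩
  · have := hCp M
    exact lt_min (by positivity) (by positivity)
  intro n f hfd hf1 hcor hasym
  have hf : ∀ k, IsBH (n + 1) (f k) := fun k => ⟨hfd k, 1, hf1 k⟩
  by_contra hno
  obtain ⟨m, m1, m2, m3, m4, m5, mf⟩ := hA (n + 1) K f hf hno
  have hm : E4_M (n + 1) m := ⟨m1, m2, m3, m4, m5⟩
  obtain ⟨p, hp⟩ : ∃ p : Fin (n + 1) → ℂ, ∀ i, p i = m (fun z => z i) := ⟨fun i => _, fun i => rfl⟩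
  rcases lt_or_eq_of_le (E4_le_one hm p hp) with hlt | hS
  · have hpB : p ∈ Ball (n + 1) := hlt
    have h1 := hcor p hpB
    have h2 : ∀ k, f k p = 0 := fun k => by
      rw [← E4_interior hC hm p hp hpB (f k) (hf k)]
      exact mf k
    simp only [h2, norm_zero, Finset.sum_const_zero] at h1
    linarith
  -- the boundary case
  obtain ⟨j, a, M, F, ha, hFd, hFb, htend⟩ := hasym p hS
  obtain ⟨c, C, hc0, hC0, hza, hap, hlo, hup⟩ := E4_lam a p ha hS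
  have hL' : ∀ z ∈ Ball (n + 1), ‖lam a p z‖ < 1 := hL n a p ha hS
  have hbl := E4_bh_lam a p hza hap hL'
  set ε1 : ℝ := min (δ / (2 * (K + 1))) (1 / (4 * (K + 1) * (Cf M + 1))) with hε1
  have hCpM := hCp M
  have hε10 : 0 < ε1 := lt_min (by positivity) (by positivity)
  let Ψ : Fin K → ℂ → ℂ := fun k ζ => if k = j then 0 else F k ζ
  have hΨj : ∀ ζ, Ψ j ζ = 0 := fun ζ => if_pos rfl
  have hΨk : ∀ k, k ≠ j → ∀ ζ, Ψ k ζ = F k ζ := fun k hk ζ => if_neg hk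
  let f' : Fin K → (Fin (n + 1) → ℂ) → ℂ := fun k z => if k = j then 0 else f k z
  have hfj : ∀ z, f' j z = 0 := fun z => if_pos rfl
  have hfk : ∀ k, k ≠ j → ∀ z, f' k z = f k z := fun k hk z => if_neg hk
  have hf' : ∀ k, IsBH (n + 1) (f' k) := by
    intro k
    by_cases hk : k = j
    · have : f' k = fun _ => 0 := by
        funext z
        rw [hk]
        exact hfj z
      rw [this]
      exact E4_bh_const _ 0
    · have : f' k = f k := by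
        funext z
        exact hfk k hk z
      rw [this]
      exact hf k
  have mf' : ∀ k, m (f' k) = 0 := by
    intro k
    by_cases hk : k = j
    · have : f' k = fun _ => 0 := by
        funext z
        rw [hk]
        exact hfj z
      rw [this]
      exact hm.const 0
    · have : f' k = f k := by
        funext z
        exact hfk k hk z
      rw [this]
      exact mf k
  have hΨd : ∀ k, DifferentiableOn ℂ (Ψ k) (ball 0 1) := by
    intro k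
    by_cases hk : k = j
    · have : Ψ k = fun _ => 0 := by
        funext z
        rw [hk]
        exact hΨj z
      rw [this]
      exact differentiableOn_const 0
    · have : Ψ k = F k := by
        funext z
        exact hΨk k hk z
      rw [this]
      exact hFd k
  have hM1 : (1 : ℝ) ≤ max M 1 := le_max_right _ _
  have hΨb : ∀ k, ∀ x ∈ ball (0 : ℂ) 1, ‖Ψ k x‖ ≤ max M 1 := by
    intro k x hx
    by_cases hk : k = j
    · rw [hk, hΨj, norm_zero]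
      linarith
    · rw [hΨk k hk]
      exact (hFb k x hx).trans (le_max_left _ _)
  -- closeness
  obtain ⟨θ0, hθ0, hn0⟩ : ∃ θ : ℝ, 0 < θ ∧ ∀ z ∈ Ball (n + 1), ‖1 - ip z p‖ < θ →
      ∀ k, ‖f' k z - Ψ k (lam a p z)‖ ≤ ε1 := by
    apply E4_near p hS
    rw [Filter.eventually_all]
    intro k
    by_cases hk : k = j
    · refine Filter.Eventually.of_forall fun z => ?_
      rw [hk, hfj, hΨj, sub_zero, norm_zero]
      exact hε10.le
    · refine (htend k hk).mono fun z hz => ?_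
      rw [hfk k hk, hΨk k hk]
      exact hz
  set t : ℝ := c * θ0 with ht
  have ht0 : 0 < t := mul_pos hc0 hθ0
  let Et : ℂ → ℂ := fun ζ => (1 - ζ) / (1 - ζ + (t : ℂ))
  have hEt0 : ∀ x, ‖x‖ < 1 → 1 - x + (t : ℂ) ≠ 0 := by
    intro x hx h
    have h1 := (E4_et t ht0 x hx).1
    rw [h, norm_zero] at h1
    linarith
  have hEtd : DifferentiableOn ℂ Et (ball 0 1) := by
    apply DifferentiableOn.div
    · fun_prop
    · fun_prop
    · intro x hx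
      rw [mem_ball_zero_iff] at hx
      exact hEt0 x hx
  have hEtn : ∀ x, ‖Et x‖ = ‖1 - x‖ / ‖1 - x + (t : ℂ)‖ := fun x => norm_div _ _
  have hEtb : ∀ x ∈ ball (0 : ℂ) 1, ‖Et x‖ ≤ 1 := by
    intro x hx
    rw [mem_ball_zero_iff] at hx
    rw [hEtn, div_le_one (lt_of_lt_of_le ht0 (E4_et t ht0 x hx).1)]
    exact (E4_et t ht0 x hx).2
  let Φ : Fin (K + 1) → ℂ → ℂ :=
    Fin.cons (α := fun _ => ℂ → ℂ) Et Ψ
  have hΦd : ∀ k, DifferentiableOn ℂ (Φ k) (ball 0 1) := by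
    intro k
    refine Fin.cases ?_ ?_ k
    · exact hEtd
    · intro i
      exact hΨd i
  have hΦb : ∀ k, ∀ x ∈ ball (0 : ℂ) 1, ‖Φ k x‖ ≤ max M 1 := by
    intro k
    refine Fin.cases ?_ ?_ k
    · intro x hx
      exact (hEtb x hx).trans hM1
    · intro i x hx
      exact hΨb i x hx
  have hsplit : ∀ z, ∑ k, ‖f k z‖ = ∑ k, ‖f' k z‖ + ‖f j z‖ := by
    intro z
    have h1 : ∀ k, ‖f k z‖ = ‖f' k z‖ + if k = j then ‖f j z‖ else 0 := by
      intro k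
      by_cases hk : k = j
      · rw [hk, hfj, norm_zero, zero_add, if_pos rfl]
      · rw [hfk k hk, if_neg hk, add_zero]
    rw [Finset.sum_congr rfl fun k _ => h1 k, Finset.sum_add_distrib, Finset.sum_ite_eq']
    simp
  have hlow : ∀ z ∈ Ball (n + 1), min (δ / 2) (1 / 2) ≤
      (∑ k, ‖Φ k (lam a p z)‖) + ‖f j z‖ := by
    intro z hz
    rw [Fin.sum_univ_succ]
    simp only [Φ, Fin.cons_zero, Fin.cons_succ]
    have hnn1 : 0 ≤ ∑ k, ‖Ψ k (lam a p z)‖ := Finset.sum_nonneg fun _ _ => norm_nonneg _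
    by_cases hc : ‖1 - ip z p‖ < θ0
    · refine (min_le_left _ _).trans ?_
      have h1 := hn0 z hz hc
      have h0 : ε1 ≤ δ / (2 * (K + 1)) := min_le_left _ _
      have h2 : ∑ k, ‖f' k z‖ ≤ ∑ k, ‖Ψ k (lam a p z)‖ + K * (δ / (2 * (K + 1))) := by
        calc ∑ k, ‖f' k z‖ ≤ ∑ k : Fin K, (‖Ψ k (lam a p z)‖ + δ / (2 * (K + 1))) := by
              refine Finset.sum_le_sum fun k _ => ?_
              have h3 := h1 k
              have h4 := norm_sub_norm_le (f' k z) (Ψ k (lam a p z))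
              linarith
          _ = _ := by
              rw [Finset.sum_add_distrib, Finset.sum_const, Finset.card_univ, Fintype.card_fin,
                nsmul_eq_mul]
      have h5 : (K : ℝ) * (δ / (2 * (K + 1))) ≤ δ / 2 := by
        rw [mul_div_assoc', div_le_div_iff₀ (by positivity) (by norm_num)]
        nlinarith
      have h6 := hcor z hz
      rw [hsplit] at h6
      linarith [norm_nonneg (Et (lam a p z))]
    · push Not at hc
      refine (min_le_right _ _).trans ?_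
      have h7 := hlo z hz
      have h8 : t ≤ c * ‖1 - ip z p‖ := mul_le_mul_of_nonneg_left hc hc0.le
      have h9 : t ≤ ‖1 - lam a p z‖ := h8.trans h7
      have h10 := (E4_et t ht0 _ (hL' z hz)).1
      have h11 : ‖1 - lam a p z + (t : ℂ)‖ ≤ ‖1 - lam a p z‖ + t := by
        refine (norm_add_le _ _).trans ?_
        rw [Complex.norm_real, Real.norm_of_nonneg ht0.le]
      have h12 : 1 / 2 ≤ ‖Et (lam a p z)‖ := by
        rw [hEtn, div_le_div_iff₀ (by norm_num) (lt_of_lt_of_le ht0 h10)]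
        linarith
      linarith [norm_nonneg (f j z)]
  obtain ⟨g, g₀, hgd, hg₀d, hgM, hg₀M, hsum⟩ := hCf M n a p ha hS Φ hΦd hΦb (f j) (hfd j)
    (fun z hz => (hf1 j z hz).trans hM1) hlow
  have hg : ∀ k, IsBH (n + 1) (g k) := fun k => ⟨hgd k, _, hgM k⟩
  have hg₀ : IsBH (n + 1) g₀ := ⟨hg₀d, _, hg₀M⟩
  set Mg := Cf M with hMg
  have hMg0 : 0 ≤ Mg := hCf0 M
  have hk1 : IsBH (n + 1) (fun z => Et (lam a p z) * g 0 z) :=
    E4_bh_mul (E4_bh_comp a p hbl hL' Et hEtd 1 hEtb) (hg 0)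
  have hk2 : ∀ k : Fin K, IsBH (n + 1)
      (fun z => (Ψ k (lam a p z) + (-1) * f' k z) * g k.succ z) := fun k =>
    E4_bh_mul (E4_bh_add (E4_bh_comp a p hbl hL' (Ψ k) (hΨd k) _ (hΨb k))
      (E4_bh_mul (E4_bh_const _ (-1)) (hf' k))) (hg k.succ)
  let κ : (Fin (n + 1) → ℂ) → ℂ := fun z => Et (lam a p z) * g 0 z +
    ∑ k : Fin K, (Ψ k (lam a p z) + (-1) * f' k z) * g k.succ z
  have hκ : IsBH (n + 1) κ := E4_bh_add hk1 (E4_bh_sum _ _ hk2)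
  have hr1 : ∀ k : Fin K, IsBH (n + 1) (fun z => f' k z * g k.succ z) := fun k =>
    E4_bh_mul (hf' k) (hg k.succ)
  let R : (Fin (n + 1) → ℂ) → ℂ := fun z => (∑ k : Fin K, f' k z * g k.succ z) + f j z * g₀ z
  have hR : IsBH (n + 1) R := E4_bh_add (E4_bh_sum _ _ hr1) (E4_bh_mul (hf j) hg₀)
  have hmR : m R = 0 := by
    have h1 : m R = m (fun z => ∑ k : Fin K, f' k z * g k.succ z) + m (fun z => f j z * g₀ z) :=
      hm.add (fun z => ∑ k : Fin K, f' k z * g k.succ z) (fun z => f j z * g₀ z)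
        (E4_bh_sum _ _ hr1) (E4_bh_mul (hf j) hg₀)
    rw [h1, E4_m_sum hm _ (fun (k : Fin K) z => f' k z * g k.succ z) hr1,
      hm.mul (f j) g₀ (hf j) hg₀, mf j, zero_mul, add_zero]
    refine Finset.sum_eq_zero fun k _ => ?_
    rw [hm.mul (f' k) (g k.succ) (hf' k) (hg k.succ), mf' k, zero_mul]
  have hmκ : m κ = 1 := by
    have h1 : m (fun z => κ z + R z) = m κ + m R := hm.add κ R hκ hR
    have h2 : m (fun z => κ z + R z) = m (fun _ => (1 : ℂ)) := by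
      apply hm.congr _ _ (E4_bh_add hκ hR) (E4_bh_const _ 1)
      intro z hz
      have h3 := hsum z hz
      rw [Fin.sum_univ_succ] at h3
      simp only [Φ, Fin.cons_zero, Fin.cons_succ] at h3
      have h4 : ∑ k : Fin K, (Ψ k (lam a p z) + (-1) * f' k z) * g k.succ z =
          ∑ k : Fin K, Ψ k (lam a p z) * g k.succ z - ∑ k : Fin K, f' k z * g k.succ z := by
        rw [← Finset.sum_sub_distrib]
        exact Finset.sum_congr rfl fun k _ => by ring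
      show Et (lam a p z) * g 0 z +
        ∑ k : Fin K, (Ψ k (lam a p z) + (-1) * f' k z) * g k.succ z +
        ((∑ k : Fin K, f' k z * g k.succ z) + f j z * g₀ z) = 1
      rw [h4]
      linear_combination h3
    rw [hmR, add_zero] at h1
    rw [← h1, h2, hm.const]
  have hkill := E4_kill hm p hp hS κ hκ (min θ0 (t / (4 * (Mg + 1)) / C))
    (lt_min hθ0 (by positivity)) (by
    intro z hz hu
    have hu1 := hn0 z hz (hu.trans_le (min_le_left _ _))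
    have hu2'' : ‖1 - ip z p‖ < t / (4 * (Mg + 1)) / C := hu.trans_le (min_le_right _ _)
    have hu2' : ‖1 - lam a p z‖ < t / (4 * (Mg + 1)) := by
      rw [lt_div_iff₀ hC0] at hu2''
      have := hup z hz
      linarith
    have h10 := (E4_et t ht0 _ (hL' z hz)).1
    have e0 : ‖Et (lam a p z)‖ ≤ 1 / (4 * (Mg + 1)) := by
      rw [hEtn, div_le_div_iff₀ (lt_of_lt_of_le ht0 h10) (by positivity)]
      rw [lt_div_iff₀ (by positivity)] at hu2'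
      linarith
    have e1 : ‖Et (lam a p z) * g 0 z‖ ≤ 1 / (4 * (Mg + 1)) * Mg := by
      rw [norm_mul]
      exact mul_le_mul e0 (hgM 0 z hz) (norm_nonneg _) (by positivity)
    have hεs : ε1 ≤ 1 / (4 * (K + 1) * (Mg + 1)) := min_le_right _ _
    have e3 : ‖∑ k : Fin K, (Ψ k (lam a p z) + (-1) * f' k z) * g k.succ z‖ ≤
        K * (1 / (4 * (K + 1) * (Mg + 1)) * Mg) := by
      refine (norm_sum_le _ _).trans ?_
      calc ∑ k : Fin K, ‖(Ψ k (lam a p z) + (-1) * f' k z) * g k.succ z‖ ≤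
            ∑ _k : Fin K, 1 / (4 * ((K : ℝ) + 1) * (Mg + 1)) * Mg := by
            refine Finset.sum_le_sum fun k _ => ?_
            rw [norm_mul]
            apply mul_le_mul _ (hgM _ z hz) (norm_nonneg _) (by positivity)
            have e4 : Ψ k (lam a p z) + (-1) * f' k z = -(f' k z - Ψ k (lam a p z)) := by ring
            rw [e4, norm_neg]
            exact (hu1 k).trans hεs
        _ = K * (1 / (4 * (K + 1) * (Mg + 1)) * Mg) := by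
            rw [Finset.sum_const, Finset.card_univ, Fintype.card_fin, nsmul_eq_mul]
    have e5 : ‖κ z‖ ≤ 1 / (4 * (Mg + 1)) * Mg + K * (1 / (4 * (K + 1) * (Mg + 1)) * Mg) :=
      (norm_add_le _ _).trans (add_le_add e1 e3)
    refine e5.trans ?_
    have e6 : 1 / (4 * (Mg + 1)) * Mg ≤ 1 / 4 := by
      rw [one_div_mul_eq_div, div_le_div_iff₀ (by positivity) (by norm_num)]
      linarith
    have e7 : (K : ℝ) * (1 / (4 * (K + 1) * (Mg + 1)) * Mg) ≤ 1 / 4 := by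
      have e8 : (K : ℝ) * (1 / (4 * (K + 1) * (Mg + 1)) * Mg) =
          (K : ℝ) / (K + 1) * (1 / (4 * (Mg + 1)) * Mg) := by
        field_simp
      rw [e8]
      have e9 : (K : ℝ) / (K + 1) ≤ 1 := by
        rw [div_le_one hK1]
        linarith
      have e10 : 0 ≤ 1 / (4 * (Mg + 1)) * Mg := by positivity
      calc (K : ℝ) / (K + 1) * (1 / (4 * (Mg + 1)) * Mg) ≤ 1 * (1 / (4 * (Mg + 1)) * Mg) :=
            mul_le_mul_of_nonneg_right e9 e10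
        _ ≤ 1 / 4 := by rw [one_mul]; exact e6
    linarith)
  rw [hmκ, norm_one] at hkill
  norm_num at hkill

end Pool.Agent.H790R4
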