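import Mathlib
import Pool.Agent.H790R4.PA1
import Pool.Agent.H790R4.PA2
import Pool.Agent.H790R4.PB1
import Pool.Agent.H790R4.PB2
import Pool.Agent.H790R4.PB3
import Pool.Agent.H790R4.PB4
import Pool.Agent.H790R4.PC1b
import Pool.Agent.H790R4.PD2
import Pool.Agent.H790R4.PD3
import Pool.Agent.H790R4.PE4

/-!
Assembly of the corona theorem on the ball for data close to one variable data at the boundary.
-/

set_option autoImplicit false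

open Metric Set Filter Topology

namespace Pool.Agent.H790R4

theorem M2_gleason0 (n : ℕ) (f : (Fin n → ℂ) → ℂ) (hf : IsBH n f) :
    ∃ g : Fin n → (Fin n → ℂ) → ℂ,
      (∀ i, IsBH n (g i)) ∧ ∀ z ∈ Ball n, f z - f 0 = ∑ i, z i * g i z := by
  obtain ⟨hd, M, hM⟩ := hf
  obtain ⟨C, hC⟩ := B2 (fun n f hf M hM w hw v hv hvw => B1 n f hf M hM w hw v hv hvw) n f hd M hM
  exact ⟨fun i z => ∫ t in (0:ℝ)..1, fderiv ℂ f ((t : ℂ) • z) (Pi.single i 1),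
    fun i => ⟨B3 n f hd i, C, fun z hz => hC i z hz⟩, fun z hz => B4 n f hd z hz⟩

theorem M2_gleason (n : ℕ) (p : Fin n → ℂ) (hp : p ∈ Ball n) (f : (Fin n → ℂ) → ℂ)
    (hf : IsBH n f) :
    ∃ g : Fin n → (Fin n → ℂ) → ℂ,
      (∀ i, IsBH n (g i)) ∧ ∀ z ∈ Ball n, f z - f p = ∑ i, (z i - p i) * g i z :=
  C1 M2_gleason0 n p hp f hf

theorem main2 (K : ℕ) (δ : ℝ) (hδ : 0 < δ) :
    ∃ ε : ℝ → ℝ, (∀ M, 0 < ε M) ∧ ∀ (n : ℕ) (f : Fin K → (Fin (n + 1) → ℂ) → ℂ),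
      (∀ k, DifferentiableOn ℂ (f k) (Ball (n + 1))) →
      (∀ k, ∀ z ∈ Ball (n + 1), ‖f k z‖ ≤ 1) →
      (∀ z ∈ Ball (n + 1), δ ≤ ∑ k, ‖f k z‖) →
      (∀ p : Fin (n + 1) → ℂ, ∑ i, ‖p i‖ ^ 2 = 1 →
        ∃ (j : Fin K) (a : Fin (n + 1) → ℂ) (M : ℝ) (F : Fin K → ℂ → ℂ), a ∈ Ball (n + 1) ∧
          (∀ k, DifferentiableOn ℂ (F k) (ball 0 1)) ∧
          (∀ k, ∀ x ∈ ball (0 : ℂ) 1, ‖F k x‖ ≤ M) ∧
          ∀ k, k ≠ j → ∀ᶠ z in 𝓝[Ball (n + 1)] p, ‖f k z - F k (lam a p z)‖ ≤ ε M) →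
      ∃ h : Fin K → (Fin (n + 1) → ℂ) → ℂ,
        (∀ k, IsBH (n + 1) (h k)) ∧ ∀ z ∈ Ball (n + 1), ∑ k, f k z * h k z = 1 :=
  E4 (fun n K F hF hno => A2 (fun n F f hF h => A1 n F f hF h) n K F hF hno)
    (fun n p hp f hf => M2_gleason n p hp f hf)
    (fun n a p ha hp z hz => D_norm (fun n a p ha hp => D3 n a p ha hp) n a p ha hp z hz)
    (fun K δ M hδ => D_unif (fun n a p ha hp => D3 n a p ha hp) K δ M hδ)
    K δ hδ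

end Pool.Agent.H790R4
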