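import Mathlib
import Pool.Agent.H790R4.Defs
set_option autoImplicit false

open Metric Set Filter Topology

namespace Pool.Agent.H790R4

theorem A2u_zero_mem (n : ℕ) : (0 : Fin n → ℂ) ∈ Ball n := by
  simp [Ball]

/-- `S` copies of the ball -/
abbrev A2u_X (S : Type) (n : ℕ) : Type := Σ _ : S, Ball n

/-- bounded families of holomorphic functions -/
def A2u_P (S : Type) (n : ℕ) (f : S → (Fin n → ℂ) → ℂ) : Prop :=
  (∀ s, DifferentiableOn ℂ (f s) (Ball n)) ∧ ∃ C : ℝ, ∀ s, ∀ z ∈ Ball n, ‖f s z‖ ≤ C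

/-- the algebra of bounded families of holomorphic functions -/
def A2u_alg (S : Type) (n : ℕ) : Subalgebra ℂ (BoundedContinuousFunction (A2u_X S n) ℂ) where
  carrier := {u | ∃ f : S → (Fin n → ℂ) → ℂ, (∀ s, DifferentiableOn ℂ (f s) (Ball n)) ∧
    ∀ (s : S) (z : Ball n), u ⟨s, z⟩ = f s z}
  mul_mem' := by
    rintro u v ⟨f, hf, hu⟩ ⟨g, hg, hv⟩
    exact ⟨fun s z => f s z * g s z, fun s => (hf s).mul (hg s), fun s z => by
      rw [BoundedContinuousFunction.mul_apply, hu, hv]⟩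
  add_mem' := by
    rintro u v ⟨f, hf, hu⟩ ⟨g, hg, hv⟩
    exact ⟨fun s z => f s z + g s z, fun s => (hf s).add (hg s), fun s z => by
      rw [BoundedContinuousFunction.add_apply, hu, hv]⟩
  algebraMap_mem' := by
    intro c
    exact ⟨fun _ _ => c, fun _ => differentiableOn_const c, fun s z => by
      simp [Algebra.algebraMap_eq_smul_one]⟩

/-- a bounded family as a bounded continuous function -/
noncomputable def A2u_mk {S : Type} {n : ℕ} (f : S → (Fin n → ℂ) → ℂ) (h : A2u_P S n f) :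
    BoundedContinuousFunction (A2u_X S n) ℂ :=
  BoundedContinuousFunction.ofNormedAddCommGroup (fun x : A2u_X S n => f x.1 x.2)
    (continuous_sigma_iff.mpr (fun s =>
      continuousOn_iff_continuous_restrict.mp (h.1 s).continuousOn)) h.2.choose
    (fun x => h.2.choose_spec x.1 x.2 x.2.2)

theorem A2u_mk_mem {S : Type} {n : ℕ} (f : S → (Fin n → ℂ) → ℂ) (h : A2u_P S n f) :
    A2u_mk f h ∈ A2u_alg S n :=
  ⟨f, h.1, fun _ _ => rfl⟩

theorem A2u_closed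
    (hA1 : ∀ (n : ℕ) (F : ℕ → (Fin n → ℂ) → ℂ) (f : (Fin n → ℂ) → ℂ),
      (∀ k, DifferentiableOn ℂ (F k) (Ball n)) →
      TendstoUniformlyOn F f atTop (Ball n) → DifferentiableOn ℂ f (Ball n)) (S : Type) (n : ℕ) :
    IsClosed (A2u_alg S n : Set (BoundedContinuousFunction (A2u_X S n) ℂ)) := by
  classical
  apply IsSeqClosed.isClosed
  intro u v hu hv
  choose F hF hFu using fun k => (hu k : ∃ f : S → (Fin n → ℂ) → ℂ,
    (∀ s, DifferentiableOn ℂ (f s) (Ball n)) ∧ ∀ (s : S) (z : Ball n), u k ⟨s, z⟩ = f s z)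
  refine ⟨fun s z => if h : z ∈ Ball n then v ⟨s, ⟨z, h⟩⟩ else 0, ?_, fun s z => by
    simp⟩
  intro s
  refine hA1 n (fun k => F k s) _ (fun k => hF k s) ?_
  rw [Metric.tendstoUniformlyOn_iff]
  intro ε hε
  have h1 := (Metric.tendsto_nhds.mp hv) ε hε
  filter_upwards [h1] with k hk z hz
  simp only [dif_pos hz]
  rw [← hFu k s ⟨z, hz⟩, dist_comm]
  exact (BoundedContinuousFunction.dist_coe_le_dist _).trans_lt hk

/-- A2u: Gelfand theory for families (bounded holomorphic functions on `S × B`). -/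
theorem A2u
    (hA1 : ∀ (n : ℕ) (F : ℕ → (Fin n → ℂ) → ℂ) (f : (Fin n → ℂ) → ℂ),
      (∀ k, DifferentiableOn ℂ (F k) (Ball n)) →
      TendstoUniformlyOn F f atTop (Ball n) → DifferentiableOn ℂ f (Ball n))
    (S : Type) (n : ℕ) (K : ℕ) (F : Fin K → S → (Fin n → ℂ) → ℂ)
    (hF : ∀ k, (∀ s, DifferentiableOn ℂ (F k s) (Ball n)) ∧
      ∃ C : ℝ, ∀ s, ∀ z ∈ Ball n, ‖F k s z‖ ≤ C)
    (hno : ¬ ∃ h : Fin K → S → (Fin n → ℂ) → ℂ,
      (∀ k, (∀ s, DifferentiableOn ℂ (h k s) (Ball n)) ∧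
        ∃ C : ℝ, ∀ s, ∀ z ∈ Ball n, ‖h k s z‖ ≤ C) ∧
      ∀ s, ∀ z ∈ Ball n, ∑ k, F k s z * h k s z = 1) :
    ∃ (P : (S → (Fin n → ℂ) → ℂ) → Prop) (m : (S → (Fin n → ℂ) → ℂ) → ℂ),
      (∀ f, P f ↔ (∀ s, DifferentiableOn ℂ (f s) (Ball n)) ∧
        ∃ C : ℝ, ∀ s, ∀ z ∈ Ball n, ‖f s z‖ ≤ C) ∧
      (∀ f g, P f → P g → m (fun s z => f s z + g s z) = m f + m g) ∧
      (∀ f g, P f → P g → m (fun s z => f s z * g s z) = m f * m g) ∧
      (∀ c : ℂ, m (fun _ _ => c) = c) ∧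
      (∀ f g, P f → P g → (∀ s, ∀ z ∈ Ball n, f s z = g s z) → m f = m g) ∧
      (∀ f, P f → ∀ C : ℝ, (∀ s, ∀ z ∈ Ball n, ‖f s z‖ ≤ C) → ‖m f‖ ≤ C) ∧
      ∀ k, m (F k) = 0 := by
  classical
  have hS : Nonempty S := by
    by_contra hS
    rw [not_nonempty_iff] at hS
    exact hno ⟨fun _ _ _ => 0, fun _ => ⟨fun s => (hS.false s).elim, 0, fun s => (hS.false s).elim⟩,
      fun s => (hS.false s).elim⟩
  obtain ⟨s₀⟩ := hS
  have hcl : CompleteSpace (A2u_alg S n) := (A2u_closed hA1 S n).completeSpace_coe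
  let a : Fin K → A2u_alg S n := fun k => ⟨A2u_mk (F k) (hF k), A2u_mk_mem _ _⟩
  have hI : Ideal.span (Set.range a) ≠ ⊤ := by
    intro htop
    apply hno
    have h1 : (1 : A2u_alg S n) ∈ Ideal.span (Set.range a) := htop ▸ Submodule.mem_top
    obtain ⟨c, hc⟩ := Ideal.mem_span_range_iff_exists_fun.mp h1
    choose f hf hfc using fun k => ((c k).2 : ∃ f : S → (Fin n → ℂ) → ℂ,
      (∀ s, DifferentiableOn ℂ (f s) (Ball n)) ∧ ∀ (s : S) (z : Ball n), (c k).1 ⟨s, z⟩ = f s z)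
    refine ⟨f, fun k => ⟨hf k, ‖(c k).1‖, fun s z hz => ?_⟩, fun s z hz => ?_⟩
    · rw [← hfc k s ⟨z, hz⟩]
      exact BoundedContinuousFunction.norm_coe_le_norm _ _
    · have h2 : ((∑ i, c i * a i : A2u_alg S n)).1 ⟨s, ⟨z, hz⟩⟩ =
          (1 : A2u_alg S n).1 ⟨s, ⟨z, hz⟩⟩ :=
        congrArg (fun u : A2u_alg S n => u.1 ⟨s, ⟨z, hz⟩⟩) hc
      have h3 : ((∑ i, c i * a i : A2u_alg S n)).1 ⟨s, ⟨z, hz⟩⟩ =
          ∑ i, (c i).1 ⟨s, ⟨z, hz⟩⟩ * (a i).1 ⟨s, ⟨z, hz⟩⟩ := by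
        have h4 : ((∑ i, c i * a i : A2u_alg S n)).1 = ∑ i, (c i).1 * (a i).1 := by
          simp
        rw [h4]
        simp
      rw [h3] at h2
      have h5 : (1 : A2u_alg S n).1 ⟨s, ⟨z, hz⟩⟩ = 1 := rfl
      rw [h5] at h2
      rw [← h2]
      refine Finset.sum_congr rfl fun i _ => ?_
      rw [mul_comm, hfc i s ⟨z, hz⟩]
      rfl
  obtain ⟨M, hM, hIM⟩ := Ideal.exists_le_maximal _ hI
  have := hM
  let φ : WeakDual.characterSpace ℂ (A2u_alg S n) := M.toCharacterSpace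
  have hφ : ∀ x ∈ M, φ x = 0 := fun x hx =>
    M.toCharacterSpace_apply_eq_zero_of_mem hx
  let el : ∀ f, A2u_P S n f → A2u_alg S n := fun f h => ⟨A2u_mk f h, A2u_mk_mem f h⟩
  let m : (S → (Fin n → ℂ) → ℂ) → ℂ := fun f => if h : A2u_P S n f then φ (el f h) else 0
  have hm : ∀ f (h : A2u_P S n f), m f = φ (el f h) := fun f h => dif_pos h
  have hadd : ∀ f g, A2u_P S n f → A2u_P S n g → A2u_P S n (fun s z => f s z + g s z) := by
    rintro f g ⟨hf, Cf, hCf⟩ ⟨hg, Cg, hCg⟩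
    exact ⟨fun s => (hf s).add (hg s), Cf + Cg, fun s z hz => (norm_add_le _ _).trans
      (add_le_add (hCf s z hz) (hCg s z hz))⟩
  have hmul : ∀ f g, A2u_P S n f → A2u_P S n g → A2u_P S n (fun s z => f s z * g s z) := by
    rintro f g ⟨hf, Cf, hCf⟩ ⟨hg, Cg, hCg⟩
    refine ⟨fun s => (hf s).mul (hg s), Cf * Cg, fun s z hz => ?_⟩
    rw [norm_mul]
    exact mul_le_mul (hCf s z hz) (hCg s z hz) (norm_nonneg _) ((norm_nonneg _).trans (hCf s z hz))
  have hconst : ∀ c : ℂ, A2u_P S n (fun _ _ => c) := fun c =>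
    ⟨fun _ => differentiableOn_const c, ‖c‖, fun _ _ _ => le_rfl⟩
  refine ⟨A2u_P S n, m, fun f => Iff.rfl, ?_, ?_, ?_, ?_, ?_, ?_⟩
  · intro f g hf hg
    rw [hm _ (hadd f g hf hg), hm f hf, hm g hg, ← map_add]
    congr 1
  · intro f g hf hg
    rw [hm _ (hmul f g hf hg), hm f hf, hm g hg, ← map_mul]
    congr 1
  · intro c
    rw [hm _ (hconst c)]
    have h1 : el (fun _ _ => c) (hconst c) = algebraMap ℂ (A2u_alg S n) c := by
      apply Subtype.ext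
      ext z
      show c = _
      simp [Algebra.algebraMap_eq_smul_one]
    rw [h1]
    exact AlgHomClass.commutes φ c
  · intro f g hf hg hfg
    rw [hm f hf, hm g hg]
    congr 1
    apply Subtype.ext
    ext x
    exact hfg x.1 x.2 x.2.2
  · intro f hf C hC
    rw [hm f hf]
    have h0 : 0 ≤ C := (norm_nonneg _).trans (hC s₀ 0 (A2u_zero_mem n))
    have h1 := spectrum.norm_le_norm_mul_of_mem (AlgHom.apply_mem_spectrum φ (el f hf))
    have h2 : ‖el f hf‖ ≤ C := by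
      show ‖A2u_mk f hf‖ ≤ C
      rw [BoundedContinuousFunction.norm_le h0]
      exact fun x => hC x.1 x.2 x.2.2
    have h3 : ‖(1 : A2u_alg S n)‖ ≤ 1 := by
      show ‖(1 : BoundedContinuousFunction (A2u_X S n) ℂ)‖ ≤ 1
      rw [BoundedContinuousFunction.norm_le zero_le_one]
      intro z
      simp
    calc ‖φ (el f hf)‖ ≤ ‖el f hf‖ * ‖(1 : A2u_alg S n)‖ := h1
      _ ≤ C * 1 := mul_le_mul h2 h3 (norm_nonneg _) h0
      _ = C := mul_one C
  · intro k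
    rw [hm (F k) (hF k)]
    exact hφ _ (hIM (Ideal.subset_span ⟨k, rfl⟩))

end Pool.Agent.H790R4
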