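import Mathlib
import Pool.Agent.H790R4.Defs
set_option autoImplicit false

open Metric Set Filter Topology

namespace Pool.Agent.H790R4

theorem C1u_ipd {n : ℕ} (p : Fin n → ℂ) : Differentiable ℂ (fun z : Fin n → ℂ => ip z p) := by
  unfold ip; fun_prop

theorem C1u_cs {n : ℕ} (z p : Fin n → ℂ) :
    ‖ip z p‖ ^ 2 ≤ (∑ i, ‖z i‖ ^ 2) * ∑ i, ‖p i‖ ^ 2 := by
  have h1 : ‖ip z p‖ ≤ ∑ i, ‖z i‖ * ‖p i‖ := by
    unfold ip
    refine (norm_sum_le _ _).trans (Finset.sum_le_sum fun i _ => ?_)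
    rw [norm_mul, RCLike.norm_conj]
  have h2 : (∑ i, ‖z i‖ * ‖p i‖) ^ 2 ≤ (∑ i, ‖z i‖ ^ 2) * ∑ i, ‖p i‖ ^ 2 :=
    Finset.sum_mul_sq_le_sq_mul_sq _ _ _
  exact (pow_le_pow_left₀ (norm_nonneg _) h1 2).trans h2

theorem C1u_ip_self {n : ℕ} (p : Fin n → ℂ) : ip p p = ((∑ i, ‖p i‖ ^ 2 : ℝ) : ℂ) := by
  unfold ip
  push_cast
  refine Finset.sum_congr rfl fun i _ => ?_
  rw [Complex.mul_conj']

/-- the automorphism -/
noncomputable def C1u_psi {n : ℕ} (p : Fin n → ℂ) (s c : ℝ) (z : Fin n → ℂ) : Fin n → ℂ :=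
  fun i => ((1 - c * ip z p) * p i - s * z i) * (1 - ip z p)⁻¹

theorem C1u_ip_psi {n : ℕ} (p : Fin n → ℂ) (s c S : ℝ) (hS : S = ∑ i, ‖p i‖ ^ 2)
    (z : Fin n → ℂ) : ip (C1u_psi p s c z) p =
      ((1 - c * ip z p) * S - s * ip z p) * (1 - ip z p)⁻¹ := by
  have h1 : ip (C1u_psi p s c z) p = ((1 - c * ip z p) * ip p p - s * ip z p) * (1 - ip z p)⁻¹ := by
    have e : ∀ i, C1u_psi p s c z i * (starRingEnd ℂ) (p i) =
        ((1 - c * ip z p) * (p i * (starRingEnd ℂ) (p i)) -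
          s * (z i * (starRingEnd ℂ) (p i))) * (1 - ip z p)⁻¹ := by
      intro i
      unfold C1u_psi
      ring
    have h2 : ip (C1u_psi p s c z) p = ∑ i, C1u_psi p s c z i * (starRingEnd ℂ) (p i) := rfl
    rw [h2, Finset.sum_congr rfl fun i _ => e i, ← Finset.sum_mul, Finset.sum_sub_distrib,
      ← Finset.mul_sum, ← Finset.mul_sum]
    rfl
  rw [h1, C1u_ip_self, ← hS]

theorem C1u_normsq {n : ℕ} (p z : Fin n → ℂ) (a : ℂ) (s : ℝ) :
    ∑ i, ‖a * p i - s * z i‖ ^ 2 = ‖a‖ ^ 2 * ∑ i, ‖p i‖ ^ 2 -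
      2 * s * (a * (starRingEnd ℂ) (ip z p)).re + s ^ 2 * ∑ i, ‖z i‖ ^ 2 := by
  have e0 : (a * (starRingEnd ℂ) (ip z p)).re =
      ∑ i, (a * (starRingEnd ℂ) (z i * (starRingEnd ℂ) (p i))).re := by
    unfold ip
    rw [map_sum, Finset.mul_sum, Complex.re_sum]
  rw [e0, Finset.mul_sum, Finset.mul_sum, Finset.mul_sum,
    ← Finset.sum_sub_distrib, ← Finset.sum_add_distrib]
  refine Finset.sum_congr rfl fun i _ => ?_
  rw [← Complex.normSq_eq_norm_sq, ← Complex.normSq_eq_norm_sq, ← Complex.normSq_eq_norm_sq,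
    ← Complex.normSq_eq_norm_sq, Complex.normSq_sub, Complex.normSq_mul, Complex.normSq_mul,
    Complex.normSq_ofReal]
  have e : (a * p i * (starRingEnd ℂ) (s * z i)).re =
      s * (a * (starRingEnd ℂ) (z i * (starRingEnd ℂ) (p i))).re := by
    rw [map_mul, map_mul, Complex.conj_ofReal, Complex.conj_conj]
    have : a * p i * (s * (starRingEnd ℂ) (z i)) = (s : ℂ) * (a * ((starRingEnd ℂ) (z i) * p i)) := by
      ring
    rw [this, Complex.re_ofReal_mul]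
  rw [e]; ring

/-- C1u: uniform version of C1. -/
theorem C1u
    (h0 : ∀ (n : ℕ) (M : ℝ), ∃ C : ℝ, ∀ (f : (Fin n → ℂ) → ℂ), DifferentiableOn ℂ f (Ball n) →
      (∀ z ∈ Ball n, ‖f z‖ ≤ M) → ∃ g : Fin n → (Fin n → ℂ) → ℂ,
      (∀ i, DifferentiableOn ℂ (g i) (Ball n)) ∧ (∀ i, ∀ z ∈ Ball n, ‖g i z‖ ≤ C) ∧
      ∀ z ∈ Ball n, f z - f 0 = ∑ i, z i * g i z)
    (n : ℕ) (M : ℝ) (p : Fin n → ℂ) (hp : p ∈ Ball n) :
    ∃ C : ℝ, ∀ (f : (Fin n → ℂ) → ℂ), DifferentiableOn ℂ f (Ball n) →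
      (∀ z ∈ Ball n, ‖f z‖ ≤ M) → ∃ g : Fin n → (Fin n → ℂ) → ℂ,
      (∀ i, DifferentiableOn ℂ (g i) (Ball n)) ∧ (∀ i, ∀ z ∈ Ball n, ‖g i z‖ ≤ C) ∧
      ∀ z ∈ Ball n, f z - f p = ∑ i, (z i - p i) * g i z := by
  obtain ⟨S, hS⟩ : ∃ S : ℝ, S = ∑ i, ‖p i‖ ^ 2 := ⟨_, rfl⟩
  have hS0 : 0 ≤ S := by rw [hS]; exact Finset.sum_nonneg fun _ _ => by positivity
  have hS1 : S < 1 := by rw [hS]; exact hp
  obtain ⟨s, hs⟩ : ∃ s : ℝ, s = Real.sqrt (1 - S) := ⟨_, rfl⟩
  have hs0 : 0 < s := by rw [hs]; exact Real.sqrt_pos.mpr (by linarith)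
  have hs2 : s ^ 2 = 1 - S := by rw [hs]; exact Real.sq_sqrt (by linarith)
  obtain ⟨c, hc⟩ : ∃ c : ℝ, c = 1 / (1 + s) := ⟨_, rfl⟩
  have hc1 : c * (1 + s) = 1 := by rw [hc]; field_simp
  have hcS : c * S = 1 - s := by
    have : S = (1 - s) * (1 + s) := by linarith [hs2, sq s]
    rw [this]
    linear_combination (1 - s) * hc1
  have hc1' : (c : ℂ) * (1 + s) = 1 := by exact_mod_cast hc1
  have hcS' : (c : ℂ) * S = 1 - s := by exact_mod_cast hcS
  have hs2' : (s : ℂ) ^ 2 = 1 - S := by exact_mod_cast hs2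
  have hs0' : (s : ℂ) ≠ 0 := by exact_mod_cast hs0.ne'
  -- bounds for `u`
  have hu2 : ∀ z ∈ Ball n, ‖ip z p‖ ^ 2 ≤ S := by
    intro z hz
    have h1 := C1u_cs z p
    rw [← hS] at h1
    have h2 : ∑ i, ‖z i‖ ^ 2 < 1 := hz
    nlinarith
  have hu : ∀ z ∈ Ball n, ‖ip z p‖ ≤ Real.sqrt S := fun z hz =>
    Real.le_sqrt_of_sq_le (hu2 z hz)
  have hsq : Real.sqrt S < 1 := by
    rw [Real.sqrt_lt' one_pos]; linarith
  have hlow : ∀ z ∈ Ball n, 1 - Real.sqrt S ≤ ‖1 - ip z p‖ := by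
    intro z hz
    have h1 := norm_sub_norm_le (1 : ℂ) (ip z p)
    rw [norm_one] at h1
    have := hu z hz
    linarith
  have hne : ∀ z ∈ Ball n, 1 - ip z p ≠ 0 := by
    intro z hz h
    have h1 := hlow z hz
    rw [h, norm_zero] at h1
    linarith
  -- `ψ` maps the ball to itself
  have hpsi : ∀ z ∈ Ball n, C1u_psi p s c z ∈ Ball n := by
    intro z hz
    have h2 : ∑ i, ‖z i‖ ^ 2 < 1 := hz
    have h3 : 0 < ‖1 - ip z p‖ ^ 2 := by
      have := norm_pos_iff.mpr (hne z hz)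
      positivity
    have h4 : ∑ i, ‖C1u_psi p s c z i‖ ^ 2 =
        (∑ i, ‖(1 - c * ip z p) * p i - s * z i‖ ^ 2) * (‖1 - ip z p‖ ^ 2)⁻¹ := by
      rw [Finset.sum_mul]
      refine Finset.sum_congr rfl fun i _ => ?_
      unfold C1u_psi
      rw [norm_mul, mul_pow, norm_inv, inv_pow]
    show ∑ i, ‖C1u_psi p s c z i‖ ^ 2 < 1
    rw [h4, ← div_eq_mul_inv, div_lt_one h3, C1u_normsq, ← hS]
    have e1 : ‖1 - c * ip z p‖ ^ 2 = 1 - 2 * c * (ip z p).re + c ^ 2 * ‖ip z p‖ ^ 2 := by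
      rw [← Complex.normSq_eq_norm_sq, ← Complex.normSq_eq_norm_sq, Complex.normSq_apply,
        Complex.normSq_apply, Complex.sub_re, Complex.sub_im, Complex.re_ofReal_mul,
        Complex.im_ofReal_mul, Complex.one_re, Complex.one_im]
      ring
    have e2 : ‖1 - ip z p‖ ^ 2 = 1 - 2 * (ip z p).re + ‖ip z p‖ ^ 2 := by
      rw [← Complex.normSq_eq_norm_sq, ← Complex.normSq_eq_norm_sq, Complex.normSq_apply,
        Complex.normSq_apply, Complex.sub_re, Complex.sub_im, Complex.one_re, Complex.one_im]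
      ring
    have e3 : ((1 - c * ip z p) * (starRingEnd ℂ) (ip z p)).re =
        (ip z p).re - c * ‖ip z p‖ ^ 2 := by
      have : (1 - c * ip z p) * (starRingEnd ℂ) (ip z p) =
          (starRingEnd ℂ) (ip z p) - c * ((‖ip z p‖ ^ 2 : ℝ) : ℂ) := by
        have h5 := Complex.mul_conj' (ip z p)
        push_cast
        rw [← h5]; ring
      rw [this, Complex.sub_re, Complex.conj_re, Complex.re_ofReal_mul, Complex.ofReal_re]
    rw [e1, e2, e3]
    have h6 : (1 - 2 * c * (ip z p).re + c ^ 2 * ‖ip z p‖ ^ 2) * S -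
        2 * s * ((ip z p).re - c * ‖ip z p‖ ^ 2) + s ^ 2 * ∑ i, ‖z i‖ ^ 2 =
        S - 2 * (ip z p).re + ‖ip z p‖ ^ 2 + s ^ 2 * ∑ i, ‖z i‖ ^ 2 := by
      linear_combination (-2 * (ip z p).re + c * ‖ip z p‖ ^ 2) * hcS + (‖ip z p‖ ^ 2) * hc1
    rw [h6]
    have h7 : s ^ 2 * ∑ i, ‖z i‖ ^ 2 < s ^ 2 := by
      have : 0 < s ^ 2 := by positivity
      nlinarith
    linarith
  -- `ψ` is an involution
  have hinv : ∀ z ∈ Ball n, C1u_psi p s c (C1u_psi p s c z) = z := by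
    intro z hz
    have hn := hne z hz
    have h1 : ip (C1u_psi p s c z) p = (S - ip z p) * (1 - ip z p)⁻¹ := by
      rw [C1u_ip_psi p s c S hS]
      congr 1
      linear_combination (-ip z p) * hcS'
    have h2 : 1 - ip (C1u_psi p s c z) p = s ^ 2 * (1 - ip z p)⁻¹ := by
      rw [h1, hs2']; field_simp; ring
    funext i
    show ((1 - c * ip (C1u_psi p s c z) p) * p i - s * C1u_psi p s c z i) *
      (1 - ip (C1u_psi p s c z) p)⁻¹ = z i
    rw [h2, h1]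
    show ((1 - c * ((S - ip z p) * (1 - ip z p)⁻¹)) * p i -
      s * (((1 - c * ip z p) * p i - s * z i) * (1 - ip z p)⁻¹)) *
      (s ^ 2 * (1 - ip z p)⁻¹)⁻¹ = z i
    generalize ip z p = u at hn
    field_simp
    linear_combination (p i * (-1)) * hcS' + (p i * u) * hc1'
  have hzero : C1u_psi p s c 0 = p := by
    funext i
    have : ip (0 : Fin n → ℂ) p = 0 := by unfold ip; simp
    unfold C1u_psi
    rw [this]; simp
  have h0B : (0 : Fin n → ℂ) ∈ Ball n := by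
    show ∑ i, ‖(0 : Fin n → ℂ) i‖ ^ 2 < 1
    simp
  have hdpsi : DifferentiableOn ℂ (C1u_psi p s c) (Ball n) := by
    rw [differentiableOn_pi]
    intro i
    unfold C1u_psi
    refine DifferentiableOn.mul ?_ ?_
    · have h1 := (C1u_ipd p)
      have : Differentiable ℂ (fun z : Fin n → ℂ => (1 - (c : ℂ) * ip z p) * p i - s * z i) := by
        fun_prop
      exact this.differentiableOn
    · exact DifferentiableOn.inv (by
        have h1 := (C1u_ipd p)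
        have : Differentiable ℂ (fun z : Fin n → ℂ => 1 - ip z p) := by fun_prop
        exact this.differentiableOn) hne
  have hpj : ∀ j, ‖p j‖ ≤ 1 := by
    intro j
    have h1 : ‖p j‖ ^ 2 ≤ ∑ i, ‖p i‖ ^ 2 :=
      Finset.single_le_sum (f := fun i => ‖p i‖ ^ 2) (fun i _ => by positivity) (Finset.mem_univ j)
    have h2 : ‖p j‖ ^ 2 ≤ 1 := by linarith [hS]
    have h3 := norm_nonneg (p j)
    nlinarith
  have hinvd : DifferentiableOn ℂ (fun z : Fin n → ℂ => (1 - ip z p)⁻¹) (Ball n) :=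
    DifferentiableOn.inv (by
        have h1 := (C1u_ipd p)
        have : Differentiable ℂ (fun z : Fin n → ℂ => 1 - ip z p) := by fun_prop
        exact this.differentiableOn) hne
  obtain ⟨C0, hC0⟩ := h0 n M
  refine ⟨(|c| * (∑ i, ‖p i‖ * |C0|) + |s| * |C0|) * (1 - Real.sqrt S)⁻¹, fun f hf hM => ?_⟩
  have hfd : DifferentiableOn ℂ (fun z => f (C1u_psi p s c z)) (Ball n) := hf.comp hdpsi hpsi
  obtain ⟨g, hg, hgb, hg'⟩ := hC0 (fun z => f (C1u_psi p s c z)) hfd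
    (fun z hz => hM _ (hpsi z hz))
  have hgd : ∀ i, DifferentiableOn ℂ (fun z => g i (C1u_psi p s c z)) (Ball n) :=
    fun i => (hg i).comp hdpsi hpsi
  have hgn : ∀ i, ∀ z ∈ Ball n, ‖g i (C1u_psi p s c z)‖ ≤ |C0| :=
    fun i z hz => (hgb i _ (hpsi z hz)).trans (le_abs_self _)
  refine ⟨fun j z => ((-(c : ℂ) * (starRingEnd ℂ) (p j)) *
    (∑ i, p i * g i (C1u_psi p s c z)) + (-(s : ℂ)) * g j (C1u_psi p s c z)) * (1 - ip z p)⁻¹,
    fun j => ?_, fun j z hz => ?_, fun z hz => ?_⟩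
  · have hsum : DifferentiableOn ℂ (fun z => ∑ i, p i * g i (C1u_psi p s c z)) (Ball n) :=
      DifferentiableOn.fun_sum (fun i _ => (hgd i).const_mul (p i))
    exact (((hsum.const_mul _).add ((hgd j).const_mul _)).mul hinvd)
  · have h1 : ‖(1 - ip z p)⁻¹‖ ≤ (1 - Real.sqrt S)⁻¹ := by
      rw [norm_inv]
      exact inv_anti₀ (by linarith) (hlow z hz)
    have h2 : ‖(-(c : ℂ) * (starRingEnd ℂ) (p j)) * (∑ i, p i * g i (C1u_psi p s c z)) +
        (-(s : ℂ)) * g j (C1u_psi p s c z)‖ ≤ |c| * (∑ i, ‖p i‖ * |C0|) + |s| * |C0| := by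
      refine (norm_add_le _ _).trans (add_le_add ?_ ?_)
      · rw [norm_mul, norm_mul, norm_neg, RCLike.norm_conj, Complex.norm_real, Real.norm_eq_abs]
        have h3 : ‖∑ i, p i * g i (C1u_psi p s c z)‖ ≤ ∑ i, ‖p i‖ * |C0| :=
          (norm_sum_le _ _).trans (Finset.sum_le_sum fun i _ => by
            rw [norm_mul]; exact mul_le_mul_of_nonneg_left (hgn i z hz) (norm_nonneg _))
        have h4 : |c| * ‖p j‖ ≤ |c| * 1 := mul_le_mul_of_nonneg_left (hpj j) (abs_nonneg _)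
        have h5 : |c| * ‖p j‖ ≤ |c| := by linarith
        exact mul_le_mul h5 h3 (norm_nonneg _) (abs_nonneg _)
      · rw [norm_mul, norm_neg, Complex.norm_real, Real.norm_eq_abs]
        exact mul_le_mul_of_nonneg_left (hgn j z hz) (abs_nonneg _)
    rw [norm_mul]
    refine mul_le_mul h2 h1 (norm_nonneg _) ?_
    have : 0 ≤ ∑ i, ‖p i‖ * |C0| := Finset.sum_nonneg fun i _ => by positivity
    positivity
  · have h1 := hg' (C1u_psi p s c z) (hpsi z hz)
    simp only [hinv z hz, hzero] at h1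
    rw [h1]
    -- the numerator
    have h2 : ∀ i, C1u_psi p s c z i = (-(c : ℂ) * p i * (∑ j, (z j - p j) * (starRingEnd ℂ) (p j)) -
        s * (z i - p i)) * (1 - ip z p)⁻¹ := by
      intro i
      have h3 : ∑ j, (z j - p j) * (starRingEnd ℂ) (p j) = ip z p - S := by
        have h4 : ip z p - ip p p = ∑ j, (z j - p j) * (starRingEnd ℂ) (p j) := by
          unfold ip
          rw [← Finset.sum_sub_distrib]
          exact Finset.sum_congr rfl fun j _ => by ring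
        rw [← h4, C1u_ip_self, ← hS]
      rw [h3]
      show ((1 - c * ip z p) * p i - s * z i) * (1 - ip z p)⁻¹ = _
      congr 1
      linear_combination (-(p i)) * hcS'
    set T := ∑ j, (z j - p j) * (starRingEnd ℂ) (p j) with hT
    set U := ∑ i, p i * g i (C1u_psi p s c z) with hU
    calc ∑ i, C1u_psi p s c z i * g i (C1u_psi p s c z)
        = ∑ i, (-(c : ℂ) * T * (1 - ip z p)⁻¹ * (p i * g i (C1u_psi p s c z)) +
          (-(s : ℂ)) * (1 - ip z p)⁻¹ * ((z i - p i) * g i (C1u_psi p s c z))) := by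
          refine Finset.sum_congr rfl fun i _ => ?_
          rw [h2 i]; ring
      _ = -(c : ℂ) * T * (1 - ip z p)⁻¹ * U + ∑ i, (-(s : ℂ)) * (1 - ip z p)⁻¹ *
          ((z i - p i) * g i (C1u_psi p s c z)) := by
          rw [Finset.sum_add_distrib, ← Finset.mul_sum]
      _ = ∑ j, (-(c : ℂ) * (1 - ip z p)⁻¹ * U * ((z j - p j) * (starRingEnd ℂ) (p j)) +
          (-(s : ℂ)) * (1 - ip z p)⁻¹ * ((z j - p j) * g j (C1u_psi p s c z))) := by
          rw [Finset.sum_add_distrib]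
          simp only [← Finset.mul_sum]
          rw [← hT]
          ring
      _ = _ := by
          refine Finset.sum_congr rfl fun j _ => ?_
          ring

end Pool.Agent.H790R4
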