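import Mathlib
import Pool.Agent.H790R4.Defs
set_option autoImplicit false

open Metric Set Filter Topology

namespace Pool.Agent.H790R4

theorem E6_cs {n : ℕ} (z p : Fin n → ℂ) :
    ‖ip z p‖ ^ 2 ≤ (∑ i, ‖z i‖ ^ 2) * ∑ i, ‖p i‖ ^ 2 := by
  have h1 : ‖ip z p‖ ≤ ∑ i, ‖z i‖ * ‖p i‖ := by
    unfold ip
    refine (norm_sum_le _ _).trans (le_of_eq ?_)
    refine Finset.sum_congr rfl fun i _ => ?_
    rw [norm_mul, RCLike.norm_conj]
  calc ‖ip z p‖ ^ 2 ≤ (∑ i, ‖z i‖ * ‖p i‖) ^ 2 := pow_le_pow_left₀ (norm_nonneg _) h1 2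
    _ ≤ _ := Finset.sum_mul_sq_le_sq_mul_sq _ _ _

theorem E6_ip_lt {n : ℕ} (p : Fin n → ℂ) (hp : ∑ i, ‖p i‖ ^ 2 = 1) (z : Fin n → ℂ)
    (hz : z ∈ Ball n) : ‖ip z p‖ < 1 := by
  have h1 := E6_cs z p
  rw [hp, mul_one] at h1
  have h2 : ∑ i, ‖z i‖ ^ 2 < 1 := hz
  have h3 : ‖ip z p‖ ^ 2 < 1 ^ 2 := by linarith
  exact lt_of_pow_lt_pow_left₀ 2 zero_le_one h3

theorem E6_near {n : ℕ} (p : Fin n → ℂ) (hp : ∑ i, ‖p i‖ ^ 2 = 1) (P : (Fin n → ℂ) → Prop)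
    (h : ∀ᶠ z in 𝓝[Ball n] p, P z) :
    ∃ θ : ℝ, 0 < θ ∧ ∀ z ∈ Ball n, ‖1 - ip z p‖ < θ → P z := by
  rw [eventually_nhdsWithin_iff, Metric.eventually_nhds_iff] at h
  obtain ⟨ε, hε, h⟩ := h
  refine ⟨ε ^ 2 / 2, by positivity, fun z hz hu => ?_⟩
  have hz' : ∑ i, ‖z i‖ ^ 2 < 1 := hz
  have h1 : ∑ i, ‖z i - p i‖ ^ 2 = ∑ i, ‖z i‖ ^ 2 + 1 - 2 * (ip z p).re := by
    rw [← hp, ← Finset.sum_add_distrib]
    unfold ip
    rw [Complex.re_sum, Finset.mul_sum, ← Finset.sum_sub_distrib]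
    refine Finset.sum_congr rfl fun i _ => ?_
    rw [← Complex.normSq_eq_norm_sq, ← Complex.normSq_eq_norm_sq, ← Complex.normSq_eq_norm_sq,
      Complex.normSq_sub]
  have h2 : 1 - (ip z p).re ≤ ‖1 - ip z p‖ := by
    have h3 := Complex.re_le_norm (1 - ip z p)
    rw [Complex.sub_re, Complex.one_re] at h3
    exact h3
  have h4 : ∑ i, ‖z i - p i‖ ^ 2 < ε ^ 2 := by
    rw [h1]
    linarith
  apply h _ hz
  rw [dist_eq_norm, pi_norm_lt_iff hε]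
  intro i
  have h5 : ‖z i - p i‖ ^ 2 ≤ ∑ i, ‖z i - p i‖ ^ 2 :=
    Finset.single_le_sum (f := fun i => ‖z i - p i‖ ^ 2) (fun i _ => by positivity)
      (Finset.mem_univ i)
  exact lt_of_pow_lt_pow_left₀ 2 hε.le (h5.trans_lt h4)

theorem E6_para (u : ℂ) : ‖1 + u‖ ^ 2 + ‖1 - u‖ ^ 2 = 2 + 2 * ‖u‖ ^ 2 := by
  rw [← Complex.normSq_eq_norm_sq, ← Complex.normSq_eq_norm_sq, ← Complex.normSq_eq_norm_sq,
    Complex.normSq_apply, Complex.normSq_apply, Complex.normSq_apply]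
  simp only [Complex.add_re, Complex.add_im, Complex.sub_re, Complex.sub_im, Complex.one_re,
    Complex.one_im]
  ring

theorem E6_ipza {n : ℕ} (a z : Fin n → ℂ) (r : ℝ) (hr : 0 ≤ r) (h : r ^ 2 = ∑ i, ‖a i‖ ^ 2)
    (hz : ∑ i, ‖z i‖ ^ 2 ≤ 1) : ‖ip z a‖ ≤ r := by
  have h1 := E6_cs z a
  rw [← h] at h1
  have h2 : ‖ip z a‖ ^ 2 ≤ r ^ 2 := h1.trans (mul_le_of_le_one_left (sq_nonneg r) hz)
  exact le_of_sq_le_sq h2 hr

theorem E6_ip_symm {n : ℕ} (a p : Fin n → ℂ) : ‖ip a p‖ = ‖ip p a‖ := by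
  have : ip p a = (starRingEnd ℂ) (ip a p) := by
    unfold ip
    rw [map_sum]
    refine Finset.sum_congr rfl fun i _ => ?_
    rw [map_mul, Complex.conj_conj, mul_comm]
  rw [this, RCLike.norm_conj]

theorem E6_ip_self {n : ℕ} (a : Fin n → ℂ) : ip a a = ((∑ i, ‖a i‖ ^ 2 : ℝ) : ℂ) := by
  unfold ip
  push_cast
  refine Finset.sum_congr rfl fun i _ => ?_
  rw [Complex.mul_conj, Complex.normSq_eq_norm_sq]
  push_cast
  rfl

theorem E6_et (t : ℝ) (ht : 0 < t) (u : ℂ) (hu : ‖u‖ < 1) :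
    t ≤ ‖1 - u + (t : ℂ)‖ ∧ ‖1 - u‖ ≤ ‖1 - u + (t : ℂ)‖ := by
  have hre : 0 ≤ (1 - u).re := by
    have h1 := Complex.re_le_norm u
    rw [Complex.sub_re, Complex.one_re]
    linarith
  constructor
  · have h2 := Complex.re_le_norm (1 - u + (t : ℂ))
    rw [Complex.add_re, Complex.ofReal_re] at h2
    linarith
  · apply le_of_sq_le_sq _ (norm_nonneg _)
    rw [← Complex.normSq_eq_norm_sq, ← Complex.normSq_eq_norm_sq, Complex.normSq_apply,
      Complex.normSq_apply, Complex.add_re, Complex.add_im, Complex.ofReal_re, Complex.ofReal_im]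
    nlinarith


/-- bounded families of holomorphic functions -/
def E6_FB (S : Type) (n : ℕ) (f : S → (Fin n → ℂ) → ℂ) : Prop :=
  (∀ s, DifferentiableOn ℂ (f s) (Ball n)) ∧ ∃ C : ℝ, ∀ s, ∀ z ∈ Ball n, ‖f s z‖ ≤ C

theorem E6_bh_const (S : Type) (n : ℕ) (c : ℂ) : E6_FB S n (fun _ _ => c) :=
  ⟨fun _ => differentiableOn_const c, ‖c‖, fun _ _ _ => le_rfl⟩

theorem E6_bh_cs (S : Type) (n : ℕ) (c : S → ℂ) (C : ℝ) (h : ∀ s, ‖c s‖ ≤ C) :
    E6_FB S n (fun s _ => c s) :=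
  ⟨fun _ => differentiableOn_const _, C, fun s _ _ => h s⟩

theorem E6_bh_add {S : Type} {n : ℕ} {f g : S → (Fin n → ℂ) → ℂ} (hf : E6_FB S n f)
    (hg : E6_FB S n g) : E6_FB S n (fun s z => f s z + g s z) := by
  obtain ⟨h1, C1, h2⟩ := hf
  obtain ⟨h3, C2, h4⟩ := hg
  exact ⟨fun s => (h1 s).add (h3 s), C1 + C2,
    fun s z hz => (norm_add_le _ _).trans (add_le_add (h2 s z hz) (h4 s z hz))⟩

theorem E6_bh_mul {S : Type} {n : ℕ} {f g : S → (Fin n → ℂ) → ℂ} (hf : E6_FB S n f)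
    (hg : E6_FB S n g) : E6_FB S n (fun s z => f s z * g s z) := by
  obtain ⟨h1, C1, h2⟩ := hf
  obtain ⟨h3, C2, h4⟩ := hg
  refine ⟨fun s => (h1 s).mul (h3 s), C1 * C2, fun s z hz => ?_⟩
  rw [norm_mul]
  exact mul_le_mul (h2 s z hz) (h4 s z hz) (norm_nonneg _) ((norm_nonneg _).trans (h2 s z hz))

theorem E6_bh_coord (S : Type) (n : ℕ) (i : Fin n) : E6_FB S n (fun _ z => z i) := by
  refine ⟨fun _ => (differentiable_apply i).differentiableOn, 1, fun _ z hz => ?_⟩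
  have h1 : ‖z i‖ ^ 2 ≤ ∑ i, ‖z i‖ ^ 2 :=
    Finset.single_le_sum (f := fun i => ‖z i‖ ^ 2) (fun i _ => by positivity) (Finset.mem_univ i)
  have h2 : ∑ i, ‖z i‖ ^ 2 < 1 := hz
  have h3 : ‖z i‖ ^ 2 ≤ 1 ^ 2 := by linarith
  exact le_of_sq_le_sq h3 zero_le_one

theorem E6_bh_sum {S : Type} {n : ℕ} {ι : Type} (s : Finset ι) (f : ι → S → (Fin n → ℂ) → ℂ)
    (hf : ∀ i, E6_FB S n (f i)) : E6_FB S n (fun σ z => ∑ i ∈ s, f i σ z) := by
  classical
  induction s using Finset.induction_on with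
  | empty =>
    simp only [Finset.sum_empty]
    exact E6_bh_const S n 0
  | insert a s ha ih =>
    simp only [Finset.sum_insert ha]
    exact E6_bh_add (hf a) ih

theorem E6_bh_pow {S : Type} {n : ℕ} {f : S → (Fin n → ℂ) → ℂ} (hf : E6_FB S n f) (j : ℕ) :
    E6_FB S n (fun s z => f s z ^ j) := by
  induction j with
  | zero =>
    simp only [pow_zero]
    exact E6_bh_const S n 1
  | succ j ih =>
    simp only [pow_succ]
    exact E6_bh_mul ih hf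

theorem E6_bh_ip (S : Type) (n : ℕ) (p : Fin n → ℂ) : E6_FB S n (fun _ z => ip z p) := by
  unfold ip
  exact E6_bh_sum Finset.univ (fun i _ z => z i * (starRingEnd ℂ) (p i))
    fun i => E6_bh_mul (E6_bh_coord S n i) (E6_bh_const S n _)

/-- properties of the character -/
structure E6_M (S : Type) (n : ℕ) (m : (S → (Fin n → ℂ) → ℂ) → ℂ) : Prop where
  add : ∀ f g, E6_FB S n f → E6_FB S n g → m (fun s z => f s z + g s z) = m f + m g
  mul : ∀ f g, E6_FB S n f → E6_FB S n g → m (fun s z => f s z * g s z) = m f * m g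
  const : ∀ c : ℂ, m (fun _ _ => c) = c
  congr : ∀ f g, E6_FB S n f → E6_FB S n g → (∀ s, ∀ z ∈ Ball n, f s z = g s z) → m f = m g
  norm : ∀ f, E6_FB S n f → ∀ C : ℝ, (∀ s, ∀ z ∈ Ball n, ‖f s z‖ ≤ C) → ‖m f‖ ≤ C

theorem E6_m_sum {S : Type} {n : ℕ} {m : (S → (Fin n → ℂ) → ℂ) → ℂ} (hm : E6_M S n m)
    {ι : Type} (s : Finset ι)
    (f : ι → S → (Fin n → ℂ) → ℂ) (hf : ∀ i, E6_FB S n (f i)) :
    m (fun σ z => ∑ i ∈ s, f i σ z) = ∑ i ∈ s, m (f i) := by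
  classical
  induction s using Finset.induction_on with
  | empty =>
    simp only [Finset.sum_empty]
    exact hm.const 0
  | insert a s ha ih =>
    simp only [Finset.sum_insert ha]
    rw [hm.add _ _ (hf a) (E6_bh_sum s f hf), ih]

theorem E6_m_pow {S : Type} {n : ℕ} {m : (S → (Fin n → ℂ) → ℂ) → ℂ} (hm : E6_M S n m)
    (f : S → (Fin n → ℂ) → ℂ)
    (hf : E6_FB S n f) (j : ℕ) : m (fun s z => f s z ^ j) = m f ^ j := by
  induction j with
  | zero =>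
    simp only [pow_zero]
    exact hm.const 1
  | succ j ih =>
    simp only [pow_succ]
    rw [hm.mul _ _ (E6_bh_pow hf j) hf, ih]

theorem E6_m_ip {S : Type} {n : ℕ} {m : (S → (Fin n → ℂ) → ℂ) → ℂ} (hm : E6_M S n m)
    (p : Fin n → ℂ) :
    m (fun _ z => ip z p) = ∑ i, m (fun _ z => z i) * (starRingEnd ℂ) (p i) := by
  unfold ip
  rw [E6_m_sum hm _ (fun i _ z => z i * (starRingEnd ℂ) (p i))
    (fun i => E6_bh_mul (E6_bh_coord S n i) (E6_bh_const S n _))]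
  refine Finset.sum_congr rfl fun i _ => ?_
  rw [hm.mul (fun _ z => z i) (fun _ _ => (starRingEnd ℂ) (p i)) (E6_bh_coord S n i)
    (E6_bh_const S n _), hm.const]

theorem E6_m_ip_self {S : Type} {n : ℕ} {m : (S → (Fin n → ℂ) → ℂ) → ℂ} (hm : E6_M S n m)
    (p : Fin n → ℂ)
    (hp : ∀ i, p i = m (fun _ z => z i)) :
    m (fun _ z => ip z p) = ((∑ i, ‖p i‖ ^ 2 : ℝ) : ℂ) := by
  rw [E6_m_ip hm p]
  push_cast
  refine Finset.sum_congr rfl fun i _ => ?_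
  rw [← hp i, Complex.mul_conj, Complex.normSq_eq_norm_sq]
  push_cast
  rfl

theorem E6_le_one {S : Type} {n : ℕ} {m : (S → (Fin n → ℂ) → ℂ) → ℂ} (hm : E6_M S n m)
    (p : Fin n → ℂ)
    (hp : ∀ i, p i = m (fun _ z => z i)) : ∑ i, ‖p i‖ ^ 2 ≤ 1 := by
  set T := ∑ i, ‖p i‖ ^ 2 with hT
  have hS0 : 0 ≤ T := Finset.sum_nonneg fun i _ => by positivity
  have h1 := hm.norm _ (E6_bh_ip S n p) (Real.sqrt T) (by
    intro s z hz
    apply Real.le_sqrt_of_sq_le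
    refine (E6_cs z p).trans ?_
    have h2 : ∑ i, ‖z i‖ ^ 2 < 1 := hz
    exact mul_le_of_le_one_left hS0 h2.le)
  rw [E6_m_ip_self hm p hp, Complex.norm_real, Real.norm_of_nonneg hS0] at h1
  have h3 := Real.sq_sqrt hS0
  have h4 := Real.sqrt_nonneg T
  by_contra h5
  push Not at h5
  nlinarith

/-- the interior case -/
theorem E6_interior
    (hC : ∀ (n : ℕ) (M : ℝ) (p : Fin n → ℂ), p ∈ Ball n →
      ∃ C : ℝ, ∀ (f : (Fin n → ℂ) → ℂ), DifferentiableOn ℂ f (Ball n) →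
      (∀ z ∈ Ball n, ‖f z‖ ≤ M) → ∃ g : Fin n → (Fin n → ℂ) → ℂ,
      (∀ i, DifferentiableOn ℂ (g i) (Ball n)) ∧ (∀ i, ∀ z ∈ Ball n, ‖g i z‖ ≤ C) ∧
      ∀ z ∈ Ball n, f z - f p = ∑ i, (z i - p i) * g i z)
    {S : Type} {n : ℕ} {m : (S → (Fin n → ℂ) → ℂ) → ℂ} (hm : E6_M S n m) (p : Fin n → ℂ)
    (hp : ∀ i, p i = m (fun _ z => z i)) (hpB : p ∈ Ball n) (F : S → (Fin n → ℂ) → ℂ)
    (hF : E6_FB S n F) : m F = m (fun s _ => F s p) := by
  obtain ⟨hFd, M, hFM⟩ := hF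
  obtain ⟨C, hC'⟩ := hC n M p hpB
  choose g0 hg1 hg2 hg3 using fun s => hC' (F s) (hFd s) (hFM s)
  have hg : ∀ i, E6_FB S n (fun s z => g0 s i z) := fun i =>
    ⟨fun s => hg1 s i, C, fun s z hz => hg2 s i z hz⟩
  have hFp : E6_FB S n (fun s _ => F s p) := E6_bh_cs S n _ M fun s => hFM s p hpB
  have hterm : ∀ i, E6_FB S n (fun s z => (z i + (-p i)) * g0 s i z) := fun i =>
    E6_bh_mul (E6_bh_add (E6_bh_coord S n i) (E6_bh_const S n _)) (hg i)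
  have h1 : m F = m (fun s z => F s p + ∑ i, (z i + (-p i)) * g0 s i z) := by
    apply hm.congr _ _ ⟨hFd, M, hFM⟩
      (E6_bh_add hFp (E6_bh_sum _ (fun i s z => (z i + (-p i)) * g0 s i z) hterm))
    intro s z hz
    have h2 := hg3 s z hz
    have h3 : ∑ i, (z i + (-p i)) * g0 s i z = ∑ i, (z i - p i) * g0 s i z :=
      Finset.sum_congr rfl fun i _ => by ring
    rw [h3, ← h2]
    ring
  rw [h1, hm.add (fun s _ => F s p) _ hFp
    (E6_bh_sum _ (fun i s z => (z i + (-p i)) * g0 s i z) hterm),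
    E6_m_sum hm _ (fun i s z => (z i + (-p i)) * g0 s i z) hterm]
  have h4 : ∀ i, m (fun s z => (z i + (-p i)) * g0 s i z) = 0 := by
    intro i
    rw [hm.mul (fun _ z => z i + (-p i)) (fun s z => g0 s i z)
      (E6_bh_add (E6_bh_coord S n i) (E6_bh_const S n _))
      (hg i), hm.add (fun _ z => z i) (fun _ _ => -p i) (E6_bh_coord S n i) (E6_bh_const S n _),
      hm.const, ← hp i]
    ring
  rw [Finset.sum_congr rfl (fun i _ => h4 i), Finset.sum_const_zero, add_zero]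

/-- functions tending to zero at the peak point are killed by the character -/
theorem E6_kill {S : Type} {n : ℕ} {m : (S → (Fin n → ℂ) → ℂ) → ℂ} (hm : E6_M S n m) (p : Fin n → ℂ)
    (hp : ∀ i, p i = m (fun _ z => z i)) (hS : ∑ i, ‖p i‖ ^ 2 = 1) (κ : S → (Fin n → ℂ) → ℂ)
    (hκ : E6_FB S n κ) (θ : ℝ) (hθ : 0 < θ) (hs : ∀ s, ∀ z ∈ Ball n, ‖1 - ip z p‖ < θ → ‖κ s z‖ ≤ 1 / 2) :
    ‖m κ‖ ≤ 1 / 2 := by
  obtain ⟨C, hCκ⟩ := hκ.2
  set θ' := min θ 1 with hθ'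
  have hθ'0 : 0 < θ' := lt_min hθ one_pos
  have hθ'1 : θ' ≤ 1 := min_le_right _ _
  set ρ := 1 - θ' ^ 2 / 4 with hρ
  have hρ1 : ρ < 1 := by
    rw [hρ]
    have : 0 < θ' ^ 2 / 4 := by positivity
    linarith
  have hρ0 : 0 ≤ ρ := by
    rw [hρ]
    nlinarith
  obtain ⟨j, hj⟩ := exists_pow_lt_of_lt_one (show (0 : ℝ) < 1 / (2 * (|C| + 1)) by positivity) hρ1
  have he : E6_FB S n (fun _ z => (1 + ip z p) * (1 / 2)) :=
    E6_bh_mul (E6_bh_add (E6_bh_const S n 1) (E6_bh_ip S n p)) (E6_bh_const S n _)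
  have hme : m (fun _ z => (1 + ip z p) * (1 / 2)) = 1 := by
    rw [hm.mul (fun _ z => 1 + ip z p) (fun _ _ => 1 / 2)
      (E6_bh_add (E6_bh_const S n 1) (E6_bh_ip S n p)) (E6_bh_const S n _),
      hm.add (fun _ _ => 1) (fun _ z => ip z p) (E6_bh_const S n 1) (E6_bh_ip S n p), hm.const, hm.const,
      E6_m_ip_self hm p hp, hS]
    norm_num
  have hmk : m (fun s z => κ s z * ((1 + ip z p) * (1 / 2)) ^ (2 * j)) = m κ := by
    rw [hm.mul κ _ hκ (E6_bh_pow he (2 * j)), E6_m_pow hm _ he, hme, one_pow, mul_one]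
  rw [← hmk]
  apply hm.norm _ (E6_bh_mul hκ (E6_bh_pow he (2 * j)))
  intro s z hz
  have hu := E6_ip_lt p hS z hz
  have hpar := E6_para (ip z p)
  have hesq : ‖(1 + ip z p) * (1 / 2)‖ ^ 2 = ‖1 + ip z p‖ ^ 2 / 4 := by
    rw [norm_mul, mul_pow]
    norm_num
    ring
  have hu2 : ‖ip z p‖ ^ 2 ≤ 1 := pow_le_one₀ (norm_nonneg _) hu.le
  rw [norm_mul, norm_pow, pow_mul, hesq]
  have hnn : 0 ≤ ‖1 + ip z p‖ ^ 2 / 4 := by positivity
  by_cases hc : ‖1 - ip z p‖ < θ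
  · have h1 : ‖1 + ip z p‖ ^ 2 / 4 ≤ 1 := by
      have := sq_nonneg ‖1 - ip z p‖
      linarith
    have h2 : (‖1 + ip z p‖ ^ 2 / 4) ^ j ≤ 1 := pow_le_one₀ hnn h1
    calc ‖κ s z‖ * (‖1 + ip z p‖ ^ 2 / 4) ^ j ≤ ‖κ s z‖ * 1 :=
          mul_le_mul_of_nonneg_left h2 (norm_nonneg _)
      _ ≤ 1 / 2 := by rw [mul_one]; exact hs s z hz hc
  · push Not at hc
    have hc' : θ' ≤ ‖1 - ip z p‖ := (min_le_left _ _).trans hc
    have h3 : θ' ^ 2 ≤ ‖1 - ip z p‖ ^ 2 := pow_le_pow_left₀ hθ'0.le hc' 2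
    have h1 : ‖1 + ip z p‖ ^ 2 / 4 ≤ ρ := by
      rw [hρ]
      linarith
    have h2 : (‖1 + ip z p‖ ^ 2 / 4) ^ j ≤ ρ ^ j := pow_le_pow_left₀ hnn h1 j
    have h4 : ‖κ s z‖ ≤ |C| := (hCκ s z hz).trans (le_abs_self C)
    calc ‖κ s z‖ * (‖1 + ip z p‖ ^ 2 / 4) ^ j ≤ |C| * (1 / (2 * (|C| + 1))) :=
          mul_le_mul h4 (h2.trans hj.le) (pow_nonneg hnn j) (abs_nonneg C)
      _ ≤ 1 / 2 := by
          rw [mul_one_div, div_le_div_iff₀ (by positivity) (by norm_num)]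
          linarith



/-- uniform bounds for `1 - lam a p z` -/
theorem E6_lam (ρ : ℝ) (hρ : ρ < 1) :
    ∃ c C : ℝ, 0 < c ∧ 0 < C ∧ ∀ (n : ℕ) (a p : Fin n → ℂ), ∑ i, ‖a i‖ ^ 2 ≤ ρ →
      ∑ i, ‖p i‖ ^ 2 = 1 →
      (∀ z ∈ Ball n, c * ‖1 - ip z p‖ ≤ ‖1 - lam a p z‖) ∧
      ∀ z ∈ Ball n, ‖1 - lam a p z‖ ≤ C * ‖1 - ip z p‖ := by
  set r : ℝ := Real.sqrt (max ρ 0) with hrdef
  have hr0 : 0 ≤ r := Real.sqrt_nonneg _
  have hr2' : r ^ 2 = max ρ 0 := Real.sq_sqrt (le_max_right _ _)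
  have hr21 : r ^ 2 < 1 := by rw [hr2']; exact max_lt hρ one_pos
  have hr1 : r < 1 := by
    by_contra h
    push Not at h
    nlinarith
  have hr' : 0 < 1 - r := by linarith
  have hr2 : 0 < 1 - r ^ 2 := by linarith
  refine ⟨(1 - r ^ 2) / 4, 1 / ((1 - r) * (1 - r)), by positivity, by positivity, ?_⟩
  intro n a p ha hp
  have har : ∑ i, ‖a i‖ ^ 2 ≤ r ^ 2 := by rw [hr2']; exact ha.trans (le_max_left _ _)
  have ha0 : 0 ≤ ∑ i, ‖a i‖ ^ 2 := Finset.sum_nonneg fun i _ => by positivity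
  have key : ∀ z : Fin n → ℂ, ∑ i, ‖z i‖ ^ 2 ≤ 1 → ‖ip z a‖ ≤ r := by
    intro z hz
    have h1 := E6_cs z a
    have h2 : ‖ip z a‖ ^ 2 ≤ r ^ 2 :=
      h1.trans ((mul_le_of_le_one_left ha0 hz).trans har)
    exact le_of_sq_le_sq h2 hr0
  have h1 : ∀ z ∈ Ball n, ‖ip z a‖ ≤ r := fun z hz => key z (le_of_lt hz)
  have h2 : ‖ip a p‖ ≤ r := by
    rw [E6_ip_symm]
    exact key p hp.le
  have lo : ∀ w : ℂ, ‖w‖ ≤ r → 1 - r ≤ ‖1 - w‖ := by
    intro w hw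
    have h3 := norm_sub_norm_le (1 : ℂ) w
    rw [norm_one] at h3
    linarith
  have up : ∀ w : ℂ, ‖w‖ ≤ r → ‖1 - w‖ ≤ 2 := by
    intro w hw
    have h3 := norm_sub_le (1 : ℂ) w
    rw [norm_one] at h3
    linarith
  set A := ∑ i, ‖a i‖ ^ 2 with hA
  have hA1 : 0 < 1 - A := by linarith
  have e0 : ‖1 - ip a a‖ = 1 - A := by
    rw [E6_ip_self, ← hA]
    have : (1 : ℂ) - ((A : ℝ) : ℂ) = ((1 - A : ℝ) : ℂ) := by push_cast; ring
    rw [this, Complex.norm_real, Real.norm_of_nonneg hA1.le]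
  have e1 : ∀ z, ‖1 - lam a p z‖ = (1 - A) * ‖1 - ip z p‖ / (‖1 - ip z a‖ * ‖1 - ip a p‖) := by
    intro z
    unfold lam
    rw [sub_sub_cancel, norm_div, norm_mul, norm_mul, e0]
  constructor
  · intro z hz
    rw [e1]
    have a1 := lo _ (h1 z hz)
    have a2 := lo _ h2
    have b1 := up _ (h1 z hz)
    have b2 := up _ h2
    have d0 : 0 < ‖1 - ip z a‖ * ‖1 - ip a p‖ := mul_pos (by linarith) (by linarith)
    rw [le_div_iff₀ d0]
    have d1 : ‖1 - ip z a‖ * ‖1 - ip a p‖ ≤ 2 * 2 :=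
      mul_le_mul b1 b2 (norm_nonneg _) (by norm_num)
    have d2 : 0 ≤ (1 - r ^ 2) / 4 * ‖1 - ip z p‖ := by positivity
    calc (1 - r ^ 2) / 4 * ‖1 - ip z p‖ * (‖1 - ip z a‖ * ‖1 - ip a p‖)
        ≤ (1 - r ^ 2) / 4 * ‖1 - ip z p‖ * (2 * 2) := mul_le_mul_of_nonneg_left d1 d2
      _ = (1 - r ^ 2) * ‖1 - ip z p‖ := by ring
      _ ≤ (1 - A) * ‖1 - ip z p‖ :=
          mul_le_mul_of_nonneg_right (by linarith) (norm_nonneg _)
  · intro z hz
    rw [e1]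
    have a1 := lo _ (h1 z hz)
    have a2 := lo _ h2
    have d1 : (1 - r) * (1 - r) ≤ ‖1 - ip z a‖ * ‖1 - ip a p‖ :=
      mul_le_mul a1 a2 hr'.le (norm_nonneg _)
    have d3 : 0 < (1 - r) * (1 - r) := by positivity
    have d4 : (1 - A) * ‖1 - ip z p‖ ≤ 1 * ‖1 - ip z p‖ :=
      mul_le_mul_of_nonneg_right (by linarith) (norm_nonneg _)
    rw [div_mul_eq_mul_div]
    exact div_le_div₀ (by positivity) d4 d3 d1

/-- E6: quantitative final assembly. -/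
theorem E6
    (hA : ∀ (S : Type) (n : ℕ) (K : ℕ) (F : Fin K → S → (Fin n → ℂ) → ℂ),
      (∀ k, (∀ s, DifferentiableOn ℂ (F k s) (Ball n)) ∧
        ∃ C : ℝ, ∀ s, ∀ z ∈ Ball n, ‖F k s z‖ ≤ C) →
      (¬ ∃ h : Fin K → S → (Fin n → ℂ) → ℂ,
        (∀ k, (∀ s, DifferentiableOn ℂ (h k s) (Ball n)) ∧
          ∃ C : ℝ, ∀ s, ∀ z ∈ Ball n, ‖h k s z‖ ≤ C) ∧
        ∀ s, ∀ z ∈ Ball n, ∑ k, F k s z * h k s z = 1) →
      ∃ (P : (S → (Fin n → ℂ) → ℂ) → Prop) (m : (S → (Fin n → ℂ) → ℂ) → ℂ),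
        (∀ f, P f ↔ (∀ s, DifferentiableOn ℂ (f s) (Ball n)) ∧
          ∃ C : ℝ, ∀ s, ∀ z ∈ Ball n, ‖f s z‖ ≤ C) ∧
        (∀ f g, P f → P g → m (fun s z => f s z + g s z) = m f + m g) ∧
        (∀ f g, P f → P g → m (fun s z => f s z * g s z) = m f * m g) ∧
        (∀ c : ℂ, m (fun _ _ => c) = c) ∧
        (∀ f g, P f → P g → (∀ s, ∀ z ∈ Ball n, f s z = g s z) → m f = m g) ∧
        (∀ f, P f → ∀ C : ℝ, (∀ s, ∀ z ∈ Ball n, ‖f s z‖ ≤ C) → ‖m f‖ ≤ C) ∧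
        ∀ k, m (F k) = 0)
    (hC : ∀ (n : ℕ) (M : ℝ) (p : Fin n → ℂ), p ∈ Ball n →
      ∃ C : ℝ, ∀ (f : (Fin n → ℂ) → ℂ), DifferentiableOn ℂ f (Ball n) →
      (∀ z ∈ Ball n, ‖f z‖ ≤ M) → ∃ g : Fin n → (Fin n → ℂ) → ℂ,
      (∀ i, DifferentiableOn ℂ (g i) (Ball n)) ∧ (∀ i, ∀ z ∈ Ball n, ‖g i z‖ ≤ C) ∧
      ∀ z ∈ Ball n, f z - f p = ∑ i, (z i - p i) * g i z)
    (hL : ∀ (n : ℕ) (a p : Fin (n + 1) → ℂ), a ∈ Ball (n + 1) → ∑ i, ‖p i‖ ^ 2 = 1 →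
      ∀ z ∈ Ball (n + 1), ‖lam a p z‖ < 1)
    (hD : ∀ (K : ℕ) (δ M : ℝ), 0 < δ → ∃ C : ℝ, 0 ≤ C ∧
      ∀ (n : ℕ) (a p : Fin (n + 1) → ℂ), a ∈ Ball (n + 1) → ∑ i, ‖p i‖ ^ 2 = 1 →
      ∀ (Φ : Fin K → ℂ → ℂ), (∀ k, DifferentiableOn ℂ (Φ k) (ball 0 1)) →
      (∀ k, ∀ x ∈ ball (0 : ℂ) 1, ‖Φ k x‖ ≤ M) →
      ∀ (G : (Fin (n + 1) → ℂ) → ℂ), DifferentiableOn ℂ G (Ball (n + 1)) →
      (∀ z ∈ Ball (n + 1), ‖G z‖ ≤ M) →
      (∀ z ∈ Ball (n + 1), δ ≤ (∑ k, ‖Φ k (lam a p z)‖) + ‖G z‖) →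
      ∃ (g : Fin K → (Fin (n + 1) → ℂ) → ℂ) (g₀ : (Fin (n + 1) → ℂ) → ℂ),
        (∀ k, DifferentiableOn ℂ (g k) (Ball (n + 1))) ∧ DifferentiableOn ℂ g₀ (Ball (n + 1)) ∧
        (∀ k, ∀ z ∈ Ball (n + 1), ‖g k z‖ ≤ C) ∧ (∀ z ∈ Ball (n + 1), ‖g₀ z‖ ≤ C) ∧
        ∀ z ∈ Ball (n + 1), ∑ k, Φ k (lam a p z) * g k z + G z * g₀ z = 1)
    (K : ℕ) (δ : ℝ) (hδ : 0 < δ) :
    ∃ ε : ℝ → ℝ, (∀ M, 0 < ε M) ∧ ∀ (n : ℕ) (S : Type) (f : Fin K → S → (Fin (n + 1) → ℂ) → ℂ),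
      (∀ k s, DifferentiableOn ℂ (f k s) (Ball (n + 1))) →
      (∀ k s, ∀ z ∈ Ball (n + 1), ‖f k s z‖ ≤ 1) →
      (∀ s, ∀ z ∈ Ball (n + 1), δ ≤ ∑ k, ‖f k s z‖) →
      (∀ p : Fin (n + 1) → ℂ, ∑ i, ‖p i‖ ^ 2 = 1 → ∃ r ρ M : ℝ, 0 < r ∧ ρ < 1 ∧ ∀ s,
        ∃ (j : Fin K) (a : Fin (n + 1) → ℂ) (F : Fin K → ℂ → ℂ), ∑ i, ‖a i‖ ^ 2 ≤ ρ ∧
          (∀ k, DifferentiableOn ℂ (F k) (ball 0 1)) ∧
          (∀ k, ∀ x ∈ ball (0 : ℂ) 1, ‖F k x‖ ≤ M) ∧
          ∀ k, k ≠ j → ∀ z ∈ Ball (n + 1), dist z p < r → ‖f k s z - F k (lam a p z)‖ ≤ ε M) →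
      ∃ C : ℝ, ∀ s, ∃ h : Fin K → (Fin (n + 1) → ℂ) → ℂ,
        (∀ k, DifferentiableOn ℂ (h k) (Ball (n + 1))) ∧
        (∀ k, ∀ z ∈ Ball (n + 1), ‖h k z‖ ≤ C) ∧
        ∀ z ∈ Ball (n + 1), ∑ k, f k s z * h k z = 1 := by
  classical
  have hδ1 : 0 < min (δ / 2) (1 / 2) := lt_min (by positivity) (by norm_num)
  choose Cf hCf0 hCf using fun M : ℝ => hD (K + 1) (min (δ / 2) (1 / 2)) (max M 1) hδ1
  have hK1 : (0 : ℝ) < K + 1 := by positivity
  have hCp : ∀ M, 0 < Cf M + 1 := fun M => by linarith [hCf0 M]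
  refine ⟨fun M => min (δ / (2 * (K + 1))) (1 / (4 * (K + 1) * (Cf M + 1))), fun M => ?_, ?_⟩
  · have := hCp M
    exact lt_min (by positivity) (by positivity)
  intro n S f hfd hf1 hcor hasym
  have hf : ∀ k, E6_FB S (n + 1) (f k) := fun k => ⟨hfd k, 1, hf1 k⟩
  by_contra hno'
  have hno : ¬ ∃ h : Fin K → S → (Fin (n + 1) → ℂ) → ℂ,
      (∀ k, (∀ s, DifferentiableOn ℂ (h k s) (Ball (n + 1))) ∧
        ∃ C : ℝ, ∀ s, ∀ z ∈ Ball (n + 1), ‖h k s z‖ ≤ C) ∧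
      ∀ s, ∀ z ∈ Ball (n + 1), ∑ k, f k s z * h k s z = 1 := by
    rintro ⟨h, h1, h2⟩
    choose hd Ck hCk using h1
    refine hno' ⟨∑ k, |Ck k|, fun s => ⟨fun k => h k s, fun k => hd k s, fun k z hz => ?_,
      h2 s⟩⟩
    refine (hCk k s z hz).trans ((le_abs_self _).trans ?_)
    exact Finset.single_le_sum (f := fun k => |Ck k|) (fun i _ => abs_nonneg _)
      (Finset.mem_univ k)
  obtain ⟨P, m, hP, m1, m2, m3, m4, m5, mf⟩ := hA S (n + 1) K f hf hno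
  have hm : E6_M S (n + 1) m :=
    ⟨fun f g h1 h2 => m1 f g ((hP f).2 h1) ((hP g).2 h2),
     fun f g h1 h2 => m2 f g ((hP f).2 h1) ((hP g).2 h2), m3,
     fun f g h1 h2 => m4 f g ((hP f).2 h1) ((hP g).2 h2),
     fun f h1 => m5 f ((hP f).2 h1)⟩
  obtain ⟨p, hp⟩ : ∃ p : Fin (n + 1) → ℂ, ∀ i, p i = m (fun _ z => z i) :=
    ⟨fun i => _, fun i => rfl⟩
  rcases lt_or_eq_of_le (E6_le_one hm p hp) with hlt | hS
  · have hpB : p ∈ Ball (n + 1) := hlt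
    have h1 : ∀ s, δ ≤ ∑ k, ‖f k s p‖ := fun s => hcor s p hpB
    have hfk1 : ∀ k s, ‖f k s p‖ ≤ 1 := fun k s => hf1 k s p hpB
    have h2 : ∀ k, m (fun s _ => f k s p) = 0 := fun k => by
      rw [← E6_interior hC hm p hp hpB (f k) (hf k)]
      exact mf k
    -- the denominators
    let D : S → ℝ := fun s => ∑ k, ‖f k s p‖ ^ 2
    have hDlow : ∀ s, δ ^ 2 ≤ K * D s := by
      intro s
      have h3 : (∑ k, ‖f k s p‖) ^ 2 ≤ K * ∑ k, ‖f k s p‖ ^ 2 := by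
        have := sq_sum_le_card_mul_sum_sq (s := (Finset.univ : Finset (Fin K)))
          (f := fun k => ‖f k s p‖)
        simpa using this
      exact (pow_le_pow_left₀ hδ.le (h1 s) 2).trans h3
    have hDpos : ∀ s, 0 < D s := by
      intro s
      have h3 := hDlow s
      have h4 : 0 < δ ^ 2 := by positivity
      have h5 : 0 ≤ D s := Finset.sum_nonneg fun i _ => by positivity
      rcases h5.lt_or_eq with h6 | h6
      · exact h6
      · rw [← h6, mul_zero] at h3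
        linarith
    let c : Fin K → S → ℂ := fun k s => (starRingEnd ℂ) (f k s p) / ((D s : ℝ) : ℂ)
    have hcn : ∀ k s, ‖c k s‖ ≤ K / δ ^ 2 := by
      intro k s
      have h3 := hDlow s
      have h4 := hDpos s
      show ‖(starRingEnd ℂ) (f k s p) / ((D s : ℝ) : ℂ)‖ ≤ _
      rw [norm_div, RCLike.norm_conj, Complex.norm_real, Real.norm_of_nonneg h4.le,
        div_le_div_iff₀ h4 (by positivity)]
      have h5 : ‖f k s p‖ * δ ^ 2 ≤ 1 * δ ^ 2 :=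
        mul_le_mul_of_nonneg_right (hfk1 k s) (by positivity)
      linarith
    have hcF : ∀ k, E6_FB S (n + 1) (fun s _ => c k s) := fun k =>
      E6_bh_cs S (n + 1) _ _ (hcn k)
    have hfF : ∀ k, E6_FB S (n + 1) (fun s _ => f k s p) := fun k =>
      E6_bh_cs S (n + 1) _ 1 (hfk1 k)
    have hone : m (fun s _ => ∑ k, f k s p * c k s) = 0 := by
      rw [E6_m_sum hm _ (fun k s _ => f k s p * c k s) fun k => E6_bh_mul (hfF k) (hcF k)]
      refine Finset.sum_eq_zero fun k _ => ?_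
      rw [hm.mul (fun s _ => f k s p) (fun s _ => c k s) (hfF k) (hcF k), h2 k, zero_mul]
    have hone' : (fun (s : S) (_ : Fin (n + 1) → ℂ) => ∑ k, f k s p * c k s) =
        fun _ _ => (1 : ℂ) := by
      funext s _
      have h4 : ((D s : ℝ) : ℂ) ≠ 0 := by
        exact_mod_cast (hDpos s).ne'
      have h5 : ∀ k, f k s p * c k s = ((‖f k s p‖ ^ 2 : ℝ) : ℂ) / ((D s : ℝ) : ℂ) := by
        intro k
        show f k s p * ((starRingEnd ℂ) (f k s p) / ((D s : ℝ) : ℂ)) = _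
        rw [← mul_div_assoc, Complex.mul_conj, Complex.normSq_eq_norm_sq]
      rw [Finset.sum_congr rfl fun k _ => h5 k, ← Finset.sum_div, div_eq_one_iff_eq h4,
        ← Complex.ofReal_sum]
    rw [hone', hm.const] at hone
    exact one_ne_zero hone
  -- the boundary case
  obtain ⟨r, ρ, M, hr, hρ, hs⟩ := hasym p hS
  choose j a F ha hFd hFb htend using hs
  obtain ⟨c, C, hc0, hC0, hcC⟩ := E6_lam ρ hρ
  have haB : ∀ s, a s ∈ Ball (n + 1) := fun s => lt_of_le_of_lt (ha s) hρ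
  have hlo : ∀ s, ∀ z ∈ Ball (n + 1), c * ‖1 - ip z p‖ ≤ ‖1 - lam (a s) p z‖ := fun s =>
    (hcC (n + 1) (a s) p (ha s) hS).1
  have hup : ∀ s, ∀ z ∈ Ball (n + 1), ‖1 - lam (a s) p z‖ ≤ C * ‖1 - ip z p‖ := fun s =>
    (hcC (n + 1) (a s) p (ha s) hS).2
  have hL' : ∀ s, ∀ z ∈ Ball (n + 1), ‖lam (a s) p z‖ < 1 := fun s => hL n (a s) p (haB s) hS
  set ε1 : ℝ := min (δ / (2 * (K + 1))) (1 / (4 * (K + 1) * (Cf M + 1))) with hε1
  have hCpM := hCp M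
  have hε10 : 0 < ε1 := lt_min (by positivity) (by positivity)
  let Ψ : S → Fin K → ℂ → ℂ := fun s k ζ => if k = j s then 0 else F s k ζ
  have hΨj : ∀ s ζ, Ψ s (j s) ζ = 0 := fun s ζ => if_pos rfl
  have hΨk : ∀ s k, k ≠ j s → ∀ ζ, Ψ s k ζ = F s k ζ := fun s k hk ζ => if_neg hk
  let f' : S → Fin K → (Fin (n + 1) → ℂ) → ℂ := fun s k z => if k = j s then 0 else f k s z
  have hfj : ∀ s z, f' s (j s) z = 0 := fun s z => if_pos rfl
  have hfk : ∀ s k, k ≠ j s → ∀ z, f' s k z = f k s z := fun s k hk z => if_neg hk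
  have hΨd : ∀ s k, DifferentiableOn ℂ (Ψ s k) (ball 0 1) := by
    intro s k
    by_cases hk : k = j s
    · have : Ψ s k = fun _ => 0 := by
        funext z
        rw [hk]
        exact hΨj s z
      rw [this]
      exact differentiableOn_const 0
    · have : Ψ s k = F s k := by
        funext z
        exact hΨk s k hk z
      rw [this]
      exact hFd s k
  have hM1 : (1 : ℝ) ≤ max M 1 := le_max_right _ _
  have hΨb : ∀ s k, ∀ x ∈ ball (0 : ℂ) 1, ‖Ψ s k x‖ ≤ max M 1 := by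
    intro s k x hx
    by_cases hk : k = j s
    · rw [hk, hΨj, norm_zero]
      linarith
    · rw [hΨk s k hk]
      exact (hFb s k x hx).trans (le_max_left _ _)
  -- closeness
  obtain ⟨θ0, hθ0, hn1⟩ : ∃ θ : ℝ, 0 < θ ∧ ∀ z ∈ Ball (n + 1), ‖1 - ip z p‖ < θ →
      dist z p < r := by
    apply E6_near p hS
    exact mem_nhdsWithin_of_mem_nhds (Metric.ball_mem_nhds p hr)
  have hn0 : ∀ s, ∀ z ∈ Ball (n + 1), ‖1 - ip z p‖ < θ0 →
      ∀ k, ‖f' s k z - Ψ s k (lam (a s) p z)‖ ≤ ε1 := by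
    intro s z hz hu k
    by_cases hk : k = j s
    · rw [hk, hfj, hΨj, sub_zero, norm_zero]
      exact hε10.le
    · rw [hfk s k hk, hΨk s k hk]
      exact htend s k hk z hz (hn1 z hz hu)
  set t : ℝ := c * θ0 with ht
  have ht0 : 0 < t := mul_pos hc0 hθ0
  let Et : ℂ → ℂ := fun ζ => (1 - ζ) / (1 - ζ + (t : ℂ))
  have hEt0 : ∀ x, ‖x‖ < 1 → 1 - x + (t : ℂ) ≠ 0 := by
    intro x hx h
    have h1 := (E6_et t ht0 x hx).1
    rw [h, norm_zero] at h1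
    linarith
  have hEtd : DifferentiableOn ℂ Et (ball 0 1) := by
    apply DifferentiableOn.div
    · fun_prop
    · fun_prop
    · intro x hx
      rw [mem_ball_zero_iff] at hx
      exact hEt0 x hx
  have hEtn : ∀ x, ‖Et x‖ = ‖1 - x‖ / ‖1 - x + (t : ℂ)‖ := fun x => norm_div _ _
  have hEtb : ∀ x ∈ ball (0 : ℂ) 1, ‖Et x‖ ≤ 1 := by
    intro x hx
    rw [mem_ball_zero_iff] at hx
    rw [hEtn, div_le_one (lt_of_lt_of_le ht0 (E6_et t ht0 x hx).1)]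
    exact (E6_et t ht0 x hx).2
  let Φ : S → Fin (K + 1) → ℂ → ℂ := fun s =>
    Fin.cons (α := fun _ => ℂ → ℂ) Et (Ψ s)
  have hΦd : ∀ s k, DifferentiableOn ℂ (Φ s k) (ball 0 1) := by
    intro s k
    refine Fin.cases ?_ ?_ k
    · exact hEtd
    · intro i
      exact hΨd s i
  have hΦb : ∀ s k, ∀ x ∈ ball (0 : ℂ) 1, ‖Φ s k x‖ ≤ max M 1 := by
    intro s k
    refine Fin.cases ?_ ?_ k
    · intro x hx
      exact (hEtb x hx).trans hM1
    · intro i x hx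
      exact hΨb s i x hx
  have hsplit : ∀ s z, ∑ k, ‖f k s z‖ = ∑ k, ‖f' s k z‖ + ‖f (j s) s z‖ := by
    intro s z
    have h1 : ∀ k, ‖f k s z‖ = ‖f' s k z‖ + if k = j s then ‖f (j s) s z‖ else 0 := by
      intro k
      by_cases hk : k = j s
      · rw [hk, hfj, norm_zero, zero_add, if_pos rfl]
      · rw [hfk s k hk, if_neg hk, add_zero]
    rw [Finset.sum_congr rfl fun k _ => h1 k, Finset.sum_add_distrib, Finset.sum_ite_eq']
    simp
  have hlow : ∀ s, ∀ z ∈ Ball (n + 1), min (δ / 2) (1 / 2) ≤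
      (∑ k, ‖Φ s k (lam (a s) p z)‖) + ‖f (j s) s z‖ := by
    intro s z hz
    rw [Fin.sum_univ_succ]
    simp only [Φ, Fin.cons_zero, Fin.cons_succ]
    have hnn1 : 0 ≤ ∑ k, ‖Ψ s k (lam (a s) p z)‖ := Finset.sum_nonneg fun _ _ => norm_nonneg _
    by_cases hc : ‖1 - ip z p‖ < θ0
    · refine (min_le_left _ _).trans ?_
      have h1 := hn0 s z hz hc
      have h0 : ε1 ≤ δ / (2 * (K + 1)) := min_le_left _ _
      have h2 : ∑ k, ‖f' s k z‖ ≤ ∑ k, ‖Ψ s k (lam (a s) p z)‖ + K * (δ / (2 * (K + 1))) := by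
        calc ∑ k, ‖f' s k z‖ ≤
              ∑ k : Fin K, (‖Ψ s k (lam (a s) p z)‖ + δ / (2 * (K + 1))) := by
              refine Finset.sum_le_sum fun k _ => ?_
              have h3 := h1 k
              have h4 := norm_sub_norm_le (f' s k z) (Ψ s k (lam (a s) p z))
              linarith
          _ = _ := by
              rw [Finset.sum_add_distrib, Finset.sum_const, Finset.card_univ, Fintype.card_fin,
                nsmul_eq_mul]
      have h5 : (K : ℝ) * (δ / (2 * (K + 1))) ≤ δ / 2 := by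
        rw [mul_div_assoc', div_le_div_iff₀ (by positivity) (by norm_num)]
        nlinarith
      have h6 := hcor s z hz
      rw [hsplit] at h6
      linarith [norm_nonneg (Et (lam (a s) p z))]
    · push Not at hc
      refine (min_le_right _ _).trans ?_
      have h7 := hlo s z hz
      have h8 : t ≤ c * ‖1 - ip z p‖ := mul_le_mul_of_nonneg_left hc hc0.le
      have h9 : t ≤ ‖1 - lam (a s) p z‖ := h8.trans h7
      have h10 := (E6_et t ht0 _ (hL' s z hz)).1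
      have h11 : ‖1 - lam (a s) p z + (t : ℂ)‖ ≤ ‖1 - lam (a s) p z‖ + t := by
        refine (norm_add_le _ _).trans ?_
        rw [Complex.norm_real, Real.norm_of_nonneg ht0.le]
      have h12 : 1 / 2 ≤ ‖Et (lam (a s) p z)‖ := by
        rw [hEtn, div_le_div_iff₀ (by norm_num) (lt_of_lt_of_le ht0 h10)]
        linarith
      linarith [norm_nonneg (f (j s) s z)]
  choose g g₀ hgd hg₀d hgM hg₀M hsum using fun s => hCf M n (a s) p (haB s) hS (Φ s) (hΦd s)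
    (hΦb s) (f (j s) s) (hfd (j s) s) (fun z hz => (hf1 (j s) s z hz).trans hM1) (hlow s)
  set Mg := Cf M with hMg
  have hMg0 : 0 ≤ Mg := hCf0 M
  let h : Fin K → S → (Fin (n + 1) → ℂ) → ℂ := fun k s z =>
    if k = j s then g₀ s z else g s k.succ z
  have hh : ∀ k, E6_FB S (n + 1) (h k) := by
    intro k
    refine ⟨fun s => ?_, Mg, fun s z hz => ?_⟩
    · by_cases hk : k = j s
      · have : h k s = g₀ s := by
          funext z
          exact if_pos hk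
        rw [this]
        exact hg₀d s
      · have : h k s = g s k.succ := by
          funext z
          exact if_neg hk
        rw [this]
        exact hgd s k.succ
    · by_cases hk : k = j s
      · have : h k s z = g₀ s z := if_pos hk
        rw [this]
        exact hg₀M s z hz
      · have : h k s z = g s k.succ z := if_neg hk
        rw [this]
        exact hgM s k.succ z hz
  have hr1 : ∀ k : Fin K, E6_FB S (n + 1) (fun s z => f k s z * h k s z) := fun k =>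
    E6_bh_mul (hf k) (hh k)
  let R : S → (Fin (n + 1) → ℂ) → ℂ := fun s z => ∑ k : Fin K, f k s z * h k s z
  have hR : E6_FB S (n + 1) R := E6_bh_sum _ (fun k s z => f k s z * h k s z) hr1
  have hmR : m R = 0 := by
    show m (fun s z => ∑ k : Fin K, f k s z * h k s z) = 0
    rw [E6_m_sum hm _ (fun k s z => f k s z * h k s z) hr1]
    refine Finset.sum_eq_zero fun k _ => ?_
    rw [hm.mul (f k) (h k) (hf k) (hh k), mf k, zero_mul]
  have hRe : ∀ s z, R s z = (∑ k : Fin K, f' s k z * g s k.succ z) + f (j s) s z * g₀ s z := by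
    intro s z
    have h1 : ∀ k, f k s z * h k s z =
        f' s k z * g s k.succ z + if k = j s then f (j s) s z * g₀ s z else 0 := by
      intro k
      by_cases hk : k = j s
      · have h2 : h k s z = g₀ s z := if_pos hk
        rw [h2, if_pos hk, hk, hfj, zero_mul, zero_add]
      · have h2 : h k s z = g s k.succ z := if_neg hk
        rw [h2, if_neg hk, hfk s k hk, add_zero]
    show ∑ k : Fin K, f k s z * h k s z = _
    rw [Finset.sum_congr rfl fun k _ => h1 k, Finset.sum_add_distrib, Finset.sum_ite_eq']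
    simp
  let κ : S → (Fin (n + 1) → ℂ) → ℂ := fun s z => 1 + (-1) * R s z
  have hκ : E6_FB S (n + 1) κ :=
    E6_bh_add (E6_bh_const S _ 1) (E6_bh_mul (E6_bh_const S _ (-1)) hR)
  have hmκ : m κ = 1 := by
    show m (fun s z => 1 + (-1) * R s z) = 1
    rw [hm.add (fun _ _ => 1) (fun s z => (-1) * R s z) (E6_bh_const S _ 1)
      (E6_bh_mul (E6_bh_const S _ (-1)) hR), hm.const,
      hm.mul (fun _ _ => -1) R (E6_bh_const S _ (-1)) hR, hmR, mul_zero, add_zero]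
  have hκe : ∀ s, ∀ z ∈ Ball (n + 1), κ s z = Et (lam (a s) p z) * g s 0 z +
      ∑ k : Fin K, (Ψ s k (lam (a s) p z) + (-1) * f' s k z) * g s k.succ z := by
    intro s z hz
    have h3 := hsum s z hz
    rw [Fin.sum_univ_succ] at h3
    simp only [Φ, Fin.cons_zero, Fin.cons_succ] at h3
    have h4 : ∑ k : Fin K, (Ψ s k (lam (a s) p z) + (-1) * f' s k z) * g s k.succ z =
        ∑ k : Fin K, Ψ s k (lam (a s) p z) * g s k.succ z -
          ∑ k : Fin K, f' s k z * g s k.succ z := by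
      rw [← Finset.sum_sub_distrib]
      exact Finset.sum_congr rfl fun k _ => by ring
    show 1 + (-1) * R s z = _
    rw [h4, hRe]
    linear_combination (-1) * h3
  have hkill := E6_kill hm p hp hS κ hκ (min θ0 (t / (4 * (Mg + 1)) / C))
    (lt_min hθ0 (by positivity)) (by
    intro s z hz hu
    rw [hκe s z hz]
    have hu1 := hn0 s z hz (hu.trans_le (min_le_left _ _))
    have hu2'' : ‖1 - ip z p‖ < t / (4 * (Mg + 1)) / C := hu.trans_le (min_le_right _ _)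
    have hu2' : ‖1 - lam (a s) p z‖ < t / (4 * (Mg + 1)) := by
      rw [lt_div_iff₀ hC0] at hu2''
      have := hup s z hz
      linarith
    have h10 := (E6_et t ht0 _ (hL' s z hz)).1
    have e0 : ‖Et (lam (a s) p z)‖ ≤ 1 / (4 * (Mg + 1)) := by
      rw [hEtn, div_le_div_iff₀ (lt_of_lt_of_le ht0 h10) (by positivity)]
      rw [lt_div_iff₀ (by positivity)] at hu2'
      linarith
    have e1 : ‖Et (lam (a s) p z) * g s 0 z‖ ≤ 1 / (4 * (Mg + 1)) * Mg := by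
      rw [norm_mul]
      exact mul_le_mul e0 (hgM s 0 z hz) (norm_nonneg _) (by positivity)
    have hεs : ε1 ≤ 1 / (4 * (K + 1) * (Mg + 1)) := min_le_right _ _
    have e3 : ‖∑ k : Fin K, (Ψ s k (lam (a s) p z) + (-1) * f' s k z) * g s k.succ z‖ ≤
        K * (1 / (4 * (K + 1) * (Mg + 1)) * Mg) := by
      refine (norm_sum_le _ _).trans ?_
      calc ∑ k : Fin K, ‖(Ψ s k (lam (a s) p z) + (-1) * f' s k z) * g s k.succ z‖ ≤
            ∑ _k : Fin K, 1 / (4 * ((K : ℝ) + 1) * (Mg + 1)) * Mg := by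
            refine Finset.sum_le_sum fun k _ => ?_
            rw [norm_mul]
            apply mul_le_mul _ (hgM s _ z hz) (norm_nonneg _) (by positivity)
            have e4 : Ψ s k (lam (a s) p z) + (-1) * f' s k z =
                -(f' s k z - Ψ s k (lam (a s) p z)) := by ring
            rw [e4, norm_neg]
            exact (hu1 k).trans hεs
        _ = K * (1 / (4 * (K + 1) * (Mg + 1)) * Mg) := by
            rw [Finset.sum_const, Finset.card_univ, Fintype.card_fin, nsmul_eq_mul]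
    have e5 : ‖Et (lam (a s) p z) * g s 0 z +
        ∑ k : Fin K, (Ψ s k (lam (a s) p z) + (-1) * f' s k z) * g s k.succ z‖ ≤
        1 / (4 * (Mg + 1)) * Mg + K * (1 / (4 * (K + 1) * (Mg + 1)) * Mg) :=
      (norm_add_le _ _).trans (add_le_add e1 e3)
    refine e5.trans ?_
    have e6 : 1 / (4 * (Mg + 1)) * Mg ≤ 1 / 4 := by
      rw [one_div_mul_eq_div, div_le_div_iff₀ (by positivity) (by norm_num)]
      linarith
    have e7 : (K : ℝ) * (1 / (4 * (K + 1) * (Mg + 1)) * Mg) ≤ 1 / 4 := by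
      have e8 : (K : ℝ) * (1 / (4 * (K + 1) * (Mg + 1)) * Mg) =
          (K : ℝ) / (K + 1) * (1 / (4 * (Mg + 1)) * Mg) := by
        field_simp
      rw [e8]
      have e9 : (K : ℝ) / (K + 1) ≤ 1 := by
        rw [div_le_one hK1]
        linarith
      have e10 : 0 ≤ 1 / (4 * (Mg + 1)) * Mg := by positivity
      calc (K : ℝ) / (K + 1) * (1 / (4 * (Mg + 1)) * Mg) ≤ 1 * (1 / (4 * (Mg + 1)) * Mg) :=
            mul_le_mul_of_nonneg_right e9 e10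
        _ ≤ 1 / 4 := by rw [one_mul]; exact e6
    linarith)
  rw [hmκ, norm_one] at hkill
  norm_num at hkill

end Pool.Agent.H790R4
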