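import Mathlib
import Pool.Agent.H790R4.PA1
import Pool.Agent.H790R4.PA2u
import Pool.Agent.H790R4.PB1
import Pool.Agent.H790R4.PB2u
import Pool.Agent.H790R4.PB3
import Pool.Agent.H790R4.PB4
import Pool.Agent.H790R4.PC1u
import Pool.Agent.H790R4.PD2
import Pool.Agent.H790R4.PD3
import Pool.Agent.H790R4.PE6

/-!
Assembly of the corona theorem, with bounds, on the ball for data close to one variable data at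
the boundary.
-/

set_option autoImplicit false

open Metric Set Filter Topology

namespace Pool.Agent.H790R4

theorem M3_gleason0 (n : ℕ) (M : ℝ) : ∃ C : ℝ, ∀ (f : (Fin n → ℂ) → ℂ),
      DifferentiableOn ℂ f (Ball n) →
      (∀ z ∈ Ball n, ‖f z‖ ≤ M) → ∃ g : Fin n → (Fin n → ℂ) → ℂ,
      (∀ i, DifferentiableOn ℂ (g i) (Ball n)) ∧ (∀ i, ∀ z ∈ Ball n, ‖g i z‖ ≤ C) ∧
      ∀ z ∈ Ball n, f z - f 0 = ∑ i, z i * g i z := by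
  obtain ⟨C, hC⟩ := B2u (fun n f hf M hM w hw v hv hvw => B1 n f hf M hM w hw v hv hvw) n M
  exact ⟨C, fun f hd hM => ⟨fun i z => ∫ t in (0:ℝ)..1, fderiv ℂ f ((t : ℂ) • z) (Pi.single i 1),
    fun i => B3 n f hd i, fun i z hz => hC f hd hM i z hz, fun z hz => B4 n f hd z hz⟩⟩

theorem main3_family (K : ℕ) (δ : ℝ) (hδ : 0 < δ) :
    ∃ ε : ℝ → ℝ, (∀ M, 0 < ε M) ∧ ∀ (n : ℕ) (S : Type) (f : Fin K → S → (Fin (n + 1) → ℂ) → ℂ),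
      (∀ k s, DifferentiableOn ℂ (f k s) (Ball (n + 1))) →
      (∀ k s, ∀ z ∈ Ball (n + 1), ‖f k s z‖ ≤ 1) →
      (∀ s, ∀ z ∈ Ball (n + 1), δ ≤ ∑ k, ‖f k s z‖) →
      (∀ p : Fin (n + 1) → ℂ, ∑ i, ‖p i‖ ^ 2 = 1 → ∃ r ρ M : ℝ, 0 < r ∧ ρ < 1 ∧ ∀ s,
        ∃ (j : Fin K) (a : Fin (n + 1) → ℂ) (F : Fin K → ℂ → ℂ), ∑ i, ‖a i‖ ^ 2 ≤ ρ ∧
          (∀ k, DifferentiableOn ℂ (F k) (ball 0 1)) ∧
          (∀ k, ∀ x ∈ ball (0 : ℂ) 1, ‖F k x‖ ≤ M) ∧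
          ∀ k, k ≠ j → ∀ z ∈ Ball (n + 1), dist z p < r → ‖f k s z - F k (lam a p z)‖ ≤ ε M) →
      ∃ C : ℝ, ∀ s, ∃ h : Fin K → (Fin (n + 1) → ℂ) → ℂ,
        (∀ k, DifferentiableOn ℂ (h k) (Ball (n + 1))) ∧
        (∀ k, ∀ z ∈ Ball (n + 1), ‖h k z‖ ≤ C) ∧
        ∀ z ∈ Ball (n + 1), ∑ k, f k s z * h k z = 1 :=
  E6 (fun S n K F hF hno => A2u (fun n F f hF h => A1 n F f hF h) S n K F hF hno)
    (fun n M p hp => C1u M3_gleason0 n M p hp)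
    (fun n a p ha hp z hz => D_norm (fun n a p ha hp => D3 n a p ha hp) n a p ha hp z hz)
    (fun K δ M hδ => D_unif (fun n a p ha hp => D3 n a p ha hp) K δ M hδ)
    K δ hδ

theorem main3 (K : ℕ) (δ : ℝ) (hδ : 0 < δ) :
    ∃ ε : ℝ → ℝ, (∀ M, 0 < ε M) ∧ ∀ (n : ℕ) (r ρ M : (Fin (n + 1) → ℂ) → ℝ),
      (∀ p, 0 < r p) → (∀ p, ρ p < 1) → ∃ C : ℝ, ∀ (f : Fin K → (Fin (n + 1) → ℂ) → ℂ),
      (∀ k, DifferentiableOn ℂ (f k) (Ball (n + 1))) →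
      (∀ k, ∀ z ∈ Ball (n + 1), ‖f k z‖ ≤ 1) →
      (∀ z ∈ Ball (n + 1), δ ≤ ∑ k, ‖f k z‖) →
      (∀ p : Fin (n + 1) → ℂ, ∑ i, ‖p i‖ ^ 2 = 1 →
        ∃ (j : Fin K) (a : Fin (n + 1) → ℂ) (F : Fin K → ℂ → ℂ), ∑ i, ‖a i‖ ^ 2 ≤ ρ p ∧
          (∀ k, DifferentiableOn ℂ (F k) (ball 0 1)) ∧
          (∀ k, ∀ x ∈ ball (0 : ℂ) 1, ‖F k x‖ ≤ M p) ∧
          ∀ k, k ≠ j → ∀ z ∈ Ball (n + 1), dist z p < r p →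
            ‖f k z - F k (lam a p z)‖ ≤ ε (M p)) →
      ∃ h : Fin K → (Fin (n + 1) → ℂ) → ℂ,
        (∀ k, DifferentiableOn ℂ (h k) (Ball (n + 1))) ∧
        (∀ k, ∀ z ∈ Ball (n + 1), ‖h k z‖ ≤ C) ∧
        ∀ z ∈ Ball (n + 1), ∑ k, f k z * h k z = 1 := by
  obtain ⟨ε, hε, H⟩ := main3_family K δ hδ
  refine ⟨ε, hε, fun n r ρ M hr hρ => ?_⟩
  obtain ⟨C, hC⟩ := H n {f : Fin K → (Fin (n + 1) → ℂ) → ℂ //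
      (∀ k, DifferentiableOn ℂ (f k) (Ball (n + 1))) ∧
      (∀ k, ∀ z ∈ Ball (n + 1), ‖f k z‖ ≤ 1) ∧
      (∀ z ∈ Ball (n + 1), δ ≤ ∑ k, ‖f k z‖) ∧
      (∀ p : Fin (n + 1) → ℂ, ∑ i, ‖p i‖ ^ 2 = 1 →
        ∃ (j : Fin K) (a : Fin (n + 1) → ℂ) (F : Fin K → ℂ → ℂ), ∑ i, ‖a i‖ ^ 2 ≤ ρ p ∧
          (∀ k, DifferentiableOn ℂ (F k) (ball 0 1)) ∧
          (∀ k, ∀ x ∈ ball (0 : ℂ) 1, ‖F k x‖ ≤ M p) ∧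
          ∀ k, k ≠ j → ∀ z ∈ Ball (n + 1), dist z p < r p →
            ‖f k z - F k (lam a p z)‖ ≤ ε (M p))} (fun k s => s.1 k)
    (fun k s => s.2.1 k) (fun k s => s.2.2.1 k) (fun s => s.2.2.2.1)
    (fun p hp => ⟨r p, ρ p, M p, hr p, hρ p, fun s => s.2.2.2.2 p hp⟩)
  exact ⟨C, fun f h1 h2 h3 h4 => hC ⟨f, h1, h2, h3, h4⟩⟩

end Pool.Agent.H790R4
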